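import Pool.Agent.H883.ZP.Onto

set_option autoImplicit false
set_option linter.unusedSectionVars false

/-!
# The complement of the exceptional set is Zariski dense
-/

namespace Pool.Agent.H883.ZP

open Module PowerSeries

lemma exists_root_ps {L : Type} [Field L] [CharZero L] {D : ℕ} (hD : 0 < D) (p : PowerSeries L)
    (hp : constantCoeff p = 1) : ∃ t : PowerSeries L, t ^ D = p ∧ constantCoeff t = 1 := by
  have hH : HenselianRing (PowerSeries L) (Ideal.span {(X : PowerSeries L)}) :=
    inferInstance
  let f : Polynomial (PowerSeries L) := Polynomial.X ^ D - Polynomial.C p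
  have hf : f.Monic := Polynomial.monic_X_pow_sub_C p hD.ne'
  have h1 : f.eval 1 ∈ Ideal.span {(X : PowerSeries L)} := by
    rw [Ideal.mem_span_singleton, X_dvd_iff]
    simp [f, hp]
  have h2 : IsUnit (Ideal.Quotient.mk (Ideal.span {(X : PowerSeries L)})
      (f.derivative.eval 1)) := by
    apply IsUnit.map
    have h3 : f.derivative.eval 1 = C (D : L) := by
      simp only [f, Polynomial.derivative_sub, Polynomial.derivative_X_pow, Polynomial.derivative_C,
        sub_zero, Polynomial.eval_mul, Polynomial.eval_natCast, Polynomial.eval_pow,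
        Polynomial.eval_X, one_pow, mul_one, map_natCast]
    rw [h3]
    apply IsUnit.map
    exact IsUnit.mk0 _ (Nat.cast_ne_zero.2 hD.ne')
  obtain ⟨t, ht, ht1⟩ := hH.is_henselian f hf 1 h1 h2
  refine ⟨t, ?_, ?_⟩
  · have := ht
    simp only [f, Polynomial.IsRoot, Polynomial.eval_sub, Polynomial.eval_pow, Polynomial.eval_X,
      Polynomial.eval_C] at this
    exact sub_eq_zero.1 this
  · rw [Ideal.mem_span_singleton, X_dvd_iff, map_sub, map_one, sub_eq_zero] at ht1
    exact ht1

/-- a finitely generated algebra over an algebraically closed field has a point -/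
theorem exists_point (L : Type) [Field L] [IsAlgClosed L] (A : Type) [CommRing A] [Nontrivial A]
    [Algebra L A] [Algebra.FiniteType L A] : Nonempty (A →ₐ[L] L) := by
  obtain ⟨m, hm⟩ := Ideal.exists_maximal A
  let _ := Ideal.Quotient.field m
  have : Algebra.FiniteType L (A ⧸ m) :=
    Algebra.FiniteType.of_surjective (Ideal.Quotient.mkₐ L m) Ideal.Quotient.mk_surjective
  have h1 : Module.Finite L (A ⧸ m) := finite_of_finite_type_of_isJacobsonRing L (A ⧸ m)
  exact ⟨(IsAlgClosed.lift : (A ⧸ m) →ₐ[L] L).comp (Ideal.Quotient.mkₐ L m)⟩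

lemma mon_mul {F κ : Type} [Field F] [Fintype κ] (u v : κ → F) (e : κ → ℤ) :
    mon (fun l => u l * v l) e = mon u e * mon v e := by
  unfold mon
  rw [← Finset.prod_mul_distrib]
  exact Finset.prod_congr rfl fun l _ => mul_zpow _ _ _

lemma map_aevalZ' {A M ι : Type} [CommRing A] [CommRing M] [Algebra ℤ A] [Algebra ℤ M]
    (φ : A →+* M) (x : ι → A) (G : MvPolynomial ι ℤ) :
    φ (MvPolynomial.aeval x G) = MvPolynomial.aeval (fun i => φ (x i)) G := by
  rw [MvPolynomial.aeval_def, MvPolynomial.aeval_def, MvPolynomial.hom_eval₂]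
  congr 1
  exact RingHom.ext_int _ _

/-- specialization of a point over an extension to the base field -/
theorem descend {L Ω : Type} [Field L] [IsAlgClosed L] [Field Ω] [Algebra L Ω] {n c : ℕ}
    (a b : Fin c → L) (α β : Fin c → Fin n → ℤ) (Z : Fin n → Ω) (hZ : ∀ l, Z l ≠ 0)
    (heq : ∀ i, algebraMap L Ω (a i) * mon Z (α i) + algebraMap L Ω (b i) * mon Z (β i) = 1)
    (F : MvPolynomial (Fin n) L) (hF : MvPolynomial.aeval Z F ≠ 0)
    (G : MvPolynomial (Fin c) ℤ)
    (hG : MvPolynomial.aeval (fun i => algebraMap L Ω (a i) * mon Z (α i)) G ≠ 0) :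
    ∃ z : Fin n → L, (∀ l, z l ≠ 0) ∧
      (∀ i, a i * mon z (α i) + b i * mon z (β i) = 1) ∧ MvPolynomial.eval z F ≠ 0 ∧
      MvPolynomial.aeval (fun i => a i * mon z (α i)) G ≠ 0 := by
  classical
  set g : Ω := MvPolynomial.aeval Z F *
    MvPolynomial.aeval (fun i => algebraMap L Ω (a i) * mon Z (α i)) G with hg
  have hg0 : g ≠ 0 := mul_ne_zero hF hG
  let T : Finset Ω := Finset.univ.image Z ∪ Finset.univ.image (fun l => (Z l)⁻¹) ∪ {g⁻¹}
  let A : Subalgebra L Ω := Algebra.adjoin L (T : Set Ω)
  have hFT : Algebra.FiniteType L A :=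
    (Subalgebra.fg_iff_finiteType A).1 ⟨T, rfl⟩
  have hzA : ∀ l, Z l ∈ A := fun l => Algebra.subset_adjoin (by
    simp only [T, Finset.coe_union, Set.mem_union]
    left; left
    exact Finset.mem_coe.2 (Finset.mem_image_of_mem _ (Finset.mem_univ l)))
  have hziA : ∀ l, (Z l)⁻¹ ∈ A := fun l => Algebra.subset_adjoin (by
    simp only [T, Finset.coe_union, Set.mem_union]
    left; right
    exact Finset.mem_coe.2 (Finset.mem_image_of_mem (fun l => (Z l)⁻¹) (Finset.mem_univ l)))
  have hgA : g⁻¹ ∈ A := Algebra.subset_adjoin (by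
    simp only [T, Finset.coe_union, Set.mem_union]
    right
    simp)
  let Zu : Fin n → Aˣ := fun l => ⟨⟨Z l, hzA l⟩, ⟨(Z l)⁻¹, hziA l⟩,
    Subtype.ext (mul_inv_cancel₀ (hZ l)), Subtype.ext (inv_mul_cancel₀ (hZ l))⟩
  let φ : A →+* Ω := (A.val : A →+* Ω)
  have hφ : Function.Injective φ := Subtype.val_injective
  obtain ⟨ψ⟩ := exists_point L A
  have hψ : ∀ e : Fin n → ℤ, ψ (monU Zu e : A) = mon (fun l => ψ (Zu l : A)) e := fun e =>
    map_monU (ψ : A →+* L) Zu e
  have heqA : ∀ i, algebraMap L A (a i) * (monU Zu (α i) : A) +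
      algebraMap L A (b i) * (monU Zu (β i) : A) = 1 := by
    intro i
    apply hφ
    rw [map_add, map_mul, map_mul, map_monU, map_monU, map_one]
    exact heq i
  let FA : A := MvPolynomial.aeval (fun l => (Zu l : A)) F
  have hFA1 : φ FA = MvPolynomial.aeval Z F := by
    have := MvPolynomial.comp_aeval_apply (f := fun l => (Zu l : A)) A.val F
    exact this
  have hFA2 : ψ FA = MvPolynomial.eval (fun l => ψ (Zu l : A)) F := by
    have := MvPolynomial.comp_aeval_apply (f := fun l => (Zu l : A)) ψ F
    rw [MvPolynomial.aeval_eq_eval] at this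
    exact this
  let gA : A := MvPolynomial.aeval (fun i => algebraMap L A (a i) * (monU Zu (α i) : A)) G
  have hgA1 : φ gA = MvPolynomial.aeval (fun i => algebraMap L Ω (a i) * mon Z (α i)) G := by
    rw [map_aevalZ]
    congr 2
    funext i
    rw [map_mul, map_monU]
    rfl
  have hgA2 : ψ gA = MvPolynomial.aeval (fun i => a i * mon (fun l => ψ (Zu l : A)) (α i)) G := by
    have h2 := map_aevalZ (ψ : A →+* L) (fun i => algebraMap L A (a i) * (monU Zu (α i) : A)) G
    refine h2.trans ?_
    congr 2
    funext i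
    show ψ (algebraMap L A (a i) * (monU Zu (α i) : A)) = _
    rw [map_mul, hψ, AlgHom.commutes]
    rfl
  have hunit : FA * gA * ⟨g⁻¹, hgA⟩ = 1 := by
    apply hφ
    rw [map_mul, map_mul, hgA1, hFA1, map_one]
    exact mul_inv_cancel₀ hg0
  have h2 := congrArg ψ hunit
  rw [map_mul, map_mul, map_one] at h2
  refine ⟨fun l => ψ (Zu l : A), fun l => ?_, fun i => ?_, ?_, ?_⟩
  · exact ((Zu l).isUnit.map ψ).ne_zero
  · have := congrArg ψ (heqA i)
    rw [map_add, map_mul, map_mul, hψ, hψ, map_one, AlgHom.commutes, AlgHom.commutes] at this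
    exact this
  · intro h
    rw [hFA2, h, zero_mul, zero_mul] at h2
    exact zero_ne_one h2
  · intro h
    rw [hgA2, h, mul_zero, zero_mul] at h2
    exact zero_ne_one h2

/-- The points of `V` outside a hypersurface in the values of the first monomials are Zariski
dense in `V`. -/
theorem dense_compl {L : Type} [Field L] [IsAlgClosed L] [CharZero L] {c n : ℕ} (a b : Fin c → L)
    (ha : ∀ i, a i ≠ 0) (hb : ∀ i, b i ≠ 0)
    {α β : Fin c → Fin n → ℤ} (hE : LinearIndependent ℤ (Sum.elim α β))
    (G : MvPolynomial (Fin c) ℤ) (hG : G ≠ 0)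
    (z0 : Fin n → L) (hz0 : ∀ l, z0 l ≠ 0) (heq : ∀ i, a i * mon z0 (α i) + b i * mon z0 (β i) = 1)
    (F : MvPolynomial (Fin n) L) (hF : MvPolynomial.eval z0 F ≠ 0) :
    ∃ z : Fin n → L, (∀ l, z l ≠ 0) ∧ (∀ i, a i * mon z (α i) + b i * mon z (β i) = 1) ∧
      MvPolynomial.eval z F ≠ 0 ∧
      MvPolynomial.aeval (fun i => a i * mon z (α i)) G ≠ 0 := by
  classical
  have hmon0 : ∀ e, mon z0 e ≠ 0 := fun e => Finset.prod_ne_zero_iff.2 fun l _ =>
    zpow_ne_zero _ (hz0 l)
  let x : Fin c → L := fun i => a i * mon z0 (α i)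
  have hx : ∀ i, x i ≠ 0 := fun i => mul_ne_zero (ha i) (hmon0 _)
  have hx1 : ∀ i, b i * mon z0 (β i) = 1 - x i := fun i => by
    rw [← heq i]
    simp [x]
  have hx2 : ∀ i, 1 - x i ≠ 0 := fun i => by
    rw [← hx1 i]
    exact mul_ne_zero (hb i) (hmon0 _)
  obtain ⟨D, M, hD, hM⟩ := exists_right_inverse hE
  -- a point outside of the hypersurface
  obtain ⟨y, hy⟩ : ∃ y : Fin c → L, MvPolynomial.aeval y G ≠ 0 := by
    by_contra hcon
    push Not at hcon
    apply hG
    apply MvPolynomial.map_injective (Int.castRingHom L) Int.cast_injective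
    rw [map_zero]
    apply MvPolynomial.funext
    intro y
    rw [map_zero, MvPolynomial.eval_map, ← hcon y]
    rfl
  have hr : ∀ i, ∃ r : L, r ^ D = y i / x i := fun i => IsAlgClosed.exists_pow_nat_eq _ hD
  choose r hr using hr
  let sP : Fin c → Polynomial L := fun i => 1 + Polynomial.C (r i - 1) * Polynomial.X
  let s : Fin c → PowerSeries L := fun i => (sP i : PowerSeries L)
  have hs1 : ∀ i, constantCoeff (s i) = 1 := fun i => by
    simp [s, sP]
  let p : Fin c → PowerSeries L := fun i => C (1 - x i)⁻¹ * (1 - C (x i) * s i ^ D)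
  have hp1 : ∀ i, constantCoeff (p i) = 1 := fun i => by
    simp only [p, map_mul, map_sub, map_one, map_pow, hs1, one_pow, mul_one, constantCoeff_C]
    exact inv_mul_cancel₀ (hx2 i)
  have ht : ∀ i, ∃ t : PowerSeries L, t ^ D = p i ∧ constantCoeff t = 1 := fun i =>
    exists_root_ps hD (p i) (hp1 i)
  choose t ht ht1 using ht
  have hunit : ∀ f : PowerSeries L, constantCoeff f = 1 → IsUnit f := fun f hf =>
    isUnit_iff_constantCoeff.2 (by rw [hf]; exact isUnit_one)
  let S0 : Fin c ⊕ Fin c → PowerSeries L := Sum.elim s t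
  have hS0 : ∀ k, constantCoeff (S0 k) = 1 := fun k => by
    rcases k with i | i
    · exact hs1 i
    · exact ht1 i
  let S : Fin c ⊕ Fin c → (PowerSeries L)ˣ := fun k => (hunit _ (hS0 k)).unit
  have hS : ∀ k, (S k : PowerSeries L) = S0 k := fun k => rfl
  let Zu : Fin n → (PowerSeries L)ˣ := fun l =>
    Units.map (C : L →+* PowerSeries L).toMonoidHom (Units.mk0 (z0 l) (hz0 l)) * monU S (M l)
  let Ω := FractionRing (PowerSeries L)
  let φ : PowerSeries L →+* Ω := algebraMap _ _
  have hφ : Function.Injective φ := IsFractionRing.injective _ _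
  let Z : Fin n → Ω := fun l => φ (Zu l : PowerSeries L)
  have hZ : ∀ l, Z l ≠ 0 := fun l => ((Zu l).isUnit.map φ).ne_zero
  have hZ1 : ∀ l, Z l = φ (C (z0 l)) * mon (fun k => φ (S k : PowerSeries L)) (M l) := fun l => by
    simp only [Z, Zu]
    rw [Units.val_mul, map_mul, map_monU]
    rfl
  have hmonZ : ∀ k, mon Z (Sum.elim α β k) =
      φ (C (mon z0 (Sum.elim α β k))) * φ (S0 k) ^ D := by
    intro k
    have h1 : Z = fun l => φ (C (z0 l)) * mon (fun k => φ (S k : PowerSeries L)) (M l) :=
      funext hZ1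
    rw [h1, mon_mul, mon_mon _ (fun k => ((S k).isUnit.map φ).ne_zero)]
    congr 1
    · unfold mon
      rw [map_prod, map_prod]
      refine Finset.prod_congr rfl fun l _ => ?_
      exact (map_zpow₀ (φ.comp (C : L →+* PowerSeries L)) (z0 l) _).symm
    · have h2 : (fun j => ∑ l, Sum.elim α β k l * M l j) = fun j => if k = j then (D : ℤ) else 0 := by
        funext j
        exact hM k j
      rw [h2]
      unfold mon
      rw [Finset.prod_eq_single k]
      · show φ (S k : PowerSeries L) ^ (if k = k then (D : ℤ) else 0) = _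
        rw [if_pos rfl, zpow_natCast]
        rfl
      · intro j _ hj
        show φ (S j : PowerSeries L) ^ (if k = j then (D : ℤ) else 0) = 1
        rw [if_neg (Ne.symm hj), zpow_zero]
      · intro h
        exact absurd (Finset.mem_univ _) h
  have hval : ∀ i, algebraMap L Ω (a i) * mon Z (α i) = φ (C (x i) * s i ^ D) := by
    intro i
    have h1 := hmonZ (Sum.inl i)
    simp only [Sum.elim_inl, S0] at h1
    rw [h1]
    have h2 : algebraMap L Ω (a i) = φ (C (a i)) := rfl
    rw [h2, ← mul_assoc, ← map_mul, ← map_mul, ← map_pow, ← map_mul]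
  have hval' : ∀ i, algebraMap L Ω (b i) * mon Z (β i) = φ (C (1 - x i) * t i ^ D) := by
    intro i
    have h1 := hmonZ (Sum.inr i)
    simp only [Sum.elim_inr, S0] at h1
    rw [h1]
    have h2 : algebraMap L Ω (b i) = φ (C (b i)) := rfl
    rw [h2, ← mul_assoc, ← map_mul, ← map_mul, ← map_pow, ← map_mul, hx1]
  refine descend a b α β Z hZ ?_ F ?_ G ?_
  · intro i
    rw [hval, hval', ← map_add, ht]
    simp only [p]
    rw [← mul_assoc, ← map_mul, mul_inv_cancel₀ (hx2 i), map_one, one_mul, add_sub_cancel, map_one]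
  · -- the value of `F`
    intro h
    have h1 : φ (MvPolynomial.aeval (fun l => (Zu l : PowerSeries L)) F) =
        MvPolynomial.aeval Z F :=
      MvPolynomial.comp_aeval_apply (f := fun l => (Zu l : PowerSeries L))
        (IsScalarTower.toAlgHom L (PowerSeries L) Ω) F
    rw [h] at h1
    have h2 : MvPolynomial.aeval (fun l => (Zu l : PowerSeries L)) F = 0 := hφ (by rw [h1, map_zero])
    apply hF
    have h3 : constantCoeff (MvPolynomial.aeval (fun l => (Zu l : PowerSeries L)) F) =
        MvPolynomial.eval z0 F := by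
      let κ : PowerSeries L →ₐ[L] L := { (constantCoeff : PowerSeries L →+* L) with
        commutes' := fun w => by
          show constantCoeff (C w) = w
          exact constantCoeff_C w }
      have h4 := MvPolynomial.comp_aeval_apply (f := fun l => (Zu l : PowerSeries L)) κ F
      have h5 : (fun l => κ (Zu l : PowerSeries L)) = z0 := by
        funext l
        show constantCoeff (Zu l : PowerSeries L) = z0 l
        simp only [Zu]
        rw [Units.val_mul, map_mul, map_monU]
        have h6 : (fun k => constantCoeff (S k : PowerSeries L)) = fun _ => (1 : L) := by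
          funext k
          rw [hS, hS0]
        rw [h6]
        have h7 : mon (fun _ : Fin c ⊕ Fin c => (1 : L)) (M l) = 1 := by
          unfold mon
          simp
        rw [h7, mul_one]
        show constantCoeff (C (z0 l)) = z0 l
        exact constantCoeff_C _
      rw [h5, MvPolynomial.aeval_eq_eval] at h4
      exact h4
    rw [← h3, h2, map_zero]
  · -- the value of `G`
    intro h
    simp_rw [hval] at h
    have h0 := @map_aevalZ' _ _ _ _ _ _ (Ring.toIntAlgebra Ω) φ (fun i => C (x i) * s i ^ D) G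
    rw [h] at h0
    have h1 : MvPolynomial.aeval (fun i => C (x i) * s i ^ D) G = 0 := hφ (by rw [h0, map_zero])
    have h2 : MvPolynomial.aeval (fun i => C (x i) * s i ^ D) G =
        ((MvPolynomial.aeval (fun i => Polynomial.C (x i) * sP i ^ D) G : Polynomial L) :
          PowerSeries L) := by
      have := map_aevalZ' (Polynomial.coeToPowerSeries.ringHom : Polynomial L →+* PowerSeries L)
        (fun i => Polynomial.C (x i) * sP i ^ D) G
      rw [Polynomial.coeToPowerSeries.ringHom_apply] at this
      rw [this]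
      congr 2
      funext i
      rw [Polynomial.coeToPowerSeries.ringHom_apply, Polynomial.coe_mul, Polynomial.coe_pow,
        Polynomial.coe_C]
    rw [h1] at h2
    have h3 : (MvPolynomial.aeval (fun i => Polynomial.C (x i) * sP i ^ D) G : Polynomial L) = 0 := by
      apply Polynomial.coe_injective
      rw [← h2, Polynomial.coe_zero]
    apply hy
    have h4 := map_aevalZ' (Polynomial.evalRingHom (1 : L))
        (fun i => Polynomial.C (x i) * sP i ^ D) G
    rw [h3, map_zero] at h4
    rw [h4]
    congr 2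
    funext i
    simp only [Polynomial.coe_evalRingHom, sP, Polynomial.eval_mul, Polynomial.eval_C,
      Polynomial.eval_pow, Polynomial.eval_add, Polynomial.eval_one, Polynomial.eval_X, mul_one]
    rw [add_sub_cancel, hr, mul_div_cancel₀ _ (hx i)]

end Pool.Agent.H883.ZP
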