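import Pool.Agent.H883.ZP.Pair

set_option autoImplicit false
set_option linter.unusedSectionVars false

/-!
# Multiplicative relations and real subspaces
-/

namespace Pool.Agent.H883.ZP

open Module

/-- the monomial with exponents `e` at the point `w` -/
def mon {F κ : Type} [Field F] [Fintype κ] (w : κ → F) (e : κ → ℤ) : F := ∏ l, w l ^ e l

/-- the point `w` lies in an algebraic subgroup of codimension `m`: it satisfies `m` independent
multiplicative relations -/
def Codim {F κ : Type} [Field F] [Fintype κ] (w : κ → F) (m : ℕ) : Prop :=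
  ∃ R : Fin m → κ → ℤ, LinearIndependent ℤ R ∧ ∀ k, mon w (R k) = 1

section lin

variable {κ : Type} [Fintype κ]

/-- a subspace on which `m` independent integral functionals vanish -/
lemma finrank_le_of_rel {m : ℕ} {R : Fin m → κ → ℤ} (hR : LinearIndependent ℤ R)
    (U : Submodule ℝ (κ → ℝ)) (hU : ∀ x ∈ U, ∀ k, ∑ l, (R k l : ℝ) * x l = 0) :
    finrank ℝ U + m ≤ Fintype.card κ := by
  classical
  let A : Matrix (Fin m) κ ℝ := fun k l => (R k l : ℝ)
  have hA : LinearIndependent ℝ A := by
    have h1 := (linearIndependent_algebraMap_comp_iff (R := ℤ) (S := ℝ) (v := R)).2 hR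
    exact h1
  have hrank : A.rank = m := by
    have := LinearIndependent.rank_matrix (M := A) hA
    rw [this, Fintype.card_fin]
  have hle : U ≤ LinearMap.ker A.mulVecLin := by
    intro x hx
    rw [LinearMap.mem_ker]
    funext k
    exact hU x hx k
  have h2 := Submodule.finrank_mono hle
  have h3 := LinearMap.finrank_range_add_finrank_ker A.mulVecLin
  have h4 : finrank ℝ (LinearMap.range A.mulVecLin) = m := hrank
  rw [h4, Module.finrank_fintype_fun_eq_card] at h3
  omega

/-- the subspace cut out by all relations of a point -/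
def relW {F : Type} [Field F] (w : κ → F) : Submodule ℝ (κ → ℝ) where
  carrier := {x | ∀ e : κ → ℤ, mon w e = 1 → ∑ l, (e l : ℝ) * x l = 0}
  add_mem' := by
    intro x y hx hy e he
    simp only [Pi.add_apply, mul_add, Finset.sum_add_distrib]
    rw [hx e he, hy e he, add_zero]
  zero_mem' := by
    intro e _
    simp
  smul_mem' := by
    intro c x hx e he
    have : ∑ l, (e l : ℝ) * (c • x) l = c * ∑ l, (e l : ℝ) * x l := by
      rw [Finset.mul_sum]
      exact Finset.sum_congr rfl fun l _ => by
        rw [Pi.smul_apply, smul_eq_mul]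
        ring
    rw [this, hx e he, mul_zero]

lemma finrank_relW {F : Type} [Field F] {w : κ → F} {m : ℕ} (h : Codim w m) :
    finrank ℝ (relW w) + m ≤ Fintype.card κ := by
  obtain ⟨R, hR, h1⟩ := h
  exact finrank_le_of_rel hR _ fun x hx k => hx (R k) (h1 k)

/-- logarithms of monomials -/
lemma log_mon {F : Type} [Field F] (v : F →*₀ ℝ) (hv : ∀ x, x ≠ 0 → 0 < v x) {w : κ → F}
    (hw : ∀ l, w l ≠ 0) (e : κ → ℤ) :
    Real.log (v (mon w e)) = ∑ l, (e l : ℝ) * Real.log (v (w l)) := by
  unfold mon
  rw [map_prod, Real.log_prod (fun l _ => by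
    rw [map_zpow₀]
    exact zpow_ne_zero _ (hv _ (hw l)).ne')]
  refine Finset.sum_congr rfl fun l _ => ?_
  rw [map_zpow₀, Real.log_zpow]

lemma log_mem_relW {F : Type} [Field F] (v : F →*₀ ℝ) (hv : ∀ x, x ≠ 0 → 0 < v x) {w : κ → F}
    (hw : ∀ l, w l ≠ 0) : (fun l => Real.log (v (w l))) ∈ relW w := by
  intro e he
  rw [← log_mon v hv hw e, he, map_one, Real.log_one]

lemma mon_mon {F : Type} [Field F] {κ' : Type} [Fintype κ'] (w : κ → F) (hw : ∀ l, w l ≠ 0)
    (α : κ' → κ → ℤ) (e : κ' → ℤ) :
    mon (fun i => mon w (α i)) e = mon w (fun l => ∑ i, e i * α i l) := by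
  unfold mon
  simp_rw [← Finset.prod_zpow, ← zpow_mul]
  rw [Finset.prod_comm]
  refine Finset.prod_congr rfl fun l _ => ?_
  have : ∀ s : Finset κ', ∏ i ∈ s, w l ^ (α i l * e i) = w l ^ (∑ i ∈ s, e i * α i l) := by
    classical
    intro s
    induction s using Finset.induction_on with
    | empty => simp
    | insert i s hi ih =>
      rw [Finset.prod_insert hi, Finset.sum_insert hi, zpow_add₀ (hw l), ih, mul_comm (α i l)]
  exact this _

end lin

/-- the map on logarithms defined by two families of exponents -/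
def psi {n c : ℕ} (α β : Fin c → Fin n → ℤ) : (Fin n → ℝ) →ₗ[ℝ] (Fin c × Bool → ℝ) where
  toFun x r := ∑ l, ((if r.2 then β r.1 l else α r.1 l : ℤ) : ℝ) * x l
  map_add' x y := by
    funext r
    simp only [Pi.add_apply, mul_add, Finset.sum_add_distrib]
  map_smul' t x := by
    funext r
    rw [RingHom.id_apply, Pi.smul_apply, smul_eq_mul, Finset.mul_sum]
    exact Finset.sum_congr rfl fun l _ => by
      rw [Pi.smul_apply, smul_eq_mul]
      ring

/-- the condition on two of the equations -/
def PairCond {F : Type} [Field F] {n c : ℕ} (α β : Fin c → Fin n → ℤ) (z : Fin n → F)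
    (i j : Fin c) : Prop :=
  Codim ![mon z (α i), mon z (β i), mon z (α j), mon z (β j)] 2 ∨
    Codim ![mon z (α i), mon z (β i)] 1 ∨ Codim ![mon z (α j), mon z (β j)] 1

/-- the map on logarithms defined by a family of exponents -/
def qm {n N : ℕ} (γ : Fin N → Fin n → ℤ) : (Fin n → ℝ) →ₗ[ℝ] (Fin N → ℝ) where
  toFun x t := ∑ l, (γ t l : ℝ) * x l
  map_add' x y := by
    funext t
    simp only [Pi.add_apply, mul_add, Finset.sum_add_distrib]
  map_smul' a x := by
    funext t
    rw [RingHom.id_apply, Pi.smul_apply, smul_eq_mul, Finset.mul_sum]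
    exact Finset.sum_congr rfl fun l _ => by
      rw [Pi.smul_apply, smul_eq_mul]
      ring

lemma qm_finrank {F : Type} [Field F] {n N m : ℕ} {γ : Fin N → Fin n → ℤ} {z : Fin n → F}
    (hz : ∀ l, z l ≠ 0) (h : Codim (fun t => mon z (γ t)) m) :
    finrank ℝ ((relW z).map (qm γ)) + m ≤ N := by
  obtain ⟨R, hR, hrel⟩ := h
  have := finrank_le_of_rel hR ((relW z).map (qm γ)) (by
    intro y hy k
    obtain ⟨x, hx, rfl⟩ := Submodule.mem_map.1 hy
    have h2 := hrel k
    rw [mon_mon z hz] at h2
    have h4 := hx _ h2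
    rw [← h4]
    show ∑ t, (R k t : ℝ) * ∑ l, (γ t l : ℝ) * x l = _
    simp_rw [Finset.mul_sum]
    rw [Finset.sum_comm]
    refine Finset.sum_congr rfl fun l _ => ?_
    push_cast
    rw [Finset.sum_mul]
    exact Finset.sum_congr rfl fun t _ => by ring)
  rwa [Fintype.card_fin] at this

lemma pair_finrank {F : Type} [Field F] {n c : ℕ} {α β : Fin c → Fin n → ℤ} {z : Fin n → F}
    (hz : ∀ l, z l ≠ 0) {i j : Fin c} (h : PairCond α β z i j) :
    finrank ℝ (((relW z).map (psi α β)).map (pr2 i j)) ≤ 2 ∨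
      finrank ℝ (((relW z).map (psi α β)).map (pr i)) ≤ 1 ∨
      finrank ℝ (((relW z).map (psi α β)).map (pr j)) ≤ 1 := by
  have h1 : ∀ i : Fin c, Codim ![mon z (α i), mon z (β i)] 1 →
      finrank ℝ (((relW z).map (psi α β)).map (pr i)) ≤ 1 := by
    intro i hi
    let g : (Fin 2 → ℝ) →ₗ[ℝ] ℝ × ℝ := (LinearMap.proj 0).prod (LinearMap.proj 1)
    have hg : (pr i).comp (psi α β) = g.comp (qm ![α i, β i]) := by
      apply LinearMap.ext
      intro x
      rfl
    rw [← Submodule.map_comp, hg, Submodule.map_comp]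
    refine (Submodule.finrank_map_le _ _).trans ?_
    have h3 : (![mon z (α i), mon z (β i)] : Fin 2 → F) = fun t => mon z (![α i, β i] t) := by
      funext t
      fin_cases t <;> rfl
    rw [h3] at hi
    exact Nat.le_of_add_le_add_right (c := 1) (qm_finrank hz hi)
  rcases h with h | h | h
  · left
    let g : (Fin 4 → ℝ) →ₗ[ℝ] (ℝ × ℝ) × (ℝ × ℝ) :=
      ((LinearMap.proj 0).prod (LinearMap.proj 1)).prod ((LinearMap.proj 2).prod (LinearMap.proj 3))
    have hg : (pr2 i j).comp (psi α β) = g.comp (qm ![α i, β i, α j, β j]) := by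
      apply LinearMap.ext
      intro x
      rfl
    rw [← Submodule.map_comp, hg, Submodule.map_comp]
    refine (Submodule.finrank_map_le _ _).trans ?_
    have h3 : (![mon z (α i), mon z (β i), mon z (α j), mon z (β j)] : Fin 4 → F) =
        fun t => mon z (![α i, β i, α j, β j] t) := by
      funext t
      fin_cases t <;> rfl
    rw [h3] at h
    exact Nat.le_of_add_le_add_right (c := 2) (qm_finrank hz h)
  · exact Or.inr (Or.inl (h1 i h))
  · exact Or.inr (Or.inr (h1 j h))

end Pool.Agent.H883.ZP
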