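import Mathlib

set_option autoImplicit false

/-!
# A bounded basis of a subspace of `ℝ ^ n`
-/

namespace Pool.Agent.H883.ZP

open Module Finset

theorem basis {ρ : Type} [Fintype ρ] (V : Submodule ℝ (ρ → ℝ)) {d : ℕ} (hV : finrank ℝ V ≤ d) :
    ∃ e : Fin d → ρ → ℝ, (∀ j r, |e j r| ≤ 1) ∧ ∀ w ∈ V, ∀ S : ℝ, (∀ r, |w r| ≤ S) →
      ∃ t : Fin d → ℝ, (∀ j, |t j| ≤ Fintype.card ρ * S) ∧ ∀ r, w r = ∑ j, t j * e j r := by
  classical
  let L := (WithLp.linearEquiv 2 ℝ (ρ → ℝ)).symm
  let V' : Submodule ℝ (EuclideanSpace ℝ ρ) := V.map (L : (ρ → ℝ) →ₗ[ℝ] EuclideanSpace ℝ ρ)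
  have hf : finrank ℝ V' = finrank ℝ V := LinearEquiv.finrank_map_eq L V
  let b := stdOrthonormalBasis ℝ V'
  have hn : ∀ (x : EuclideanSpace ℝ ρ) (r : ρ), |x r| ≤ ‖x‖ := fun x r => by
    have := PiLp.norm_apply_le x r
    rwa [Real.norm_eq_abs] at this
  have hle : finrank ℝ V' ≤ d := by rw [hf]; exact hV
  refine ⟨fun j r => if h : (j : ℕ) < finrank ℝ V' then (b ⟨j, h⟩ : EuclideanSpace ℝ ρ) r else 0,
    ?_, ?_⟩
  · intro j r
    dsimp only
    split_ifs with h
    · refine (hn _ _).trans ?_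
      have := b.orthonormal.1 ⟨j, h⟩
      rw [Submodule.norm_coe, this]
    · simp
  · intro w hw S hS
    have hw' : L w ∈ V' := Submodule.mem_map_of_mem hw
    set w' : V' := ⟨L w, hw'⟩ with hw'def
    refine ⟨fun j => if h : (j : ℕ) < finrank ℝ V' then inner ℝ (b ⟨j, h⟩) w' else 0, ?_, ?_⟩
    · intro j
      dsimp only
      have h2 : ‖L w‖ ≤ Fintype.card ρ * S := by
        rw [EuclideanSpace.norm_eq]
        have hSr : ∀ r, 0 ≤ S := fun r => (abs_nonneg _).trans (hS r)
        rcases isEmpty_or_nonempty ρ with hρ | ⟨⟨r0⟩⟩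
        · simp
        have hS0 := hSr r0
        have hc : (1 : ℝ) ≤ Fintype.card ρ := by
          exact_mod_cast Fintype.card_pos_iff.2 ⟨r0⟩
        apply Real.sqrt_le_iff.2
        refine ⟨by positivity, ?_⟩
        calc ∑ r, ‖(L w) r‖ ^ 2 ≤ ∑ _r : ρ, S ^ 2 := by
              apply Finset.sum_le_sum
              intro r _
              have : ‖(L w) r‖ ≤ S := hS r
              exact pow_le_pow_left₀ (norm_nonneg _) this 2
          _ = Fintype.card ρ * S ^ 2 := by
              rw [Finset.sum_const, nsmul_eq_mul, Finset.card_univ]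
          _ ≤ (Fintype.card ρ * S) ^ 2 := by
              rw [mul_pow]
              exact mul_le_mul_of_nonneg_right (by nlinarith) (sq_nonneg S)
      split_ifs with h
      · have h1 := abs_real_inner_le_norm (b ⟨j, h⟩) w'
        rw [b.orthonormal.1 ⟨j, h⟩, one_mul] at h1
        have h3 : ‖w'‖ = ‖L w‖ := rfl
        rw [h3] at h1
        exact h1.trans h2
      · rw [abs_zero]
        exact (norm_nonneg _).trans h2
    · intro r
      have h1 : (w' : EuclideanSpace ℝ ρ) = ∑ i, (inner ℝ (b i) w' : ℝ) • (b i : EuclideanSpace ℝ ρ) := by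
        have h2 := b.sum_repr' w'
        conv_lhs => rw [← h2]
        rw [Submodule.coe_sum]
        rfl
      have h3 : w r = (w' : EuclideanSpace ℝ ρ) r := rfl
      rw [h3, h1]
      have h4 : (∑ i, (inner ℝ (b i) w' : ℝ) • (b i : EuclideanSpace ℝ ρ)) r =
          ∑ i, (inner ℝ (b i) w' : ℝ) * (b i : EuclideanSpace ℝ ρ) r := by
        rw [WithLp.ofLp_sum, Finset.sum_apply]
        rfl
      rw [h4]
      have h5 : ∀ j : Fin d, (if h : (j : ℕ) < finrank ℝ V' then inner ℝ (b ⟨j, h⟩) w' else 0) *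
          (if h : (j : ℕ) < finrank ℝ V' then (b ⟨j, h⟩ : EuclideanSpace ℝ ρ) r else 0) =
          if h : (j : ℕ) < finrank ℝ V' then
            (inner ℝ (b ⟨j, h⟩) w' : ℝ) * (b ⟨j, h⟩ : EuclideanSpace ℝ ρ) r else 0 := by
        intro j
        split_ifs <;> simp
      rw [Finset.sum_congr rfl fun j _ => h5 j]
      have h6 := Finset.sum_subset (Finset.subset_univ (Finset.univ.map (Fin.castLEEmb hle)))
        (f := fun j : Fin d => if h : (j : ℕ) < finrank ℝ V' then
            (inner ℝ (b ⟨j, h⟩) w' : ℝ) * (b ⟨j, h⟩ : EuclideanSpace ℝ ρ) r else 0) (by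
          intro j _ hj
          rw [dif_neg]
          intro h
          exact hj (Finset.mem_map.2 ⟨⟨j, h⟩, Finset.mem_univ _, rfl⟩))
      rw [← h6, Finset.sum_map]
      refine Finset.sum_congr rfl fun i _ => ?_
      rw [dif_pos (show ((Fin.castLEEmb hle i : Fin d) : ℕ) < finrank ℝ V' from i.2)]
      rfl

end Pool.Agent.H883.ZP
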