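import Pool.Agent.H883.ZP.PropP

set_option autoImplicit false
set_option linter.unusedSectionVars false

/-!
# Points of bounded height whose conjugates are near few small subspaces
-/

namespace Pool.Agent.H883.ZP

open Real NumberField Height Module Finset
open Pool.Agent.Y740 (Fp product_formula_log pow_le_exp_posLog fin_int_le fin_sum_le supp_posLog
  supp_finite logHeight₁_emb Fp_nonneg abs_log_emb_le)

variable {ι : Type} [Fintype ι] [DecidableEq ι]

lemma exp_le_two_pow {y : ℝ} (hy : 0 ≤ y) {c : ℕ} (hc : 2 * y ≤ c) : Real.exp y ≤ 2 ^ c := by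
  have e : (2 : ℝ) ^ c = Real.exp (c * log 2) := by
    rw [Real.exp_nat_mul, Real.exp_log (by norm_num)]
  rw [e]
  apply Real.exp_le_exp.2
  have : (1 / 2 : ℝ) < log 2 := by linarith [Real.log_two_gt_d9]
  nlinarith

lemma aux_mul_le {a b N : ℝ} (h : a ≤ b) (hN : 0 ≤ N) : a * N ≤ b * N :=
  mul_le_mul_of_nonneg_right h hN

lemma aux_log_le {a : ℝ} (ha : 0 ≤ a) : a * log 2 ≤ a := by
  have hl1 : Real.log 2 < 1 := by linarith [Real.log_two_lt_d9]
  nlinarith

lemma aux_kappa {c m κ : ℝ} (hc : 0 < c) (hm : 0 ≤ m) (h : 2 * (c + 2 * m) ≤ κ) :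
    c + 2 * m < 5 / 4 * (κ * log 2) := by
  have h1 : (69 / 100 : ℝ) < log 2 := by linarith [Real.log_two_gt_d9]
  have h2 : κ * (69 / 100) ≤ κ * log 2 := mul_le_mul_of_nonneg_left h1.le (by linarith)
  linarith

lemma aux_self_le {a N : ℝ} (ha : 0 ≤ a) (hN : 1 ≤ N) : a ≤ N * a := by nlinarith

/-- **The auxiliary polynomial vanishes.**  Points of bounded height, almost all of whose conjugates
are near one of `k` affine subspaces of small dimension, are zeros of one of finitely many nonzero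
polynomials. -/
theorem propP (ι : Type) [Fintype ι] [DecidableEq ι] (k : ℕ) (B : ℝ) :
    ∃ (N X : ℕ) (δ : ℝ), 0 < δ ∧ ∀ (K : Type) [Field K] [NumberField K] (u : ι → K),
      (∀ j, u j ≠ 0) → (∀ j, 1 - u j ≠ 0) → (∀ j, logHeight₁ (u j) ≤ finrank ℚ K * B) →
      ∀ (V : Fin k → Submodule ℝ (ι × Bool → ℝ)) (p : Fin k → ι × Bool → ℝ),
        (∀ i, finrank ℝ (V i) < Fintype.card ι) →
        ∀ Ex : Finset (K →+* ℂ), 8 * Ex.card ≤ finrank ℚ K →
          (∀ σ, σ ∉ Ex → ∃ i, ∃ v ∈ V i, ∀ r, |lc u σ r - (p i r + v r)| ≤ δ) →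
          ∃ c : (ι → Fin N) → ℤ, c ≠ 0 ∧ (∀ m, |(c m : ℝ)| ≤ X) ∧ val c u = 0 := by
  classical
  rcases Nat.eq_zero_or_pos k with hk0 | hk
  · subst hk0
    refine ⟨0, 0, 1, one_pos, ?_⟩
    intro K _ _ u hu0 hu1 hB V p hV Ex hEx hnear
    exfalso
    have h1 : Ex = Finset.univ := by
      ext σ
      simp only [Finset.mem_univ, iff_true]
      by_contra hσ
      obtain ⟨i, -⟩ := hnear σ hσ
      exact i.elim0
    have h2 : (0 : ℕ) < finrank ℚ K := finrank_pos
    rw [h1, Finset.card_univ, NumberField.Embeddings.card] at hEx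
    omega
  rcases Nat.eq_zero_or_pos (Fintype.card ι) with hM0 | hMpos
  · refine ⟨0, 0, 1, one_pos, ?_⟩
    intro K _ _ u hu0 hu1 hB V p hV Ex hEx hnear
    have := hV ⟨0, hk⟩
    omega
  obtain ⟨d, hd⟩ : ∃ d, Fintype.card ι = d + 1 := ⟨Fintype.card ι - 1, by omega⟩
  set M := Fintype.card ι with hM
  -- the constants
  set B' : ℝ := max B 0 with hB'
  have hB'0 : 0 ≤ B' := le_max_right _ _
  have hBB' : B ≤ B' := le_max_left _ _
  set H : ℝ := M * (4 * B' + 2) with hH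
  have hMr : (1 : ℝ) ≤ M := by exact_mod_cast hMpos
  have hH0 : 0 < H := by positivity
  set R0 : ℝ := 8 * H with hR0
  have hR00 : 0 < R0 := by positivity
  set n : ℝ := (Fintype.card (ι × Bool) : ℝ) with hn
  have hn2 : n = 2 * M := by
    rw [hn, Fintype.card_prod, Fintype.card_bool]
    push_cast
    ring
  set R : ℝ := n * (2 * R0 + 2) with hR
  have hRpos : 0 < R := by rw [hR, hn2]; positivity
  have hR0R : R0 ≤ R := by rw [hR, hn2]; nlinarith
  clear_value R
  set c0 : ℕ := ⌈8 * (M : ℝ) ^ 3 * R⌉₊ with hc0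
  clear_value c0
  set c1 : ℕ := 2 * M + c0 + 1 with hc1
  clear_value c1
  set c3 : ℝ := 5 * M + 2 + R0 + c1 with hc3
  have hc3pos : 0 < c3 := by positivity
  clear_value c3
  set κ : ℕ := ⌈2 * (c3 + 2 * (M * B'))⌉₊ + c1 + M with hκ
  have hκ1 : 2 * (c3 + 2 * (M * B')) ≤ κ := by
    have := Nat.le_ceil (2 * (c3 + 2 * (M * B')))
    rw [hκ]
    push_cast
    have h1 : (0 : ℝ) ≤ c1 := by positivity
    linarith
  have hκ2 : c1 + M ≤ 3 * κ := by omega
  clear_value κ
  set ρ : ℕ := ⌈12 * (M : ℝ) ^ 2 * R⌉₊ + 3 * κ + 1 with hρ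
  have hρpos : 0 < ρ := by rw [hρ]; positivity
  clear_value ρ
  set N : ℕ := 8 * k * 2 ^ M * ρ ^ d with hN
  have hNpos : 0 < N := by rw [hN]; positivity
  clear_value N
  have hNr : (1 : ℝ) ≤ N := by exact_mod_cast hNpos
  set L : ℝ := M * (2 * N) with hL
  have hLpos : 0 < L := by positivity
  set δ' : ℝ := 1 / (4 * (n * L) * 2 ^ (3 * κ * N)) with hδ'
  have hnpos : 0 < n := by rw [hn2]; positivity
  have hδ'pos : 0 < δ' := by positivity
  have hnL1 : 1 ≤ n * L := by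
    rw [hn2, hL]
    have : (1 : ℝ) ≤ M * (2 * N) := by nlinarith
    nlinarith
  have hδ'1 : n * L * δ' = 1 / (4 * 2 ^ (3 * κ * N)) := by
    rw [hδ']
    field_simp
  have hp1 : (1 : ℝ) ≤ 2 ^ (3 * κ * N) := one_le_pow₀ (by norm_num)
  have hδ'2 : n * L * δ' ≤ 1 := by
    rw [hδ'1, div_le_one (by positivity)]
    linarith
  have hδ'3 : δ' ≤ 1 := by nlinarith
  clear_value δ' L n R0 H B'
  refine ⟨N, 2 ^ (κ * N), δ' / 2, by positivity, ?_⟩
  intro K _ _ u hu0 hu1 hB V p hV Ex hEx hnear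
  have hDpos : (0 : ℝ) < finrank ℚ K := by exact_mod_cast finrank_pos
  have hBB : ∀ j, logHeight₁ (u j) ≤ finrank ℚ K * B' := fun j =>
    (hB j).trans (mul_le_mul_of_nonneg_left hBB' hDpos.le)
  -- the conjugates with small logarithms
  have hsum := sum_lc_le hu0 hu1 hBB
  rw [← hM, ← hH] at hsum
  set Gd : Finset (K →+* ℂ) := Finset.univ.filter fun σ => σ ∉ Ex ∧ ∑ r, |lc u σ r| ≤ R0 with hGd
  set Bd : Finset (K →+* ℂ) := Finset.univ.filter fun σ => ¬ (σ ∉ Ex ∧ ∑ r, |lc u σ r| ≤ R0)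
    with hBd
  have hcard : (Bd.card : ℝ) ≤ finrank ℚ K / 4 := by
    set B1 : Finset (K →+* ℂ) := Finset.univ.filter fun σ => R0 < ∑ r, |lc u σ r| with hB1
    have h1 : Bd ⊆ Ex ∪ B1 := by
      intro σ hσ
      rw [hBd, Finset.mem_filter] at hσ
      rw [Finset.mem_union, hB1, Finset.mem_filter]
      by_cases h : σ ∈ Ex
      · exact Or.inl h
      · refine Or.inr ⟨Finset.mem_univ _, ?_⟩
        by_contra h'
        exact hσ.2 ⟨h, not_lt.1 h'⟩
    have h2 : (Bd.card : ℝ) ≤ Ex.card + B1.card := by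
      exact_mod_cast (Finset.card_le_card h1).trans (Finset.card_union_le _ _)
    have h3 : (B1.card : ℝ) * R0 ≤ finrank ℚ K * H := by
      calc (B1.card : ℝ) * R0 = ∑ _σ ∈ B1, R0 := by rw [Finset.sum_const, nsmul_eq_mul]
        _ ≤ ∑ σ ∈ B1, ∑ r, |lc u σ r| := by
            apply Finset.sum_le_sum
            intro σ hσ
            exact (Finset.mem_filter.1 hσ).2.le
        _ ≤ ∑ σ, ∑ r, |lc u σ r| := Finset.sum_le_sum_of_subset_of_nonneg (Finset.subset_univ _)
            fun σ _ _ => Finset.sum_nonneg fun _ _ => abs_nonneg _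
        _ ≤ _ := hsum
    have h4 : (B1.card : ℝ) ≤ finrank ℚ K / 8 := by
      rw [hR0] at h3
      have : (B1.card : ℝ) * 8 * H ≤ finrank ℚ K * H := by linarith
      have := le_of_mul_le_mul_right this hH0
      linarith
    have h5 : (8 : ℝ) * Ex.card ≤ finrank ℚ K := by exact_mod_cast hEx
    linarith
  have hcard2 : (Gd.card : ℝ) + Bd.card = finrank ℚ K := by
    have h1 : Gd.card + Bd.card = finrank ℚ K := by
      rw [hGd, hBd, Finset.card_filter_add_card_filter_not, Finset.card_univ,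
        NumberField.Embeddings.card]
    exact_mod_cast h1
  -- bases of the subspaces
  have hbas : ∀ i : Fin k, ∃ e : Fin d → ι × Bool → ℝ, (∀ j r, |e j r| ≤ 1) ∧
      ∀ w ∈ V i, ∀ S : ℝ, (∀ r, |w r| ≤ S) →
      ∃ t : Fin d → ℝ, (∀ j, |t j| ≤ Fintype.card (ι × Bool) * S) ∧
        ∀ r, w r = ∑ j, t j * e j r := fun i => basis (V i) (by
          have := hV i
          omega)
  choose e he1 he2 using hbas
  -- base points
  have hbase : ∀ i : Fin k, ∃ q v0 : ι × Bool → ℝ, v0 ∈ V i ∧ (∀ r, |q r| ≤ R0) ∧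
      ((∃ σ ∈ Gd, ∃ v ∈ V i, ∀ r, |lc u σ r - (p i r + v r)| ≤ δ' / 2) →
        ∀ r, |q r - (p i r + v0 r)| ≤ δ' / 2) := by
    intro i
    by_cases h : ∃ σ ∈ Gd, ∃ v ∈ V i, ∀ r, |lc u σ r - (p i r + v r)| ≤ δ' / 2
    · obtain ⟨σ, hσ, v, hv, hvr⟩ := h
      refine ⟨lc u σ, v, hv, fun r => ?_, fun _ => hvr⟩
      have h1 := (Finset.mem_filter.1 hσ).2.2
      exact (Finset.single_le_sum (f := fun r => |lc u σ r|) (fun _ _ => abs_nonneg _)
        (Finset.mem_univ r)).trans h1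
    · exact ⟨0, 0, (V i).zero_mem, fun r => by simpa using hR00.le, fun h' => absurd h' h⟩
  choose q v0 hv0 hq1 hq2 using hbase
  have hlin : (d + 1 : ℝ) * (n * L * R) = 4 * M ^ 3 * R * N := by
    have : (d + 1 : ℝ) = M := by exact_mod_cast hd.symm
    rw [this, hn2, hL]
    ring
  have hAexp : (4 : ℝ) ^ (M * N) * Real.exp ((d + 1) * (n * L * R)) ≤ 2 ^ ((2 * M + c0) * N) := by
    have h1 : Real.exp ((d + 1) * (n * L * R)) ≤ 2 ^ (c0 * N) := by
      rw [hlin]
      apply exp_le_two_pow (by positivity)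
      have h7 := Nat.le_ceil (8 * (M : ℝ) ^ 3 * R)
      rw [← hc0] at h7
      have h8 := aux_mul_le h7 (N := (N : ℝ)) (by positivity)
      push_cast
      linarith
    have h2 : (4 : ℝ) ^ (M * N) = 2 ^ (2 * M * N) := by
      rw [show (4 : ℝ) = 2 ^ 2 by norm_num, ← pow_mul, mul_assoc]
    have h3 : (2 : ℝ) ^ ((2 * M + c0) * N) = 2 ^ (2 * M * N) * 2 ^ (c0 * N) := by
      rw [← pow_add, add_mul]
    rw [h2, h3]
    gcongr
  have hAexp1 : (4 : ℝ) ^ (M * N) * Real.exp ((d + 1) * (n * L * R)) + 1 ≤ 2 ^ (c1 * N) := by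
    have h1 : (1 : ℝ) ≤ 2 ^ ((2 * M + c0) * N) := one_le_pow₀ (by norm_num)
    have h2 : (2 : ℝ) ^ (c1 * N) = 2 ^ ((2 * M + c0) * N) * 2 ^ N := by
      rw [hc1, ← pow_add]
      congr 1
      ring
    have h3 : (2 : ℝ) ≤ 2 ^ N := by
      calc (2 : ℝ) = 2 ^ 1 := (pow_one _).symm
        _ ≤ 2 ^ N := pow_le_pow_right₀ (by norm_num) hNpos
    rw [h2]
    nlinarith
  obtain ⟨c, hcne, hcX, hcv⟩ := exists_aux' hk hM hd hRpos c1 κ ρ N (ρ * N) hn hL hN hρpos rfl hAexp1
    hκ2 hδ'2 e he1 q (fun i r => (hq1 i r).trans hR0R)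
  refine ⟨c, hcne, hcX, ?_⟩
  by_contra hval
  have hX0 : (0 : ℝ) < ((2 ^ (κ * N) : ℕ) : ℝ) := by positivity
  have hl0 : 0 < log 2 := Real.log_pos (by norm_num)
  have hl1 : Real.log 2 < 1 := by linarith [Real.log_two_lt_d9]
  have hlog : log ((2 ^ (κ * N) : ℕ) : ℝ) ≤ N * (κ * log 2) := by
    push_cast
    rw [Real.log_pow]
    push_cast
    linarith
  have hvne : ∀ σ : K →+* ℂ, val c (fun j => σ (u j)) ≠ 0 := by
    intro σ h
    rw [← map_val] at h
    exact hval ((map_eq_zero σ).1 h)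
  set P : (K →+* ℂ) → ℝ := fun σ => N * ∑ j, log⁺ ‖σ (u j)‖ with hP
  have hP0 : ∀ σ, 0 ≤ P σ := fun σ => by
    apply mul_nonneg (by positivity)
    exact Finset.sum_nonneg fun j _ => posLog_nonneg
  -- bad embeddings
  have hbad : ∀ σ : K →+* ℂ, log ‖val c (fun j => σ (u j))‖ ≤ N * (M + κ * log 2) + P σ := by
    intro σ
    have h1 := log_val_bad c hcX hX0 hNpos (fun j => σ (u j)) (hvne σ)
    rw [← hM] at h1
    have h2 : P σ = N * ∑ j, log⁺ ‖σ (u j)‖ := rfl
    rw [h2]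
    linarith
  -- good embeddings
  have hgood : ∀ σ ∈ Gd, log ‖val c (fun j => σ (u j))‖ ≤ N * (c3 - 2 * κ * log 2) := by
    intro σ hσ
    have hσ' := hσ
    rw [hGd, Finset.mem_filter] at hσ'
    obtain ⟨-, hσEx, hσR⟩ := hσ'
    obtain ⟨i, v, hv, hvr⟩ := hnear σ hσEx
    have hq := hq2 i ⟨σ, hσ, v, hv, hvr⟩
    have hxr : ∀ r, |lc u σ r| ≤ R0 := fun r =>
      (Finset.single_le_sum (f := fun r => |lc u σ r|) (fun _ _ => abs_nonneg _)
        (Finset.mem_univ r)).trans hσR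
    have hw : ∀ r, |(v - v0 i) r| ≤ 2 * R0 + 2 := by
      intro r
      have e1 : (v - v0 i) r = (lc u σ r - q i r) - (lc u σ r - (p i r + v r)) +
          (q i r - (p i r + v0 i r)) := by
        rw [Pi.sub_apply]
        ring
      rw [e1]
      have a1 := abs_le.1 (hxr r)
      have a2 := abs_le.1 (hq1 i r)
      have a3 := abs_le.1 (hvr r)
      have a4 := abs_le.1 (hq r)
      rw [abs_le]
      constructor <;> linarith
    obtain ⟨t, ht1, ht2⟩ := he2 i (v - v0 i) ((V i).sub_mem hv (hv0 i)) _ hw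
    rw [← hn, ← hR] at ht1
    have hx : ∀ r, |lc u σ r - (q i r + ∑ j, t j * e i j r)| ≤ δ' := by
      intro r
      rw [← ht2 r, Pi.sub_apply]
      have a3 := abs_le.1 (hvr r)
      have a4 := abs_le.1 (hq r)
      rw [abs_le]
      constructor <;> linarith
    have hz0 : ∀ j, ‖σ (u j)‖ = Real.exp (lc u σ (j, false)) := fun j => by
      rw [lc_false, Real.exp_log (norm_pos_iff.2 ((map_ne_zero σ).2 (hu0 j)))]
    have hz1 : ∀ j, ‖1 - σ (u j)‖ = Real.exp (lc u σ (j, true)) := fun j => by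
      have : 1 - σ (u j) ≠ 0 := by
        rw [← map_one σ, ← map_sub]
        exact (map_ne_zero σ).2 (hu1 j)
      rw [lc_true, Real.exp_log (norm_pos_iff.2 this)]
    have hE : ∀ s : Finset ι, ∏ j ∈ s, ‖σ (u j)‖ ≤ Real.exp R0 := by
      intro s
      rw [Finset.prod_congr rfl fun j _ => hz0 j, ← Real.exp_sum]
      apply Real.exp_le_exp.2
      refine le_trans ?_ hσR
      rw [sum_prod_bool]
      calc ∑ j ∈ s, lc u σ (j, false) ≤ ∑ j ∈ s, (|lc u σ (j, false)| + |lc u σ (j, true)|) :=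
            Finset.sum_le_sum fun j _ => by
              have := le_abs_self (lc u σ (j, false))
              have := abs_nonneg (lc u σ (j, true))
              linarith
        _ ≤ _ := Finset.sum_le_sum_of_subset_of_nonneg (Finset.subset_univ _) fun j _ _ => by
              positivity
    have h1 := hcv i (fun j => σ (u j)) (lc u σ) t (Real.exp R0) hz0 hz1 ht1 hx hE
    have hcI2 : (Fintype.card (ι → Fin N) : ℝ) ≤ 2 ^ (M * N) := by
      rw [Fintype.card_fun, Fintype.card_fin]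
      have : N ≤ 2 ^ N := Nat.lt_two_pow_self.le
      calc ((N ^ M : ℕ) : ℝ) ≤ (((2 ^ N) ^ M : ℕ) : ℝ) := by
            exact_mod_cast Nat.pow_le_pow_left this M
        _ = _ := by rw [← pow_mul, mul_comm]; push_cast; rfl
    have hTd : (((ρ * N : ℕ) : ℝ)) ^ d ≤ Fintype.card (ι → Fin N) := by
      rw [Fintype.card_fun, Fintype.card_fin]
      have h2 : (ρ * N) ^ d ≤ N ^ M := by
        rw [hd, pow_succ, mul_pow, mul_comm]
        apply Nat.mul_le_mul_left
        conv_rhs => rw [hN]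
        exact Nat.le_mul_of_pos_left _ (by positivity)
      exact_mod_cast h2
    have h2 := good_num (A := (4 : ℝ) ^ (M * N)) (Aexp := Real.exp ((d + 1) * (n * L * R)))
      (Lδ := n * L * δ') (tail := Real.exp (3 * (n * L * R) - ((ρ * N : ℕ) : ℝ))) (R0 := R0)
      (c1 := c1) (κ := κ) hd hNpos hcI2 (by positivity) hTd hκ2 (by positivity)
      (by positivity) (by linarith) (by positivity) (by
        rw [hδ'1]
        have : (1 : ℝ) / (4 * 2 ^ (3 * κ * N)) = (1 / 2 ^ (3 * κ * N)) / 4 := by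
          field_simp
        rw [this]
        have : (0 : ℝ) ≤ 1 / 2 ^ (3 * κ * N) := by positivity
        linarith) (by positivity) (by
        have e : (1 : ℝ) / 2 ^ (3 * κ * N) = Real.exp (-((3 * κ * N : ℕ) * log 2)) := by
          rw [Real.exp_neg, Real.exp_nat_mul, Real.exp_log (by norm_num), one_div]
        rw [e]
        apply Real.exp_le_exp.2
        have h3 : (12 * (M : ℝ) ^ 2 * R + 3 * κ) ≤ ρ := by
          have := Nat.le_ceil (12 * (M : ℝ) ^ 2 * R)
          rw [hρ]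
          push_cast
          linarith
        have h4 : 3 * (n * L * R) = 12 * M ^ 2 * R * N := by
          rw [hn2, hL]
          ring
        rw [h4]
        push_cast
        have h5 : (3 * (κ : ℝ) * N) * log 2 ≤ 3 * κ * N := aux_log_le (by positivity)
        have h6 := aux_mul_le h3 (N := (N : ℝ)) (by positivity)
        linarith) (E := Real.exp R0) rfl
    have h3 : ‖val c (fun j => σ (u j))‖ ≤
        Real.exp (N * (5 * M + 2 + c1 - 2 * κ * log 2) + R0) := h1.trans h2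
    have h4 := (Real.log_le_iff_le_exp (norm_pos_iff.2 (hvne σ))).2 h3
    refine h4.trans ?_
    rw [hc3]
    have h5 := aux_self_le hR00.le hNr
    linarith
  -- the sum over all embeddings
  have hS1 : ∑ σ : K →+* ℂ, log ‖val c (fun j => σ (u j))‖ ≤
      Gd.card * (N * (c3 - 2 * κ * log 2)) + Bd.card * (N * (M + κ * log 2)) + ∑ σ, P σ := by
    have h1 : ∑ σ : K →+* ℂ, log ‖val c (fun j => σ (u j))‖ =
        ∑ σ ∈ Gd, log ‖val c (fun j => σ (u j))‖ + ∑ σ ∈ Bd, log ‖val c (fun j => σ (u j))‖ := by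
      rw [hGd, hBd, Finset.sum_filter_add_sum_filter_not]
    have h2 : ∑ σ, P σ = ∑ σ ∈ Gd, P σ + ∑ σ ∈ Bd, P σ := by
      rw [hGd, hBd, Finset.sum_filter_add_sum_filter_not]
    have h3 : ∑ σ ∈ Gd, log ‖val c (fun j => σ (u j))‖ ≤
        ∑ _σ ∈ Gd, (N * (c3 - 2 * κ * log 2)) := Finset.sum_le_sum hgood
    have h4 : ∑ σ ∈ Bd, log ‖val c (fun j => σ (u j))‖ ≤
        ∑ σ ∈ Bd, (N * (M + κ * log 2) + P σ) := Finset.sum_le_sum fun σ _ => hbad σ
    rw [Finset.sum_add_distrib] at h4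
    rw [Finset.sum_const, nsmul_eq_mul] at h3 h4
    have h5 : 0 ≤ ∑ σ ∈ Gd, P σ := Finset.sum_nonneg fun σ _ => hP0 σ
    linarith
  have hS2 : -(N * ∑ j, Fp (u j)) ≤ ∑ σ : K →+* ℂ, log ‖val c (fun j => σ (u j))‖ :=
    liouville c u hval
  have hS3 : ∑ σ, P σ + N * ∑ j, Fp (u j) ≤ N * (M * (finrank ℚ K * B')) := by
    have h1 : ∑ σ, P σ + N * ∑ j, Fp (u j) = N * ∑ j, logHeight₁ (u j) := by
      rw [hP, ← Finset.mul_sum, ← mul_add, Finset.sum_comm, ← Finset.sum_add_distrib]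
      congr 1
      exact Finset.sum_congr rfl fun j _ => (logHeight₁_emb (u j)).symm
    rw [h1]
    apply mul_le_mul_of_nonneg_left _ (by positivity)
    calc _ ≤ ∑ _j : ι, finrank ℚ K * B' := Finset.sum_le_sum fun j _ => hBB j
      _ = _ := by rw [Finset.sum_const, nsmul_eq_mul, Finset.card_univ]
  set D : ℝ := (finrank ℚ K : ℝ) with hD
  have hlκ : c3 + 2 * (M * B') < 5 / 4 * (κ * log 2) :=
    aux_kappa hc3pos (by positivity) hκ1
  have hfin : (Gd.card : ℝ) * (c3 - 2 * κ * log 2) + Bd.card * (M + κ * log 2) ≤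
      D * (c3 - 5 / 4 * (κ * log 2)) := by
    have hG : (Gd.card : ℝ) = D - Bd.card := by linarith
    have hMc : (M : ℝ) ≤ c3 := by
      rw [hc3]
      have : (0 : ℝ) ≤ c1 := by positivity
      linarith
    have hb0 : (0 : ℝ) ≤ Bd.card := by positivity
    have hkl : 0 ≤ (κ : ℝ) * log 2 := by positivity
    rw [hG]
    have e1 : (D - Bd.card) * (c3 - 2 * κ * log 2) + Bd.card * (M + κ * log 2) =
        D * c3 - 2 * D * (κ * log 2) + Bd.card * (M - c3) + 3 * Bd.card * (κ * log 2) := by ring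
    rw [e1]
    have e2 : (Bd.card : ℝ) * (M - c3) ≤ 0 := by
      apply mul_nonpos_of_nonneg_of_nonpos hb0
      linarith
    have e3 : 3 * (Bd.card : ℝ) * (κ * log 2) ≤ 3 * (D / 4) * (κ * log 2) := by gcongr
    linarith
  have hNpos' : (0 : ℝ) < N := by positivity
  have h1 : 0 ≤ N * (D * (c3 - 5 / 4 * (κ * log 2))) + N * (M * (D * B')) := by
    have h2 : (Gd.card : ℝ) * (N * (c3 - 2 * κ * log 2)) + Bd.card * (N * (M + κ * log 2)) =
        N * (Gd.card * (c3 - 2 * κ * log 2) + Bd.card * (M + κ * log 2)) := by ring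
    have h3 : (N : ℝ) * (Gd.card * (c3 - 2 * κ * log 2) + Bd.card * (M + κ * log 2)) ≤
        N * (D * (c3 - 5 / 4 * (κ * log 2))) := mul_le_mul_of_nonneg_left hfin hNpos'.le
    linarith
  have h2 : N * (D * (c3 - 5 / 4 * (κ * log 2))) + N * (M * (D * B')) =
      N * D * (c3 + M * B' - 5 / 4 * (κ * log 2)) := by ring
  rw [h2] at h1
  have h3 : c3 + M * B' - 5 / 4 * (κ * log 2) < 0 := by
    have : (0 : ℝ) ≤ M * B' := by positivity
    linarith
  have h4 : N * D * (c3 + M * B' - 5 / 4 * (κ * log 2)) < 0 :=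
    mul_neg_of_pos_of_neg (by positivity) h3
  linarith

end Pool.Agent.H883.ZP
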