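import Mathlib

set_option autoImplicit false

/-!
# Real exponential sums near an affine subspace are small combinations of monomials
-/

namespace Pool.Agent.H883.ZP

open Finset

/-- exponential sums in the variables `x r`, `r : ρ`, with frequencies at most `L` and with
coefficients of total size at most `W` -/
def EP {ρ : Type} [Fintype ρ] (L W : ℝ) (φ : (ρ → ℝ) → ℝ) : Prop :=
  ∃ (κ : Type) (_ : Fintype κ) (w : κ → ℝ) (lam : κ → ρ → ℝ),
    (∀ a r, |lam a r| ≤ L) ∧ ∑ a, |w a| ≤ W ∧
      ∀ x, φ x = ∑ a, w a * Real.exp (∑ r, lam a r * x r)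

section

variable {ρ : Type} [Fintype ρ]

lemma EP.mono {L W L' W' : ℝ} {φ : (ρ → ℝ) → ℝ} (h : EP L W φ) (hL : L ≤ L') (hW : W ≤ W') :
    EP L' W' φ := by
  obtain ⟨κ, hκ, w, lam, h1, h2, h3⟩ := h
  exact ⟨κ, hκ, w, lam, fun a r => (h1 a r).trans hL, h2.trans hW, h3⟩

lemma EP.zero {L W : ℝ} (hW : 0 ≤ W) : EP (ρ := ρ) L W (fun _ => 0) :=
  ⟨Empty, inferInstance, fun a => a.elim, fun a => a.elim, fun a => a.elim, by simpa using hW,
    fun x => by simp⟩

lemma EP.one {L : ℝ} (hL : 0 ≤ L) : EP (ρ := ρ) L 1 (fun _ => 1) :=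
  ⟨Unit, inferInstance, fun _ => 1, fun _ _ => 0, fun _ _ => by simpa using hL, by simp,
    fun x => by simp⟩

lemma EP.coord [DecidableEq ρ] (r : ρ) : EP 2 1 (fun x : ρ → ℝ => Real.exp (2 * x r)) := by
  refine ⟨Unit, inferInstance, fun _ => 1, fun _ s => if s = r then 2 else 0, fun _ s => ?_,
    by simp, fun x => ?_⟩
  · dsimp only
    split_ifs <;> norm_num
  · simp

lemma EP.neg {L W : ℝ} {φ : (ρ → ℝ) → ℝ} (h : EP L W φ) : EP L W (fun x => -φ x) := by
  obtain ⟨κ, hκ, w, lam, h1, h2, h3⟩ := h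
  refine ⟨κ, hκ, fun a => -w a, lam, h1, by simpa using h2, fun x => ?_⟩
  dsimp only
  rw [h3, ← Finset.sum_neg_distrib]
  exact Finset.sum_congr rfl fun a _ => by ring

lemma EP.add {L W W' : ℝ} {φ ψ : (ρ → ℝ) → ℝ} (h : EP L W φ) (h' : EP L W' ψ) :
    EP L (W + W') (fun x => φ x + ψ x) := by
  obtain ⟨κ, hκ, w, lam, h1, h2, h3⟩ := h
  obtain ⟨κ', hκ', w', lam', h1', h2', h3'⟩ := h'
  refine ⟨κ ⊕ κ', inferInstance, Sum.elim w w', Sum.elim lam lam', ?_, ?_, fun x => ?_⟩
  · rintro (a | a) r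
    · exact h1 a r
    · exact h1' a r
  · rw [Fintype.sum_sum_type]
    exact add_le_add h2 h2'
  · dsimp only
    rw [Fintype.sum_sum_type, h3, h3']
    rfl

lemma EP.mul {L L' W W' : ℝ} {φ ψ : (ρ → ℝ) → ℝ} (h : EP L W φ) (h' : EP L' W' ψ) (hW : 0 ≤ W) :
    EP (L + L') (W * W') (fun x => φ x * ψ x) := by
  obtain ⟨κ, hκ, w, lam, h1, h2, h3⟩ := h
  obtain ⟨κ', hκ', w', lam', h1', h2', h3'⟩ := h'
  refine ⟨κ × κ', inferInstance, fun a => w a.1 * w' a.2, fun a r => lam a.1 r + lam' a.2 r,
    fun a r => (abs_add_le _ _).trans (add_le_add (h1 _ _) (h1' _ _)), ?_, fun x => ?_⟩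
  · calc ∑ a : κ × κ', |w a.1 * w' a.2| = (∑ a, |w a|) * ∑ a, |w' a| := by
          rw [Finset.sum_mul_sum, ← Finset.univ_product_univ, Finset.sum_product]
          exact Finset.sum_congr rfl fun a _ => Finset.sum_congr rfl fun b _ => abs_mul _ _
      _ ≤ W * W' := mul_le_mul h2 h2' (Finset.sum_nonneg fun _ _ => abs_nonneg _) hW
  · dsimp only
    rw [h3, h3', Finset.sum_mul_sum, ← Finset.univ_product_univ, Finset.sum_product]
    refine Finset.sum_congr rfl fun a _ => Finset.sum_congr rfl fun b _ => ?_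
    have : ∑ r, (lam a r + lam' b r) * x r = ∑ r, lam a r * x r + ∑ r, lam' b r * x r := by
      rw [← Finset.sum_add_distrib]
      exact Finset.sum_congr rfl fun r _ => by ring
    rw [this, Real.exp_add]
    ring

lemma EP.prod {ι : Type} [DecidableEq ι] (s : Finset ι) {L W : ι → ℝ} (hW : ∀ i, 0 ≤ W i)
    {φ : ι → (ρ → ℝ) → ℝ} (h : ∀ i ∈ s, EP (L i) (W i) (φ i)) :
    EP (∑ i ∈ s, L i) (∏ i ∈ s, W i) (fun x => ∏ i ∈ s, φ i x) := by
  induction s using Finset.induction_on with
  | empty => simpa using EP.one (ρ := ρ) le_rfl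
  | insert i s hi ih =>
    simp only [Finset.sum_insert hi, Finset.prod_insert hi]
    exact (h i (Finset.mem_insert_self i s)).mul
      (ih fun j hj => h j (Finset.mem_insert_of_mem hj)) (hW i)

end

/-! ### Truncated exponential series -/

/-- the truncated exponential series -/
noncomputable def ET (T : ℕ) (s : ℝ) : ℝ := ∑ m ∈ range T, s ^ m / m.factorial

lemma tail_bound (T : ℕ) {s S : ℝ} (hs : |s| ≤ S) :
    |Real.exp s - ET T s| ≤ Real.exp (3 * S - T) := by
  have hS : 0 ≤ S := (abs_nonneg s).trans hs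
  have hsum : ∀ x : ℝ, HasSum (fun m : ℕ => x ^ m / m.factorial) (Real.exp x) := by
    intro x
    have h := NormedSpace.expSeries_div_hasSum_exp (𝔸 := ℝ) x
    rwa [← Real.exp_eq_exp_ℝ] at h
  have h1 : HasSum (fun m : ℕ => s ^ (m + T) / (m + T).factorial) (Real.exp s - ET T s) :=
    (hasSum_nat_add_iff' T).mpr (hsum s)
  have h2 : HasSum (fun m : ℕ => (Real.exp 1 * S) ^ (m + T) / (m + T).factorial)
      (Real.exp (Real.exp 1 * S) - ET T (Real.exp 1 * S)) :=
    (hasSum_nat_add_iff' T).mpr (hsum _)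
  have h3 : HasSum (fun m : ℕ => Real.exp (-T) * ((Real.exp 1 * S) ^ (m + T) / (m + T).factorial))
      (Real.exp (-T) * (Real.exp (Real.exp 1 * S) - ET T (Real.exp 1 * S))) := h2.mul_left _
  have hle : ∀ m : ℕ, ‖s ^ (m + T) / (m + T).factorial‖ ≤
      Real.exp (-T) * ((Real.exp 1 * S) ^ (m + T) / (m + T).factorial) := by
    intro m
    rw [Real.norm_eq_abs, abs_div, abs_pow, Nat.abs_cast, mul_pow, mul_div_assoc, ← mul_assoc,
      ← Real.exp_nat_mul, ← Real.exp_add]
    have e1 : (1 : ℝ) ≤ Real.exp (-(T : ℝ) + ((m + T : ℕ) : ℝ) * 1) := by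
      apply Real.one_le_exp
      push_cast
      have : (0 : ℝ) ≤ m := by positivity
      linarith
    have e2 : |s| ^ (m + T) / (m + T).factorial ≤ S ^ (m + T) / (m + T).factorial :=
      div_le_div_of_nonneg_right (pow_le_pow_left₀ (abs_nonneg _) hs _) (by positivity)
    have e3 : 0 ≤ S ^ (m + T) / (m + T).factorial := by positivity
    calc _ ≤ S ^ (m + T) / (m + T).factorial := e2
      _ = 1 * (S ^ (m + T) / (m + T).factorial) := (one_mul _).symm
      _ ≤ _ := mul_le_mul_of_nonneg_right e1 e3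
  have h4 : ‖Real.exp s - ET T s‖ ≤
      Real.exp (-T) * (Real.exp (Real.exp 1 * S) - ET T (Real.exp 1 * S)) :=
    h1.norm_le_of_bounded h3 hle
  have h5 : 0 ≤ ET T (Real.exp 1 * S) := by
    unfold ET
    exact Finset.sum_nonneg fun m _ => by positivity
  rw [Real.norm_eq_abs] at h4
  refine h4.trans ?_
  have h6 : Real.exp (Real.exp 1 * S) ≤ Real.exp (3 * S) := by
    apply Real.exp_le_exp.2
    have := Real.exp_one_lt_three
    nlinarith
  calc _ ≤ Real.exp (-T) * Real.exp (3 * S) :=
        mul_le_mul_of_nonneg_left (by linarith) (Real.exp_pos _).le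
    _ = _ := by rw [← Real.exp_add]; congr 1; ring

lemma ET_abs_le (T : ℕ) {s S : ℝ} (hs : |s| ≤ S) : |ET T s| ≤ Real.exp S := by
  have hS : 0 ≤ S := (abs_nonneg s).trans hs
  have h1 : |ET T s| ≤ ET T S := by
    unfold ET
    refine (Finset.abs_sum_le_sum_abs _ _).trans (Finset.sum_le_sum fun m _ => ?_)
    rw [abs_div, abs_pow, Nat.abs_cast]
    exact div_le_div_of_nonneg_right (pow_le_pow_left₀ (abs_nonneg _) hs _) (by positivity)
  exact h1.trans (Real.sum_le_exp_of_nonneg hS T)

/-- differences of products -/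
lemma prod_diff {d : ℕ} (f g : Fin d → ℝ) {E η : ℝ} (hE : 1 ≤ E) (hf : ∀ j, |f j| ≤ E)
    (hg : ∀ j, |g j| ≤ E) (h : ∀ j, |f j - g j| ≤ η) :
    |∏ j, f j - ∏ j, g j| ≤ d * E ^ d * η := by
  have hη : ∀ _ : Fin d, 0 ≤ η := fun j => (abs_nonneg _).trans (h j)
  induction d with
  | zero => simp
  | succ d ih =>
    have hη0 : 0 ≤ η := hη 0
    rw [Fin.prod_univ_succ, Fin.prod_univ_succ]
    have h1 := ih (fun j => f j.succ) (fun j => g j.succ) (fun j => hf _) (fun j => hg _)
      (fun j => h _) (fun j => hη0)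
    have h2 : |∏ j : Fin d, g j.succ| ≤ E ^ d := by
      rw [Finset.abs_prod]
      calc ∏ j : Fin d, |g j.succ| ≤ ∏ _j : Fin d, E :=
            Finset.prod_le_prod (fun _ _ => abs_nonneg _) fun j _ => hg _
        _ = E ^ d := by simp
    have e : f 0 * ∏ j : Fin d, f j.succ - g 0 * ∏ j : Fin d, g j.succ =
        f 0 * (∏ j : Fin d, f j.succ - ∏ j : Fin d, g j.succ) +
          (f 0 - g 0) * ∏ j : Fin d, g j.succ := by ring
    rw [e]
    refine (abs_add_le _ _).trans ?_
    rw [abs_mul, abs_mul]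
    have hE0 : 0 ≤ E := by linarith
    have h3 : |f 0| * |∏ j : Fin d, f j.succ - ∏ j : Fin d, g j.succ| ≤ E * (d * E ^ d * η) :=
      mul_le_mul (hf 0) h1 (abs_nonneg _) hE0
    have h4 : |f 0 - g 0| * |∏ j : Fin d, g j.succ| ≤ η * E ^ d :=
      mul_le_mul (h 0) h2 (abs_nonneg _) hη0
    have h5 : η * E ^ d ≤ E ^ (d + 1) * η := by
      rw [pow_succ]
      have : 0 ≤ E ^ d * η := by positivity
      nlinarith
    push_cast
    calc _ ≤ E * (d * E ^ d * η) + η * E ^ d := add_le_add h3 h4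
      _ ≤ E * (d * E ^ d * η) + E ^ (d + 1) * η := by linarith
      _ = _ := by ring

/-- **Approximation near an affine subspace.** -/
theorem approx {ρ : Type} [Fintype ρ] {d : ℕ} (T : ℕ) {L W R δ : ℝ} (hL : 0 ≤ L) (hR : 0 < R)
    (hδ : Fintype.card ρ * L * δ ≤ 1) {φ : (ρ → ℝ) → ℝ} (hφ : EP L W φ)
    (e : Fin d → ρ → ℝ) (he : ∀ j r, |e j r| ≤ 1) (p : ρ → ℝ) (hp : ∀ r, |p r| ≤ R) :
    ∃ a : (Fin d → Fin T) → ℝ,
      (∀ α, |a α| ≤ W * Real.exp ((d + 1) * (Fintype.card ρ * L * R))) ∧
      ∀ (t : Fin d → ℝ) (x : ρ → ℝ), (∀ j, |t j| ≤ R) →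
        (∀ r, |x r - (p r + ∑ j, t j * e j r)| ≤ δ) →
        |φ x - ∑ α, a α * ∏ j, (t j / R) ^ (α j : ℕ)| ≤
          W * (Real.exp ((d + 1) * (Fintype.card ρ * L * R)) *
            (2 * (Fintype.card ρ * L * δ) +
              d * Real.exp (3 * (Fintype.card ρ * L * R) - T))) := by
  classical
  obtain ⟨κ, hκ, w, lam, h1, h2, h3⟩ := hφ
  set n : ℝ := (Fintype.card ρ : ℝ) with hn
  have hn0 : 0 ≤ n := by positivity
  have hS0 : 0 ≤ n * L * R := by positivity
  -- sums over the coordinates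
  have hsum : ∀ (f g : ρ → ℝ) {A B : ℝ}, 0 ≤ A → (∀ r, |f r| ≤ A) → (∀ r, |g r| ≤ B) →
      |∑ r, f r * g r| ≤ n * A * B := by
    intro f g A B hA hf hg
    calc |∑ r, f r * g r| ≤ ∑ r, |f r * g r| := Finset.abs_sum_le_sum_abs _ _
      _ ≤ ∑ _r : ρ, A * B := Finset.sum_le_sum fun r _ => by
          rw [abs_mul]
          exact mul_le_mul (hf r) (hg r) (abs_nonneg _) hA
      _ = n * A * B := by
          rw [Finset.sum_const, nsmul_eq_mul, Finset.card_univ, hn, mul_assoc]
  set mu : κ → Fin d → ℝ := fun a j => ∑ r, lam a r * e j r with hmu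
  have hmub : ∀ a j, |mu a j * R| ≤ n * L * R := by
    intro a j
    rw [abs_mul, abs_of_pos hR]
    apply mul_le_mul_of_nonneg_right _ hR.le
    have := hsum (lam a) (e j) hL (h1 a) (he j)
    rwa [mul_one] at this
  have hmut : ∀ a j (t : Fin d → ℝ), (∀ j, |t j| ≤ R) → |mu a j * t j| ≤ n * L * R := by
    intro a j t ht
    refine le_trans ?_ (hmub a j)
    rw [abs_mul, abs_mul, abs_of_pos hR]
    exact mul_le_mul_of_nonneg_left (ht j) (abs_nonneg _)
  have hlp : ∀ a, |∑ r, lam a r * p r| ≤ n * L * R := fun a => hsum _ _ hL (h1 a) hp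
  refine ⟨fun α => ∑ a, w a * (Real.exp (∑ r, lam a r * p r) *
    ∏ j, ((mu a j * R) ^ (α j : ℕ) / ((α j : ℕ).factorial : ℝ))), ?_, ?_⟩
  · intro α
    have hb : ∀ a, |w a * (Real.exp (∑ r, lam a r * p r) *
        ∏ j, ((mu a j * R) ^ (α j : ℕ) / ((α j : ℕ).factorial : ℝ)))| ≤
        |w a| * Real.exp ((d + 1) * (n * L * R)) := by
      intro a
      rw [abs_mul, abs_mul, Real.abs_exp, Finset.abs_prod]
      apply mul_le_mul_of_nonneg_left _ (abs_nonneg _)
      have e1 : Real.exp (∑ r, lam a r * p r) ≤ Real.exp (n * L * R) :=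
        Real.exp_le_exp.2 ((le_abs_self _).trans (hlp a))
      have e2 : ∏ j, |(mu a j * R) ^ (α j : ℕ) / ((α j : ℕ).factorial : ℝ)| ≤
          ∏ _j : Fin d, Real.exp (n * L * R) := by
        apply Finset.prod_le_prod (fun _ _ => abs_nonneg _)
        intro j _
        rw [abs_div, abs_pow, Nat.abs_cast]
        calc |mu a j * R| ^ (α j : ℕ) / ((α j : ℕ).factorial : ℝ)
            ≤ (n * L * R) ^ (α j : ℕ) / ((α j : ℕ).factorial : ℝ) :=
              div_le_div_of_nonneg_right (pow_le_pow_left₀ (abs_nonneg _) (hmub a j) _)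
                (by positivity)
          _ ≤ Real.exp (n * L * R) := Real.pow_div_factorial_le_exp _ hS0 _
      rw [Finset.prod_const, Finset.card_univ, Fintype.card_fin, ← Real.exp_nat_mul] at e2
      calc _ ≤ Real.exp (n * L * R) * Real.exp (d * (n * L * R)) :=
            mul_le_mul e1 e2 (Finset.prod_nonneg fun _ _ => abs_nonneg _) (Real.exp_pos _).le
        _ = _ := by rw [← Real.exp_add]; congr 1; ring
    calc _ ≤ ∑ a, |w a| * Real.exp ((d + 1) * (n * L * R)) :=
          (Finset.abs_sum_le_sum_abs _ _).trans (Finset.sum_le_sum fun a _ => hb a)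
      _ = (∑ a, |w a|) * Real.exp ((d + 1) * (n * L * R)) := by rw [Finset.sum_mul]
      _ ≤ _ := mul_le_mul_of_nonneg_right h2 (Real.exp_pos _).le
  · intro t x ht hx
    -- the polynomial is the truncated product
    have hpoly : ∑ α : Fin d → Fin T, (∑ a, w a * (Real.exp (∑ r, lam a r * p r) *
        ∏ j, ((mu a j * R) ^ (α j : ℕ) / ((α j : ℕ).factorial : ℝ)))) *
        ∏ j, (t j / R) ^ (α j : ℕ) =
        ∑ a, w a * (Real.exp (∑ r, lam a r * p r) * ∏ j, ET T (mu a j * t j)) := by
      simp_rw [Finset.sum_mul]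
      rw [Finset.sum_comm]
      refine Finset.sum_congr rfl fun a _ => ?_
      have e1 : ∏ j, ET T (mu a j * t j) = ∑ α : Fin d → Fin T,
          ∏ j, ((mu a j * t j) ^ (α j : ℕ) / ((α j : ℕ).factorial : ℝ)) := by
        unfold ET
        simp_rw [← Fin.sum_univ_eq_sum_range (fun m => (mu a _ * t _) ^ m / (m.factorial : ℝ)) T]
        rw [Finset.prod_univ_sum, Fintype.piFinset_univ]
      rw [e1, Finset.mul_sum, Finset.mul_sum]
      refine Finset.sum_congr rfl fun α _ => ?_
      rw [mul_assoc, mul_assoc, ← Finset.prod_mul_distrib]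
      congr 2
      refine Finset.prod_congr rfl fun j _ => ?_
      have hR' : R ≠ 0 := hR.ne'
      rw [div_pow, mul_pow, mul_pow]
      field_simp
    dsimp only
    rw [hpoly, h3, ← Finset.sum_sub_distrib]
    have hterm : ∀ a, |w a * Real.exp (∑ r, lam a r * x r) -
        w a * (Real.exp (∑ r, lam a r * p r) * ∏ j, ET T (mu a j * t j))| ≤
        |w a| * (Real.exp ((d + 1) * (n * L * R)) *
          (2 * (n * L * δ) + d * Real.exp (3 * (n * L * R) - T))) := by
      intro a
      rw [← mul_sub, abs_mul]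
      apply mul_le_mul_of_nonneg_left _ (abs_nonneg _)
      set err : ℝ := ∑ r, lam a r * (x r - (p r + ∑ j, t j * e j r)) with herr
      have herrb : |err| ≤ n * L * δ := hsum _ _ hL (h1 a) hx
      have hdec : ∑ r, lam a r * x r = (∑ r, lam a r * p r + ∑ j, mu a j * t j) + err := by
        have e2 : ∑ j, mu a j * t j = ∑ r, lam a r * ∑ j, t j * e j r := by
          simp_rw [hmu, Finset.sum_mul, Finset.mul_sum]
          rw [Finset.sum_comm]
          exact Finset.sum_congr rfl fun r _ => Finset.sum_congr rfl fun j _ => by ring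
        rw [e2, herr, ← Finset.sum_add_distrib, ← Finset.sum_add_distrib]
        exact Finset.sum_congr rfl fun r _ => by ring
      have hmain : |∑ r, lam a r * p r + ∑ j, mu a j * t j| ≤ (d + 1) * (n * L * R) := by
        have e3 : |∑ j, mu a j * t j| ≤ d * (n * L * R) := by
          calc _ ≤ ∑ j, |mu a j * t j| := Finset.abs_sum_le_sum_abs _ _
            _ ≤ ∑ _j : Fin d, n * L * R := Finset.sum_le_sum fun j _ => hmut a j t ht
            _ = _ := by rw [Finset.sum_const, nsmul_eq_mul, Finset.card_univ, Fintype.card_fin]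
        have e4 := hlp a
        calc _ ≤ |∑ r, lam a r * p r| + |∑ j, mu a j * t j| := abs_add_le _ _
          _ ≤ n * L * R + d * (n * L * R) := add_le_add e4 e3
          _ = _ := by ring
      -- the error of the position
      have hA : |Real.exp (∑ r, lam a r * x r) -
          Real.exp (∑ r, lam a r * p r + ∑ j, mu a j * t j)| ≤
          Real.exp ((d + 1) * (n * L * R)) * (2 * (n * L * δ)) := by
        rw [hdec, Real.exp_add _ err]
        have e5 : Real.exp (∑ r, lam a r * p r + ∑ j, mu a j * t j) * Real.exp err -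
            Real.exp (∑ r, lam a r * p r + ∑ j, mu a j * t j) =
            Real.exp (∑ r, lam a r * p r + ∑ j, mu a j * t j) * (Real.exp err - 1) := by ring
        rw [e5, abs_mul, Real.abs_exp]
        apply mul_le_mul (Real.exp_le_exp.2 ((le_abs_self _).trans hmain)) _ (abs_nonneg _)
          (Real.exp_pos _).le
        have e6 := Real.abs_exp_sub_one_le (herrb.trans hδ)
        linarith
      -- the error of the truncation
      have hB : |Real.exp (∑ r, lam a r * p r + ∑ j, mu a j * t j) -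
          Real.exp (∑ r, lam a r * p r) * ∏ j, ET T (mu a j * t j)| ≤
          Real.exp ((d + 1) * (n * L * R)) * (d * Real.exp (3 * (n * L * R) - T)) := by
        have hes : Real.exp (∑ j, mu a j * t j) = ∏ j, Real.exp (mu a j * t j) :=
          Real.exp_sum _ _
        rw [Real.exp_add, hes, ← mul_sub, abs_mul, Real.abs_exp]
        have e7 := prod_diff (fun j => Real.exp (mu a j * t j)) (fun j => ET T (mu a j * t j))
          (E := Real.exp (n * L * R)) (η := Real.exp (3 * (n * L * R) - T))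
          (Real.one_le_exp hS0)
          (fun j => by
            rw [Real.abs_exp]
            exact Real.exp_le_exp.2 ((le_abs_self _).trans (hmut a j t ht)))
          (fun j => ET_abs_le T (hmut a j t ht)) (fun j => tail_bound T (hmut a j t ht))
        rw [← Real.exp_nat_mul] at e7
        calc _ ≤ Real.exp (n * L * R) *
              (d * Real.exp (d * (n * L * R)) * Real.exp (3 * (n * L * R) - T)) :=
              mul_le_mul (Real.exp_le_exp.2 ((le_abs_self _).trans (hlp a))) e7 (abs_nonneg _)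
                (Real.exp_pos _).le
          _ = (Real.exp (n * L * R) * Real.exp (d * (n * L * R))) *
              (d * Real.exp (3 * (n * L * R) - T)) := by ring
          _ = _ := by
              rw [← Real.exp_add]
              congr 2
              ring
      calc _ ≤ |Real.exp (∑ r, lam a r * x r) -
            Real.exp (∑ r, lam a r * p r + ∑ j, mu a j * t j)| +
            |Real.exp (∑ r, lam a r * p r + ∑ j, mu a j * t j) -
            Real.exp (∑ r, lam a r * p r) * ∏ j, ET T (mu a j * t j)| := abs_sub_le _ _ _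
        _ ≤ _ := add_le_add hA hB
        _ = _ := by ring
    have hnn : 0 ≤ Real.exp ((d + 1) * (n * L * R)) *
        (2 * (n * L * δ) + d * Real.exp (3 * (n * L * R) - T)) := by
      by_cases hκ' : Nonempty κ
      · obtain ⟨a⟩ := hκ'
        have h0 : 0 ≤ n * L * δ := by
          rcases isEmpty_or_nonempty ρ with hρ | ⟨⟨r⟩⟩
          · rw [hn]; simp
          · have := (abs_nonneg _).trans (hx r)
            positivity
        positivity
      · have h0 : 0 ≤ n * L * δ := by
          rcases isEmpty_or_nonempty ρ with hρ | ⟨⟨r⟩⟩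
          · rw [hn]; simp
          · have := (abs_nonneg _).trans (hx r)
            positivity
        positivity
    calc _ ≤ ∑ a, |w a| * (Real.exp ((d + 1) * (n * L * R)) *
          (2 * (n * L * δ) + d * Real.exp (3 * (n * L * R) - T))) :=
          (Finset.abs_sum_le_sum_abs _ _).trans (Finset.sum_le_sum fun a _ => hterm a)
      _ = (∑ a, |w a|) * (Real.exp ((d + 1) * (n * L * R)) *
          (2 * (n * L * δ) + d * Real.exp (3 * (n * L * R) - T))) := by rw [Finset.sum_mul]
      _ ≤ _ := mul_le_mul_of_nonneg_right h2 hnn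

end Pool.Agent.H883.ZP
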