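import Pool.Agent.H883.ZP.Rel

set_option autoImplicit false
set_option linter.unusedSectionVars false

/-!
# The theorem over the extensions of a number field
-/

namespace Pool.Agent.H883.ZP

open Real NumberField Height Module
open Pool.Agent.Y740 (logHeight₁_emb Fp)

section ext

variable {K : Type} [Field K] [NumberField K]

lemma fin_integral_le (v : FinitePlace K) {x : K} (hx : IsIntegral ℤ x) : v x ≤ 1 := by
  rw [← FinitePlace.norm_embedding_eq v]
  exact FinitePlace.norm_le_one K v.maximalIdeal (⟨x, hx⟩ : 𝓞 K)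

lemma height_int {x : K} (hx : IsIntegral ℤ x) :
    logHeight₁ x = ∑ φ : K →+* ℂ, log⁺ ‖φ x‖ := by
  rw [logHeight₁_emb, Fp]
  have : ∑ᶠ v : FinitePlace K, log⁺ (v x) = 0 := by
    rw [← finsum_zero (α := FinitePlace K)]
    apply finsum_congr
    intro v
    rw [posLog_eq_zero_iff]
    rw [abs_le]
    exact ⟨by linarith [apply_nonneg v x], fin_integral_le v hx⟩
  rw [this, add_zero]

end ext

section

variable {K0 : Type} [Field K0] [NumberField K0]

lemma height_int_ext {t : K0} (ht : IsIntegral ℤ t) (K : Type) [Field K] [NumberField K]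
    [Algebra K0 K] :
    logHeight₁ (algebraMap K0 K t) ≤ finrank ℚ K * ∑ τ : K0 →+* ℂ, log⁺ ‖τ t‖ := by
  have h1 : IsIntegral ℤ (algebraMap K0 K t) := map_isIntegral_int (algebraMap K0 K) ht
  rw [height_int h1]
  calc ∑ φ : K →+* ℂ, log⁺ ‖φ (algebraMap K0 K t)‖
      ≤ ∑ _φ : K →+* ℂ, ∑ τ : K0 →+* ℂ, log⁺ ‖τ t‖ := by
        apply Finset.sum_le_sum
        intro φ _
        exact Finset.single_le_sum (f := fun τ : K0 →+* ℂ => log⁺ ‖τ t‖)
          (fun _ _ => posLog_nonneg) (Finset.mem_univ (φ.comp (algebraMap K0 K)))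
    _ = _ := by
        rw [Finset.sum_const, nsmul_eq_mul, Finset.card_univ, NumberField.Embeddings.card]

lemma height_ext (s : K0) : ∃ C : ℝ, ∀ (K : Type) [Field K] [NumberField K] [Algebra K0 K],
    logHeight₁ (algebraMap K0 K s) ≤ finrank ℚ K * C := by
  obtain ⟨a, b, hb, hab⟩ := IsFractionRing.div_surjective (A := 𝓞 K0) s
  refine ⟨∑ τ : K0 →+* ℂ, log⁺ ‖τ (algebraMap (𝓞 K0) K0 a)‖ +
    ∑ τ : K0 →+* ℂ, log⁺ ‖τ (algebraMap (𝓞 K0) K0 b)‖, ?_⟩
  intro K _ _ _
  rw [← hab, map_div₀, div_eq_mul_inv]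
  refine (logHeight₁_mul_le _ _).trans ?_
  rw [logHeight₁_inv, mul_add]
  exact add_le_add (height_int_ext (RingOfIntegers.isIntegral_coe a) K)
    (height_int_ext (RingOfIntegers.isIntegral_coe b) K)

/-- **The theorem over the extensions of a number field.** -/
theorem nfRel (c : ℕ) (a b : Fin c → K0) (ha : ∀ i, a i ≠ 0) (hb : ∀ i, b i ≠ 0) :
    ∃ G : MvPolynomial (Fin c) ℤ, G ≠ 0 ∧
      ∀ (K : Type) [Field K] [NumberField K] [Algebra K0 K] (n m : ℕ) (α β : Fin c → Fin n → ℤ)
        (z : Fin n → K), (∀ l, z l ≠ 0) →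
        (∀ i, algebraMap K0 K (a i) * mon z (α i) + algebraMap K0 K (b i) * mon z (β i) = 1) →
        Codim z m → n < m + c → (3 < c → ∀ i j, i ≠ j → PairCond α β z i j) →
        MvPolynomial.aeval (fun i => algebraMap K0 K (a i) * mon z (α i)) G = 0 := by
  classical
  let s0 : Fin c × Bool → K0 := fun r => if r.2 then b r.1 else a r.1
  have hs0 : ∀ r, s0 r ≠ 0 := by
    rintro ⟨i, x⟩
    cases x
    · exact ha i
    · exact hb i
  choose C hC using fun r => height_ext (s0 r)
  have hBs : ∀ (K : Type) [Field K] [NumberField K] [Algebra K0 K] (r : Fin c × Bool),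
      logHeight₁ (algebraMap K0 K (s0 r)) ≤ finrank ℚ K * ∑ r, |C r| := by
    intro K _ _ _ r
    refine (hC r K).trans (mul_le_mul_of_nonneg_left ?_ (by positivity))
    exact (le_abs_self _).trans (Finset.single_le_sum (f := fun r => |C r|)
      (fun _ _ => abs_nonneg _) (Finset.mem_univ r))
  set k := Fintype.card (K0 →+* ℂ) with hk
  let eqv : (K0 →+* ℂ) ≃ Fin k := Fintype.equivFin _
  let P : Fin k → Fin c × Bool → ℝ := fun i => ls (fun x => ‖(eqv.symm i) x‖) s0
  obtain ⟨G, hG0, hG⟩ := nfMain (Fin c) (∑ r, |C r|) (∑ i, ∑ r, |P i r|) k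
  refine ⟨G, hG0, ?_⟩
  intro K _ _ _ n m α β z hz heq hcod hm hpair
  have hz' : ∀ e : Fin n → ℤ, mon z e ≠ 0 := fun e =>
    Finset.prod_ne_zero_iff.2 fun l _ => zpow_ne_zero _ (hz l)
  have ha' : ∀ i, algebraMap K0 K (a i) ≠ 0 := fun i => (map_ne_zero _).2 (ha i)
  have hb' : ∀ i, algebraMap K0 K (b i) ≠ 0 := fun i => (map_ne_zero _).2 (hb i)
  have h1 : ∀ i, 1 - algebraMap K0 K (a i) * mon z (α i) =
      algebraMap K0 K (b i) * mon z (β i) := fun i => by rw [← heq i]; ring
  have hfin : finrank ℝ ((relW z).map (psi α β)) < c := by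
    refine lt_of_le_of_lt (Submodule.finrank_map_le _ _) ?_
    have := finrank_relW hcod
    rw [Fintype.card_fin] at this
    exact Nat.lt_of_add_lt_add_right (lt_of_le_of_lt this (by omega : n < c + m))
  -- membership
  have hmem : ∀ (v : K →*₀ ℝ), (∀ x, x ≠ 0 → 0 < v x) →
      lv v (fun i => algebraMap K0 K (a i) * mon z (α i)) -
        ls v (fun r => algebraMap K0 K (s0 r)) ∈ (relW z).map (psi α β) := by
    intro v hv
    refine Submodule.mem_map.2 ⟨fun l => Real.log (v (z l)), log_mem_relW v hv hz, ?_⟩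
    funext r
    obtain ⟨i, x⟩ := r
    cases x
    · show ∑ l, (α i l : ℝ) * Real.log (v (z l)) =
        Real.log (v (algebraMap K0 K (a i) * mon z (α i))) - Real.log (v (algebraMap K0 K (a i)))
      rw [map_mul, Real.log_mul (hv _ (ha' i)).ne' (hv _ (hz' _)).ne', log_mon v hv hz]
      ring
    · show ∑ l, (β i l : ℝ) * Real.log (v (z l)) =
        Real.log (v (1 - algebraMap K0 K (a i) * mon z (α i))) -
          Real.log (v (algebraMap K0 K (b i)))
      rw [h1, map_mul, Real.log_mul (hv _ (hb' i)).ne' (hv _ (hz' _)).ne', log_mon v hv hz]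
      ring
  refine hG K (fun i => algebraMap K0 K (a i) * mon z (α i))
    (fun i => mul_ne_zero (ha' i) (hz' _))
    (fun i => by rw [h1]; exact mul_ne_zero (hb' i) (hz' _))
    (fun r => algebraMap K0 K (s0 r)) (fun r => (map_ne_zero _).2 (hs0 r)) (hBs K) P ?_ ?_
    ((relW z).map (psi α β)) ?_ ?_ ?_ ?_
  · intro i r
    calc |P i r| ≤ ∑ r, |P i r| := Finset.single_le_sum (f := fun r => |P i r|)
          (fun _ _ => abs_nonneg _) (Finset.mem_univ r)
      _ ≤ _ := Finset.single_le_sum (f := fun i => ∑ r, |P i r|)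
          (fun _ _ => Finset.sum_nonneg fun _ _ => abs_nonneg _) (Finset.mem_univ i)
  · intro σ
    refine ⟨eqv (σ.comp (algebraMap K0 K)), ?_⟩
    show _ = ls (fun x => ‖(eqv.symm (eqv (σ.comp (algebraMap K0 K)))) x‖) s0
    rw [Equiv.symm_apply_apply]
    rfl
  · rw [Fintype.card_fin]
    exact hfin
  · intro σ
    exact hmem ⟨⟨fun x => ‖σ x‖, by simp⟩, by simp, fun x y => by simp⟩
      (fun x hx => norm_pos_iff.2 ((map_ne_zero σ).2 hx))
  · intro v
    exact hmem ⟨⟨fun x => v x, map_zero v⟩, map_one v, map_mul v⟩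
      (fun x hx => FinitePlace.pos_iff.2 hx)
  · intro i j hij
    rcases lt_or_ge 3 c with h3 | h3
    · exact pair_finrank hz (hpair h3 i j hij)
    · left
      exact (Submodule.finrank_map_le _ _).trans (by omega)

end

end Pool.Agent.H883.ZP
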