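import Pool.Agent.H883.ZP.Good

set_option autoImplicit false
set_option linter.unusedSectionVars false

/-!
# The auxiliary polynomial
-/

namespace Pool.Agent.H883.ZP

open Real NumberField Height Module Finset

variable {ι : Type} [Fintype ι] [DecidableEq ι]

/-- existence of the auxiliary polynomial -/
theorem exists_aux {k : ℕ} (hk : 0 < k) {d : ℕ} (hd : Fintype.card ι = d + 1)
    {R : ℝ} (hR : 0 < R) (c1 κ ρ N T : ℕ)
    (hN : N = 8 * k * 2 ^ Fintype.card ι * ρ ^ d) (hρ : 0 < ρ) (hT : T = ρ * N)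
    (hc1 : (4 : ℝ) ^ (Fintype.card ι * N) *
      Real.exp ((d + 1) * (Fintype.card (ι × Bool) * (Fintype.card ι * (2 * N)) * R)) + 1 ≤
        2 ^ (c1 * N)) (hκ : c1 + Fintype.card ι ≤ 3 * κ)
    {δ : ℝ} (hδ : (Fintype.card (ι × Bool) : ℝ) * (Fintype.card ι * (2 * N)) * δ ≤ 1)
    (e : Fin k → Fin d → ι × Bool → ℝ) (he : ∀ i j r, |e i j r| ≤ 1)
    (p : Fin k → ι × Bool → ℝ) (hp : ∀ i r, |p i r| ≤ R) :
    ∃ c : (ι → Fin N) → ℤ, c ≠ 0 ∧ (∀ m, |(c m : ℝ)| ≤ ((2 ^ (κ * N) : ℕ) : ℝ)) ∧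
      ∀ (i : Fin k) (z : ι → ℂ) (x : ι × Bool → ℝ) (t : Fin d → ℝ) (E : ℝ),
        (∀ j, ‖z j‖ = Real.exp (x (j, false))) → (∀ j, ‖1 - z j‖ = Real.exp (x (j, true))) →
        (∀ j, |t j| ≤ R) → (∀ r, |x r - (p i r + ∑ j, t j * e i j r)| ≤ δ) →
        (∀ s : Finset ι, ∏ j ∈ s, ‖z j‖ ≤ E) →
        ‖val c z‖ ≤ 2 ^ Fintype.card ι *
          ((T ^ d * (2 * Fintype.card (ι → Fin N) * ((2 ^ (κ * N) : ℕ) : ℝ) /
            ((2 ^ ((3 * κ - (c1 + Fintype.card ι)) * N) : ℕ) : ℝ)) +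
            Fintype.card (ι → Fin N) * (((2 ^ (κ * N) : ℕ) : ℝ) *
            ((4 : ℝ) ^ (Fintype.card ι * N) *
              (Real.exp ((d + 1) * (Fintype.card (ι × Bool) * (Fintype.card ι * (2 * N)) * R)) *
            (2 * (Fintype.card (ι × Bool) * (Fintype.card ι * (2 * N)) * δ) +
              d * Real.exp (3 * (Fintype.card (ι × Bool) * (Fintype.card ι * (2 * N)) * R) - T)))))) *
              E) := by
  have hNpos : 0 < N := by rw [hN]; positivity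
  have hTpos : 0 < T := by rw [hT]; positivity
  have hL : (0 : ℝ) ≤ Fintype.card ι * (2 * N) := by positivity
  set M := Fintype.card ι with hM
  -- the forms
  have key : ∀ (i : Fin k) (s : Finset ι) (m : ι → Fin N), ∃ a : (Fin d → Fin T) → ℝ, _ :=
    fun i s m => approx T hL hR hδ (ph_EP m s) (e i) (he i) (p i) (hp i)
  choose a ha1 ha2 using key
  set A0 : ℝ := (4 : ℝ) ^ (M * N) *
      Real.exp ((d + 1) * (Fintype.card (ι × Bool) * (M * (2 * N)) * R)) with hA0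
  have : Nonempty (Fin k) := ⟨⟨0, hk⟩⟩
  have : Nonempty (Fin T) := ⟨⟨0, hTpos⟩⟩
  have hcR : Fintype.card (Fin k × Finset ι × (Fin d → Fin T)) = k * (2 ^ M * T ^ d) := by
    rw [Fintype.card_prod, Fintype.card_prod, Fintype.card_fin, Fintype.card_finset,
      Fintype.card_fun, Fintype.card_fin, Fintype.card_fin]
  have hcI : Fintype.card (ι → Fin N) = N ^ M := by
    rw [Fintype.card_fun, Fintype.card_fin]
  have h8 : 8 * Fintype.card (Fin k × Finset ι × (Fin d → Fin T)) = Fintype.card (ι → Fin N) := by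
    have e1 : N ^ M = N ^ d * (8 * k * 2 ^ M * ρ ^ d) :=
      calc N ^ M = N ^ (d + 1) := by rw [hd]
        _ = N ^ d * N := pow_succ _ _
        _ = _ := congrArg (N ^ d * ·) hN
    rw [hcR, hcI, e1, hT, mul_pow]
    ring
  have hcRpos : 0 < Fintype.card (Fin k × Finset ι × (Fin d → Fin T)) := Fintype.card_pos
  set cR := Fintype.card (Fin k × Finset ι × (Fin d → Fin T)) with hcRdef
  set cI := Fintype.card (ι → Fin N) with hcIdef
  have hcI2 : (cI : ℝ) ≤ 2 ^ (M * N) := by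
    rw [hcI]
    have : N ≤ 2 ^ N := Nat.lt_two_pow_self.le
    calc ((N ^ M : ℕ) : ℝ) ≤ (((2 ^ N) ^ M : ℕ) : ℝ) := by exact_mod_cast Nat.pow_le_pow_left this M
      _ = _ := by rw [← pow_mul, mul_comm]; push_cast; rfl
  have hA0nn : 0 ≤ A0 := by positivity
  obtain ⟨c, hc0, hcX, hcs⟩ := Pool.Agent.Y740.siegel_approx
    (R := Fin k × Finset ι × (Fin d → Fin T)) (I := ι → Fin N)
    (fun r m => ((a r.1 r.2.1 m r.2.2 : ℝ) : ℂ)) A0
    (2 ^ ((3 * κ - (c1 + M)) * N)) (2 ^ (κ * N))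
    (fun r m => by
      rw [Complex.norm_real, Real.norm_eq_abs]
      exact ha1 _ _ _ _)
    (by positivity) (by omega) (by
      rw [← hcRdef, ← hcIdef]
      have hb1 : (1 : ℝ) ≤ (cI : ℝ) * max 1 (((2 ^ ((3 * κ - (c1 + M)) * N) : ℕ) : ℝ) * A0 + 1) := by
        have h1 : (1 : ℝ) ≤ cI := by exact_mod_cast (by omega : 1 ≤ cI)
        have h2 : (1 : ℝ) ≤ max 1 (((2 ^ ((3 * κ - (c1 + M)) * N) : ℕ) : ℝ) * A0 + 1) :=
          le_max_left _ _
        nlinarith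
      have hexp : (((2 * cR : ℕ) : ℝ) / ((cI : ℝ) - ((2 * cR : ℕ) : ℝ))) = 1 / 3 := by
        rw [← h8]
        push_cast
        have : (cR : ℝ) ≠ 0 := by exact_mod_cast hcRpos.ne'
        have h3 : (8 * (cR : ℝ) - 2 * cR) = 6 * cR := by ring
        rw [h3]
        field_simp
        norm_num
      rw [hexp]
      have hb2 : (cI : ℝ) * max 1 (((2 ^ ((3 * κ - (c1 + M)) * N) : ℕ) : ℝ) * A0 + 1) ≤
          (((2 ^ (κ * N) : ℕ) : ℝ)) ^ 3 := by
        have h4 : max 1 (((2 ^ ((3 * κ - (c1 + M)) * N) : ℕ) : ℝ) * A0 + 1) ≤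
            ((2 ^ ((3 * κ - (c1 + M)) * N) : ℕ) : ℝ) * (A0 + 1) := by
          have h5 : (1 : ℝ) ≤ ((2 ^ ((3 * κ - (c1 + M)) * N) : ℕ) : ℝ) := by
            exact_mod_cast Nat.one_le_two_pow
          apply max_le
          · nlinarith
          · nlinarith
        calc _ ≤ (2 : ℝ) ^ (M * N) * (((2 ^ ((3 * κ - (c1 + M)) * N) : ℕ) : ℝ) *
              2 ^ (c1 * N)) := by
              apply mul_le_mul hcI2 (h4.trans _) (by positivity) (by positivity)
              exact mul_le_mul_of_nonneg_left hc1 (by positivity)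
          _ = _ := by
              push_cast
              rw [← pow_add, ← pow_add, ← pow_mul]
              congr 1
              have : (3 * κ - (c1 + M)) * N + (c1 + M) * N = 3 * κ * N := by
                rw [← add_mul]
                congr 1
                omega
              nlinarith
      calc _ ≤ ((((2 ^ (κ * N) : ℕ) : ℝ)) ^ 3) ^ (1 / 3 : ℝ) :=
            Real.rpow_le_rpow (by linarith) hb2 (by norm_num)
        _ = _ := by
            rw [← Real.rpow_natCast, ← Real.rpow_mul (by positivity)]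
            norm_num)
  refine ⟨c, hc0, hcX, ?_⟩
  intro i z x t E h0 h1 ht hx hE
  have hη : ∀ s α, |∑ m, (c m : ℝ) * a i s m α| ≤ 2 * cI * ((2 ^ (κ * N) : ℕ) : ℝ) /
      ((2 ^ ((3 * κ - (c1 + M)) * N) : ℕ) : ℝ) := by
    intro s α
    have h2 := hcs (i, s, α)
    have h3 : (∑ m, (c m : ℂ) * ((a i s m α : ℝ) : ℂ)) = ((∑ m, (c m : ℝ) * a i s m α : ℝ) : ℂ) := by
      push_cast
      rfl
    dsimp only at h2
    rw [h3, Complex.norm_real, Real.norm_eq_abs] at h2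
    exact h2
  exact good_le c hcX (a i) hη z x h0 h1 t hR ht (fun s m => ha2 i s m t x ht hx) hE

/-- existence of the auxiliary polynomial, with names for the constants -/
theorem exists_aux' {k : ℕ} (hk : 0 < k) {M d : ℕ} (hM : M = Fintype.card ι) (hd : M = d + 1)
    {R : ℝ} (hR : 0 < R) (c1 κ ρ N T : ℕ) {n L : ℝ} (hn : n = (Fintype.card (ι × Bool) : ℝ))
    (hL : L = M * (2 * N))
    (hN : N = 8 * k * 2 ^ M * ρ ^ d) (hρ : 0 < ρ) (hT : T = ρ * N)
    (hc1 : (4 : ℝ) ^ (M * N) * Real.exp ((d + 1) * (n * L * R)) + 1 ≤ 2 ^ (c1 * N))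
    (hκ : c1 + M ≤ 3 * κ)
    {δ : ℝ} (hδ : n * L * δ ≤ 1)
    (e : Fin k → Fin d → ι × Bool → ℝ) (he : ∀ i j r, |e i j r| ≤ 1)
    (p : Fin k → ι × Bool → ℝ) (hp : ∀ i r, |p i r| ≤ R) :
    ∃ c : (ι → Fin N) → ℤ, c ≠ 0 ∧ (∀ m, |(c m : ℝ)| ≤ ((2 ^ (κ * N) : ℕ) : ℝ)) ∧
      ∀ (i : Fin k) (z : ι → ℂ) (x : ι × Bool → ℝ) (t : Fin d → ℝ) (E : ℝ),
        (∀ j, ‖z j‖ = Real.exp (x (j, false))) → (∀ j, ‖1 - z j‖ = Real.exp (x (j, true))) →
        (∀ j, |t j| ≤ R) → (∀ r, |x r - (p i r + ∑ j, t j * e i j r)| ≤ δ) →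
        (∀ s : Finset ι, ∏ j ∈ s, ‖z j‖ ≤ E) →
        ‖val c z‖ ≤ 2 ^ M *
          ((T ^ d * (2 * Fintype.card (ι → Fin N) * ((2 ^ (κ * N) : ℕ) : ℝ) /
            ((2 ^ ((3 * κ - (c1 + M)) * N) : ℕ) : ℝ)) +
            Fintype.card (ι → Fin N) * (((2 ^ (κ * N) : ℕ) : ℝ) *
            ((4 : ℝ) ^ (M * N) * (Real.exp ((d + 1) * (n * L * R)) *
            (2 * (n * L * δ) + d * Real.exp (3 * (n * L * R) - T)))))) * E) := by
  subst hM hn hL
  exact exists_aux hk hd hR c1 κ ρ N T hN hρ hT hc1 hκ hδ e he p hp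

end Pool.Agent.H883.ZP
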