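import Pool.Graph.R_seed8.Y740.Liouville

set_option autoImplicit false
set_option linter.unusedSectionVars false

/-!
# Values of integral polynomials at the points of a number field
-/

namespace Pool.Agent.H883.ZP

open Real NumberField Height Module Finset
open Pool.Agent.Y740 (Fp product_formula_log pow_le_exp_posLog fin_int_le fin_sum_le supp_posLog
  supp_finite logHeight₁_emb Fp_nonneg abs_log_emb_le)

/-- the value of a polynomial with coefficients `c` -/
noncomputable def val {ι : Type} [Fintype ι] [DecidableEq ι] {N : ℕ} {F : Type*} [CommRing F]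
    (c : (ι → Fin N) → ℤ) (u : ι → F) : F :=
  ∑ m, (c m : F) * ∏ j, u j ^ (m j : ℕ)

section

variable {ι : Type} [Fintype ι] [DecidableEq ι]

lemma map_val {N : ℕ} {F G : Type*} [CommRing F] [CommRing G] (φ : F →+* G)
    (c : (ι → Fin N) → ℤ) (u : ι → F) : φ (val c u) = val c (fun j => φ (u j)) := by
  simp [val, map_sum, map_mul, map_prod, map_pow]

lemma monom_le {N : ℕ} {F : Type*} [Field F] (v : F →*₀ ℝ) (hv0 : ∀ x, 0 ≤ v x)
    (m : ι → Fin N) (u : ι → F) :
    v (∏ j, u j ^ (m j : ℕ)) ≤ Real.exp (N * ∑ j, log⁺ (v (u j))) := by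
  rw [map_prod, Finset.mul_sum, Real.exp_sum]
  apply Finset.prod_le_prod
  · intro j _; exact hv0 _
  · intro j _
    rw [map_pow]
    exact pow_le_exp_posLog (hv0 _) (m j).2.le

lemma arch_le {N : ℕ} (c : (ι → Fin N) → ℤ) {X : ℝ} (hc : ∀ m, |(c m : ℝ)| ≤ X) (hX : 0 ≤ X)
    (z : ι → ℂ) :
    ‖val c z‖ ≤ Fintype.card (ι → Fin N) * X * Real.exp (N * ∑ j, log⁺ ‖z j‖) := by
  rw [val]
  refine (norm_sum_le _ _).trans ?_
  calc _ ≤ ∑ _m : ι → Fin N, X * Real.exp (N * ∑ j, log⁺ ‖z j‖) := by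
        apply Finset.sum_le_sum
        intro m _
        rw [norm_mul, Complex.norm_intCast]
        exact mul_le_mul (hc m) (monom_le (⟨⟨norm, norm_zero⟩, norm_one, norm_mul⟩ : ℂ →*₀ ℝ)
          (fun x => show 0 ≤ ‖x‖ from norm_nonneg x) m z) (norm_nonneg _) hX
    _ = _ := by rw [Finset.sum_const, nsmul_eq_mul, Finset.card_univ, mul_assoc]

variable {K : Type} [Field K] [NumberField K]

lemma fin_le (v : FinitePlace K) {N : ℕ} (c : (ι → Fin N) → ℤ) (u : ι → K) :
    v (val c u) ≤ Real.exp (N * ∑ j, log⁺ (v (u j))) := by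
  apply fin_sum_le v _ _ _ (Real.exp_pos _).le
  intro m _
  rw [map_mul]
  calc _ ≤ 1 * Real.exp (N * ∑ j, log⁺ (v (u j))) := by
        apply mul_le_mul (fin_int_le v _) _ (apply_nonneg v _) zero_le_one
        exact monom_le (⟨⟨fun x => v x, map_zero v⟩, map_one v, map_mul v⟩ : K →*₀ ℝ)
          (fun _ => apply_nonneg v _) m u
    _ = _ := one_mul _

lemma liouville {N : ℕ} (c : (ι → Fin N) → ℤ) (u : ι → K) (h : val c u ≠ 0) :
    -(N * ∑ j, Fp (u j)) ≤ ∑ φ : K →+* ℂ, log ‖val c (fun j => φ (u j))‖ := by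
  have h1 := product_formula_log h
  have e1 : ∑ j, Fp (u j) = ∑ᶠ v : FinitePlace K, ∑ j, log⁺ (v (u j)) := by
    rw [finsum_sum_comm]
    · rfl
    · intro j _
      exact supp_posLog (u j)
  have hsw : (Function.support fun v : FinitePlace K => ∑ j, log⁺ (v (u j))).Finite := by
    refine Set.Finite.subset (Set.finite_iUnion fun j => supp_posLog (u j)) ?_
    intro v hv
    rw [Function.mem_support] at hv
    obtain ⟨j, -, hj⟩ := Finset.exists_ne_zero_of_sum_ne_zero hv
    exact Set.mem_iUnion.mpr ⟨j, hj⟩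
  have h2 : ∑ᶠ v : FinitePlace K, log (v (val c u)) ≤ N * ∑ j, Fp (u j) := by
    rw [e1, mul_finsum]
    apply finsum_le_finsum'
    · refine supp_finite h _ fun v hv => ?_
      rw [hv, log_one]
    · refine hsw.subset ?_
      intro v hv
      rw [Function.mem_support] at hv ⊢
      intro h0
      apply hv
      rw [h0, mul_zero]
    · intro v
      have h3 := fin_le v c u
      have h4 : 0 < v (val c u) := FinitePlace.pos_iff.mpr h
      exact (Real.log_le_iff_le_exp h4).mpr h3
  have h5 : ∑ φ : K →+* ℂ, log ‖val c (fun j => φ (u j))‖ = ∑ φ : K →+* ℂ, log ‖φ (val c u)‖ :=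
    Finset.sum_congr rfl fun φ _ => by rw [map_val]
  rw [h5]
  linarith

end

end Pool.Agent.H883.ZP
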