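import Pool.Agent.H883.ZP.Quad
import Pool.Agent.H883.ZP.Basis
import Pool.Agent.H883.ZP.Val
import Pool.Graph.R_seed8.Y740.Siegel

set_option autoImplicit false
set_option linter.unusedSectionVars false

/-!
# The value of the auxiliary polynomial at a good embedding
-/

namespace Pool.Agent.H883.ZP

open Real NumberField Height Module Finset

variable {ι : Type} [Fintype ι] [DecidableEq ι]

/-- the vector of the logarithms of the absolute values of the `u j` and the `1 - u j` -/
noncomputable def lv {F : Type*} [Field F] (v : F → ℝ) (u : ι → F) : ι × Bool → ℝ :=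
  fun r => if r.2 then log (v (1 - u r.1)) else log (v (u r.1))

lemma good_le {N d T : ℕ} (c : (ι → Fin N) → ℤ) {X : ℝ} (hc : ∀ m, |(c m : ℝ)| ≤ X)
    (a : Finset ι → (ι → Fin N) → (Fin d → Fin T) → ℝ) {η err R E : ℝ}
    (hη : ∀ s α, |∑ m, (c m : ℝ) * a s m α| ≤ η) (z : ι → ℂ) (x : ι × Bool → ℝ)
    (h0 : ∀ j, ‖z j‖ = Real.exp (x (j, false))) (h1 : ∀ j, ‖1 - z j‖ = Real.exp (x (j, true)))
    (t : Fin d → ℝ) (hR : 0 < R) (ht : ∀ j, |t j| ≤ R)
    (ha : ∀ s m, |ph m s x - ∑ α, a s m α * ∏ j, (t j / R) ^ (α j : ℕ)| ≤ err)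
    (hE : ∀ s : Finset ι, ∏ j ∈ s, ‖z j‖ ≤ E) :
    ‖val c z‖ ≤ 2 ^ Fintype.card ι *
      ((T ^ d * η + Fintype.card (ι → Fin N) * (X * err)) * E) := by
  have e1 : val c z = ∑ s : Finset ι, ((∑ m, (c m : ℝ) * ph m s x : ℝ) : ℂ) * ∏ j ∈ s, z j := by
    rw [val]
    simp_rw [monomial_eq _ z x h0 h1]
    push_cast
    simp_rw [Finset.sum_mul, Finset.mul_sum]
    rw [Finset.sum_comm]
    refine Finset.sum_congr rfl fun s _ => Finset.sum_congr rfl fun m _ => by ring
  have hX : ∀ m, 0 ≤ X := fun m => (abs_nonneg _).trans (hc m)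
  have e2 : ∀ s, |∑ m, (c m : ℝ) * ph m s x| ≤
      T ^ d * η + Fintype.card (ι → Fin N) * (X * err) := by
    intro s
    have e3 : ∑ m, (c m : ℝ) * ph m s x =
        ∑ α, (∑ m, (c m : ℝ) * a s m α) * ∏ j, (t j / R) ^ (α j : ℕ) +
        ∑ m, (c m : ℝ) * (ph m s x - ∑ α, a s m α * ∏ j, (t j / R) ^ (α j : ℕ)) := by
      simp_rw [Finset.sum_mul, mul_sub, Finset.mul_sum]
      rw [Finset.sum_sub_distrib, Finset.sum_comm]
      have : ∀ m α, (c m : ℝ) * a s m α * ∏ j, (t j / R) ^ (α j : ℕ) =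
        (c m : ℝ) * (a s m α * ∏ j, (t j / R) ^ (α j : ℕ)) := fun m α => by ring
      simp_rw [this]
      ring
    rw [e3]
    refine (abs_add_le _ _).trans (add_le_add ?_ ?_)
    · calc _ ≤ ∑ α : Fin d → Fin T, |(∑ m, (c m : ℝ) * a s m α) *
            ∏ j, (t j / R) ^ (α j : ℕ)| := Finset.abs_sum_le_sum_abs _ _
        _ ≤ ∑ _α : Fin d → Fin T, η := by
            apply Finset.sum_le_sum
            intro α _
            rw [abs_mul, Finset.abs_prod]
            have e4 : ∏ j, |(t j / R) ^ (α j : ℕ)| ≤ 1 := by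
              apply Finset.prod_le_one (fun _ _ => abs_nonneg _)
              intro j _
              rw [abs_pow, abs_div, abs_of_pos hR]
              exact pow_le_one₀ (by positivity) ((div_le_one hR).2 (ht j))
            have e5 := hη s α
            calc _ ≤ |∑ m, (c m : ℝ) * a s m α| * 1 :=
                  mul_le_mul_of_nonneg_left e4 (abs_nonneg _)
              _ ≤ η := by rw [mul_one]; exact e5
        _ = T ^ d * η := by
            rw [Finset.sum_const, nsmul_eq_mul, Finset.card_univ, Fintype.card_fun,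
              Fintype.card_fin, Fintype.card_fin]
            push_cast
            rfl
    · calc _ ≤ ∑ m, |(c m : ℝ) * (ph m s x - ∑ α, a s m α * ∏ j, (t j / R) ^ (α j : ℕ))| :=
            Finset.abs_sum_le_sum_abs _ _
        _ ≤ ∑ _m : ι → Fin N, X * err := by
            apply Finset.sum_le_sum
            intro m _
            rw [abs_mul]
            exact mul_le_mul (hc m) (ha s m) (abs_nonneg _) (hX m)
        _ = _ := by rw [Finset.sum_const, nsmul_eq_mul, Finset.card_univ]
  rw [e1]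
  calc _ ≤ ∑ s : Finset ι, ‖((∑ m, (c m : ℝ) * ph m s x : ℝ) : ℂ) * ∏ j ∈ s, z j‖ :=
        norm_sum_le _ _
    _ ≤ ∑ _s : Finset ι, (T ^ d * η + Fintype.card (ι → Fin N) * (X * err)) * E := by
        apply Finset.sum_le_sum
        intro s _
        rw [norm_mul, Complex.norm_real, Real.norm_eq_abs, norm_prod]
        exact mul_le_mul (e2 s) (hE s) (Finset.prod_nonneg fun _ _ => norm_nonneg _)
          ((abs_nonneg _).trans (e2 s))
    _ = _ := by
        rw [Finset.sum_const, nsmul_eq_mul, Finset.card_univ, Fintype.card_finset]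
        push_cast
        rfl

end Pool.Agent.H883.ZP
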