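import Pool.Agent.H883.ZP.Bounded

set_option autoImplicit false
set_option linter.unusedSectionVars false

/-!
# Points all of whose coordinates but one have bounded height
-/

namespace Pool.Agent.H883.ZP

open Real NumberField Height Module Finset
open Pool.Agent.Y740 (Fp product_formula_log pow_le_exp_posLog fin_int_le fin_sum_le supp_posLog
  supp_finite logHeight₁_emb Fp_nonneg abs_log_emb_le abs_log_sum)
open Pool.Agent.H489ZP (height_one_sub)

section

variable {K : Type} [Field K] [NumberField K]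

/-- a local bound by the logarithms of numbers of bounded height -/
lemma height_le_of_local {κ : Type} [Fintype κ] {z : K} (hz : z ≠ 0) (g : κ → K)
    (hg : ∀ j, g j ≠ 0) {A : ℝ}
    (h1 : ∀ σ : K →+* ℂ, |log ‖σ z‖| ≤ A * ∑ j, |log ‖σ (g j)‖|)
    (h2 : ∀ v : FinitePlace K, |log (v z)| ≤ A * ∑ j, |log (v (g j))|) :
    logHeight₁ z ≤ A * ∑ j, logHeight₁ (g j) := by
  have e0 := abs_log_sum hz
  have e1 : ∑ σ : K →+* ℂ, |log ‖σ z‖| ≤ A * ∑ j, ∑ σ : K →+* ℂ, |log ‖σ (g j)‖| := by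
    rw [Finset.sum_comm, Finset.mul_sum]
    exact Finset.sum_le_sum fun σ _ => h1 σ
  have hs : ∀ j, (Function.support fun v : FinitePlace K => |log (v (g j))|).Finite := by
    intro j
    refine supp_finite (hg j) _ fun v hv => ?_
    rw [hv]; simp
  have e2 : ∑ᶠ v : FinitePlace K, |log (v z)| ≤
      A * ∑ j, ∑ᶠ v : FinitePlace K, |log (v (g j))| := by
    rw [← finsum_sum_comm Finset.univ _ (fun j _ => hs j), mul_finsum]
    apply finsum_le_finsum'
    · exact supp_finite hz _ fun v hv => by rw [hv]; simp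
    · have : (Function.support fun v : FinitePlace K => A * ∑ j, |log (v (g j))|) ⊆
          ⋃ j, Function.support fun v : FinitePlace K => |log (v (g j))| := by
        intro v hv
        rw [Set.mem_iUnion]
        by_contra hne
        push Not at hne
        apply hv
        dsimp only
        rw [Finset.sum_eq_zero, mul_zero]
        intro j _
        have := hne j
        rwa [Function.notMem_support] at this
      exact (Set.finite_iUnion hs).subset this
    · intro v
      exact h2 v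
  have e3 : ∀ j, ∑ σ : K →+* ℂ, |log ‖σ (g j)‖| + ∑ᶠ v : FinitePlace K, |log (v (g j))| =
      2 * logHeight₁ (g j) := fun j => abs_log_sum (hg j)
  have e4 : A * ∑ j, ∑ σ : K →+* ℂ, |log ‖σ (g j)‖| +
      A * ∑ j, ∑ᶠ v : FinitePlace K, |log (v (g j))| = A * (2 * ∑ j, logHeight₁ (g j)) := by
    rw [← mul_add, ← Finset.sum_add_distrib, Finset.mul_sum (a := (2 : ℝ))]
    congr 1
    exact Finset.sum_congr rfl fun j _ => e3 j
  nlinarith

end

/-- a small logarithm -/
lemma three_cases (z : ℂ) (hz0 : z ≠ 0) (hz1 : 1 - z ≠ 0) :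
    |log ‖z‖| ≤ log 2 ∨ |log ‖1 - z‖| ≤ log 2 ∨ |log ‖z‖ - log ‖1 - z‖| ≤ log 2 := by
  have p0 : 0 < ‖z‖ := norm_pos_iff.2 hz0
  have p1 : 0 < ‖1 - z‖ := norm_pos_iff.2 hz1
  have t1 : ‖1 - z‖ ≤ 1 + ‖z‖ := by
    have := norm_sub_le (1 : ℂ) z
    rwa [norm_one] at this
  have t2 : 1 ≤ ‖1 - z‖ + ‖z‖ := by
    have := norm_add_le (1 - z) z
    rw [sub_add_cancel, norm_one] at this
    exact this
  have t3 : ‖z‖ ≤ 1 + ‖1 - z‖ := by
    have := norm_sub_le (1 : ℂ) (1 - z)
    rwa [norm_one, sub_sub_cancel] at this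
  have key : ∀ {a : ℝ}, 0 < a → 1 / 2 ≤ a → a ≤ 2 → |log a| ≤ log 2 := by
    intro a ha h1 h2
    rw [abs_le]
    constructor
    · have := Real.log_le_log (by norm_num) h1
      rwa [one_div, Real.log_inv] at this
    · exact Real.log_le_log ha h2
  rcases lt_or_ge ‖z‖ (1 / 2) with h | h
  · refine Or.inr (Or.inl (key p1 (by linarith) (by linarith)))
  · rcases le_or_gt ‖z‖ 2 with h2 | h2
    · exact Or.inl (key p0 h h2)
    · refine Or.inr (Or.inr ?_)
      rw [← Real.log_div p0.ne' p1.ne']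
      apply key (by positivity)
      · rw [le_div_iff₀ p1]
        linarith
      · rw [div_le_iff₀ p1]
        linarith

variable {ι : Type} [Fintype ι] [DecidableEq ι]

/-- the restriction to the coordinates other than `j0` -/
def res (j0 : ι) : (ι × Bool → ℝ) →ₗ[ℝ] ({j : ι // j ≠ j0} × Bool → ℝ) where
  toFun x r := x (r.1.1, r.2)
  map_add' _ _ := rfl
  map_smul' _ _ := rfl

/-- the functional `γ` is large on the elements of `W` whose restriction is at most `1` -/
def Big (j0 : ι) (W : Submodule ℝ (ι × Bool → ℝ)) (A : ℝ) (γ : (ι × Bool → ℝ) →ₗ[ℝ] ℝ) : Prop :=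
  ∃ w ∈ W, (∀ r, |res j0 w r| ≤ 1) ∧ A < |γ w|

lemma not_big {j0 : ι} {W : Submodule ℝ (ι × Bool → ℝ)} {A : ℝ} (hA : 0 < A)
    {γ : (ι × Bool → ℝ) →ₗ[ℝ] ℝ} (h : ¬ Big j0 W A γ) {x : ι × Bool → ℝ} (hx : x ∈ W) :
    |γ x| ≤ A * ∑ r, |res j0 x r| := by
  have h' : ∀ w ∈ W, (∀ r, |res j0 w r| ≤ 1) → |γ w| ≤ A := by
    intro w hw hr
    by_contra hc
    exact h ⟨w, hw, hr, not_le.1 hc⟩
  have hS : 0 ≤ ∑ r, |res j0 x r| := Finset.sum_nonneg fun _ _ => abs_nonneg _
  have hr : ∀ r, |res j0 x r| ≤ ∑ r, |res j0 x r| := fun r =>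
    Finset.single_le_sum (f := fun r => |res j0 x r|) (fun _ _ => abs_nonneg _) (Finset.mem_univ r)
  rcases hS.eq_or_lt with h0 | hpos
  · rw [← h0, mul_zero]
    by_contra hc
    push Not at hc
    have h1 := h' ((2 * A / |γ x|) • x) (W.smul_mem _ hx) (fun r => by
      rw [map_smul, Pi.smul_apply, smul_eq_mul, abs_mul]
      have h2 : |res j0 x r| = 0 := le_antisymm (by rw [h0]; exact hr r) (abs_nonneg _)
      rw [h2, mul_zero]
      exact zero_le_one)
    rw [map_smul, smul_eq_mul, abs_mul, abs_of_pos (show 0 < 2 * A / |γ x| by positivity),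
      div_mul_cancel₀ _ hc.ne'] at h1
    linarith
  · have h1 := h' ((∑ r, |res j0 x r|)⁻¹ • x) (W.smul_mem _ hx) (fun r => by
      rw [map_smul, Pi.smul_apply, smul_eq_mul, abs_mul, abs_of_pos (inv_pos.2 hpos),
        inv_mul_le_iff₀ hpos, mul_one]
      exact hr r)
    rw [map_smul, smul_eq_mul, abs_mul, abs_of_pos (inv_pos.2 hpos), inv_mul_le_iff₀ hpos] at h1
    linarith

lemma big_near {j0 : ι} {W : Submodule ℝ (ι × Bool → ℝ)} {A δ : ℝ} (hA : 0 < A)
    (hδ : log 2 ≤ A * δ)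
    {γ : (ι × Bool → ℝ) →ₗ[ℝ] ℝ} (h : Big j0 W A γ) :
    ∃ V : Submodule ℝ ({j : ι // j ≠ j0} × Bool → ℝ), finrank ℝ V < finrank ℝ W ∧
      ∀ x ∈ W, |γ x| ≤ log 2 → ∃ v ∈ V, ∀ r, |res j0 x r - (0 + v r)| ≤ δ := by
  obtain ⟨w, hw, hwr, hwA⟩ := h
  have hγw : γ w ≠ 0 := by
    intro h0
    rw [h0, abs_zero] at hwA
    linarith
  refine ⟨(W ⊓ LinearMap.ker γ).map (res j0), ?_, ?_⟩
  · refine lt_of_le_of_lt (Submodule.finrank_map_le _ _) ?_
    apply Submodule.finrank_lt_finrank_of_lt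
    refine lt_of_le_of_ne inf_le_left ?_
    intro heq
    have : w ∈ W ⊓ LinearMap.ker γ := by rw [heq]; exact hw
    exact hγw (LinearMap.mem_ker.1 (Submodule.mem_inf.1 this).2)
  · intro x hx hxγ
    refine ⟨res j0 (x - (γ x / γ w) • w), Submodule.mem_map_of_mem (Submodule.mem_inf.2
      ⟨W.sub_mem hx (W.smul_mem _ hw), ?_⟩), ?_⟩
    · rw [LinearMap.mem_ker, map_sub, map_smul, smul_eq_mul, div_mul_cancel₀ _ hγw, sub_self]
    · intro r
      rw [map_sub, map_smul, Pi.sub_apply, Pi.smul_apply, smul_eq_mul]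
      have e : res j0 x r - (0 + (res j0 x r - γ x / γ w * res j0 w r)) =
          γ x / γ w * res j0 w r := by ring
      rw [e, abs_mul, abs_div]
      have hlt : 0 < |γ w| := abs_pos.2 hγw
      have hδ0 : 0 ≤ δ := by
        have : 0 < log 2 := Real.log_pos (by norm_num)
        by_contra hc
        push Not at hc
        nlinarith
      calc |γ x| / |γ w| * |res j0 w r| ≤ |γ x| / |γ w| * 1 :=
            mul_le_mul_of_nonneg_left (hwr r) (by positivity)
        _ = |γ x| / |γ w| := mul_one _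
        _ ≤ δ := by
            rw [div_le_iff₀ hlt]
            nlinarith

end Pool.Agent.H883.ZP
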