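import Pool.Agent.H883.ZP.Spec

set_option autoImplicit false
set_option linter.unusedSectionVars false

/-!
# Points with given values of independent monomials
-/

namespace Pool.Agent.H883.ZP

open Module

lemma exists_right_inverse {κ' : Type} [Fintype κ'] [DecidableEq κ'] {n : ℕ}
    {E : κ' → Fin n → ℤ} (hE : LinearIndependent ℤ E) :
    ∃ (D : ℕ) (M : Fin n → κ' → ℤ), 0 < D ∧
      ∀ j k, ∑ l, E j l * M l k = if j = k then (D : ℤ) else 0 := by
  classical
  let A : Matrix κ' (Fin n) ℚ := fun k l => (E k l : ℚ)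
  have hA : LinearIndependent ℚ A :=
    (linearIndependent_algebraMap_comp_iff (R := ℤ) (S := ℚ) (v := E)).2 hE
  have hrank : A.rank = Fintype.card κ' := LinearIndependent.rank_matrix (M := A) hA
  have hsurj : LinearMap.range A.mulVecLin = ⊤ := by
    apply Submodule.eq_top_of_finrank_eq
    rw [Module.finrank_fintype_fun_eq_card]
    exact hrank
  have hv : ∀ k : κ', ∃ v : Fin n → ℚ, A.mulVec v = Pi.single k 1 := fun k =>
    LinearMap.range_eq_top.1 hsurj (Pi.single k 1)
  choose v hv using hv
  let D : ℕ := ∏ k, ∏ l, (v k l).den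
  have hD : 0 < D := Finset.prod_pos fun k _ => Finset.prod_pos fun l _ => (v k l).pos
  have hint : ∀ l k, ∃ w : ℤ, (w : ℚ) = D * v k l := by
    intro l k
    have h1 : (v k l).den ∣ D :=
      (Finset.dvd_prod_of_mem (fun l => (v k l).den) (Finset.mem_univ l)).trans
        (Finset.dvd_prod_of_mem (fun k => ∏ l, (v k l).den) (Finset.mem_univ k))
    obtain ⟨q, hq⟩ := h1
    refine ⟨q * (v k l).num, ?_⟩
    have h2 : (D : ℚ) = (v k l).den * q := by exact_mod_cast hq
    rw [h2]
    push_cast
    have h3 : ((v k l).den : ℚ) * v k l = (v k l).num := Rat.den_mul_eq_num _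
    rw [← h3]
    ring
  choose M hM using hint
  refine ⟨D, M, hD, ?_⟩
  intro j k
  have h1 : (∑ l, E j l * M l k : ℚ) = if j = k then (D : ℚ) else 0 := by
    have h2 := congrFun (hv k) j
    have h3 : A.mulVec (v k) j = ∑ l, (E j l : ℚ) * v k l := rfl
    rw [h3] at h2
    simp_rw [hM]
    calc ∑ l, (E j l : ℚ) * (D * v k l) = D * ∑ l, (E j l : ℚ) * v k l := by
          rw [Finset.mul_sum]
          exact Finset.sum_congr rfl fun l _ => by ring
      _ = _ := by
          rw [h2, Pi.single_apply]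
          split_ifs <;> simp
  exact_mod_cast h1

/-- independent monomials take all nonzero values at once -/
theorem exists_mon {L : Type} [Field L] [IsAlgClosed L] {κ' : Type} [Fintype κ'] [DecidableEq κ']
    {n : ℕ} {E : κ' → Fin n → ℤ} (hE : LinearIndependent ℤ E) (t : κ' → L) (ht : ∀ k, t k ≠ 0) :
    ∃ z : Fin n → L, (∀ l, z l ≠ 0) ∧ ∀ k, mon z (E k) = t k := by
  obtain ⟨D, M, hD, hM⟩ := exists_right_inverse hE
  have hroot : ∀ k, ∃ s : L, s ^ D = t k := fun k => IsAlgClosed.exists_pow_nat_eq (t k) hD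
  choose s hs using hroot
  have hs0 : ∀ k, s k ≠ 0 := by
    intro k h
    apply ht k
    rw [← hs k, h, zero_pow hD.ne']
  refine ⟨fun l => mon s (M l), fun l => Finset.prod_ne_zero_iff.2 fun k _ =>
    zpow_ne_zero _ (hs0 k), ?_⟩
  intro j
  rw [mon_mon s hs0]
  have h1 : (fun k => ∑ l, E j l * M l k) = fun k => if j = k then (D : ℤ) else 0 := by
    funext k
    exact hM j k
  rw [h1]
  unfold mon
  rw [Finset.prod_eq_single j]
  · show s j ^ (if j = j then (D : ℤ) else 0) = t j
    rw [if_pos rfl, zpow_natCast, hs]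
  · intro k _ hk
    show s k ^ (if j = k then (D : ℤ) else 0) = 1
    rw [if_neg (Ne.symm hk), zpow_zero]
  · intro h
    exact absurd (Finset.mem_univ _) h

end Pool.Agent.H883.ZP
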