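import Pool.Agent.H883.ZP.TwoLarge
import Pool.Graph.R_pool_sql_team_seeded_620a6dc7.H489ZP.Uni

set_option autoImplicit false
set_option linter.unusedSectionVars false

/-!
# Two numbers of large height whose local sizes are nearly related by a matrix: classification
-/

namespace Pool.Agent.H883.ZP

open NumberField Height IsDedekindDomain Pool.Agent.H489ZP

/-- the distance to the tropical line -/
noncomputable def nt (p q : ℝ) : ℝ := max (q - max p 0) (max (p - max q 0) (-max p q))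

lemma nt_iff {τ p q : ℝ} : NT τ p q ↔ nt p q ≤ τ := by
  unfold NT nt
  constructor
  · rintro ⟨h1, h2, h3⟩
    exact max_le (by linarith) (max_le (by linarith) (by linarith))
  · intro h
    have h1 := (le_max_left _ _).trans h
    have h2 := (le_max_right _ _).trans h
    have h3 := (le_max_left _ _).trans h2
    have h4 := (le_max_right _ _).trans h2
    exact ⟨by linarith, by linarith, by linarith⟩

lemma nt_le (p q : ℝ) : nt p q ≤ |p| + |q| := by
  have h1 := le_abs_self p
  have h2 := le_abs_self q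
  have h3 := neg_abs_le p
  have h4 := abs_nonneg p
  have h5 := abs_nonneg q
  have h6 := le_max_left p 0
  have h7 := le_max_right p 0
  have h8 := le_max_right q 0
  have h9 := le_max_left p q
  unfold nt
  exact max_le (by linarith) (max_le (by linarith) (by linarith))

lemma nt_scale {σ δ s P Q p q : ℝ} (h : NT σ P Q) (hs : 0 ≤ s) (hσ : 0 ≤ σ)
    (h1 : |P - s * p| ≤ δ) (h2 : |Q - s * q| ≤ δ) : nt p q * s ≤ σ + 2 * δ := by
  have hδ : 0 ≤ δ := (abs_nonneg _).trans h1
  rcases hs.eq_or_lt with h0 | hpos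
  · rw [← h0, mul_zero]
    linarith
  · have h3 := nt_iff.1 (h.scale hpos h1 h2)
    rwa [le_div_iff₀ hpos] at h3

lemma ray1 {X X1 Y Y1 ε e a b c d : ℝ} (hε : 0 ≤ ε) (hX : NT ε X X1) (hY : NT ε Y Y1)
    (h1 : |Y - (a * X + b * X1)| ≤ e) (h2 : |Y1 - (c * X + d * X1)| ≤ e) :
    nt (-a) (-c) * max 0 (-X) ≤ (1 + 2 * (|a| + |b| + |c| + |d|)) * ε + 2 * e := by
  have he : 0 ≤ e := (abs_nonneg _).trans h1
  have a0 := abs_nonneg a
  have b0 := abs_nonneg b
  have c0 := abs_nonneg c
  have d0 := abs_nonneg d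
  have pa : 0 ≤ |a| * ε := by positivity
  have pb : 0 ≤ |b| * ε := by positivity
  have pc : 0 ≤ |c| * ε := by positivity
  have pd : 0 ≤ |d| * ε := by positivity
  rcases lt_or_ge X (-ε) with hc | hc
  · have hXn : X ≤ 0 := by linarith
    have hX1 : |X1| ≤ ε := by
      obtain ⟨n1, n2, n3⟩ := hX
      rw [max_eq_right hXn] at n1
      rw [abs_le]
      refine ⟨?_, by linarith⟩
      by_contra hcon
      push Not at hcon
      have := max_lt hc hcon
      linarith
    rw [max_eq_right (by linarith : 0 ≤ -X)]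
    have k1 : |Y - -X * -a| ≤ (|b| + |d|) * ε + e := by
      have e1 : Y - -X * -a = (Y - (a * X + b * X1)) + b * X1 := by ring
      rw [e1]
      refine (abs_add_le _ _).trans ?_
      have : |b * X1| ≤ |b| * ε := by
        rw [abs_mul]
        exact mul_le_mul_of_nonneg_left hX1 b0
      linarith
    have k2 : |Y1 - -X * -c| ≤ (|b| + |d|) * ε + e := by
      have e1 : Y1 - -X * -c = (Y1 - (c * X + d * X1)) + d * X1 := by ring
      rw [e1]
      refine (abs_add_le _ _).trans ?_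
      have : |d * X1| ≤ |d| * ε := by
        rw [abs_mul]
        exact mul_le_mul_of_nonneg_left hX1 d0
      linarith
    have := nt_scale hY (by linarith : 0 ≤ -X) hε k1 k2
    linarith
  · have hm : max 0 (-X) ≤ ε := max_le hε (by linarith)
    have hm0 : 0 ≤ max 0 (-X) := le_max_left _ _
    have h3 := nt_le (-a) (-c)
    rw [abs_neg, abs_neg] at h3
    have h4 : nt (-a) (-c) * max 0 (-X) ≤ (|a| + |c|) * max 0 (-X) :=
      mul_le_mul_of_nonneg_right h3 hm0
    have h5 : (|a| + |c|) * max 0 (-X) ≤ (|a| + |c|) * ε :=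
      mul_le_mul_of_nonneg_left hm (by positivity)
    linarith

lemma ray3 {X X1 Y Y1 ε e a b c d : ℝ} (hε : 0 ≤ ε) (hX : NT ε X X1) (hY : NT ε Y Y1)
    (h1 : |Y - (a * X + b * X1)| ≤ e) (h2 : |Y1 - (c * X + d * X1)| ≤ e) :
    nt (a + b) (c + d) * max 0 X ≤ (1 + 2 * (|a| + |b| + |c| + |d|)) * ε + 2 * e := by
  have he : 0 ≤ e := (abs_nonneg _).trans h1
  have a0 := abs_nonneg a
  have b0 := abs_nonneg b
  have c0 := abs_nonneg c
  have d0 := abs_nonneg d
  have pa : 0 ≤ |a| * ε := by positivity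
  have pb : 0 ≤ |b| * ε := by positivity
  have pc : 0 ≤ |c| * ε := by positivity
  have pd : 0 ≤ |d| * ε := by positivity
  rcases lt_or_ge ε X with hc | hc
  · have hXp : 0 ≤ X := by linarith
    have hX1 : |X1 - X| ≤ ε := by
      obtain ⟨n1, n2, n3⟩ := hX
      rw [max_eq_left hXp] at n1
      have hX1p : 0 < X1 := by
        by_contra hcon
        push Not at hcon
        rw [max_eq_right hcon] at n2
        linarith
      rw [max_eq_left hX1p.le] at n2
      exact abs_le.2 ⟨by linarith, by linarith⟩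
    rw [max_eq_right hXp]
    have k1 : |Y - X * (a + b)| ≤ (|b| + |d|) * ε + e := by
      have e1 : Y - X * (a + b) = (Y - (a * X + b * X1)) + b * (X1 - X) := by ring
      rw [e1]
      refine (abs_add_le _ _).trans ?_
      have : |b * (X1 - X)| ≤ |b| * ε := by
        rw [abs_mul]
        exact mul_le_mul_of_nonneg_left hX1 b0
      linarith
    have k2 : |Y1 - X * (c + d)| ≤ (|b| + |d|) * ε + e := by
      have e1 : Y1 - X * (c + d) = (Y1 - (c * X + d * X1)) + d * (X1 - X) := by ring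
      rw [e1]
      refine (abs_add_le _ _).trans ?_
      have : |d * (X1 - X)| ≤ |d| * ε := by
        rw [abs_mul]
        exact mul_le_mul_of_nonneg_left hX1 d0
      linarith
    have := nt_scale hY hXp hε k1 k2
    linarith
  · have hm : max 0 X ≤ ε := max_le hε hc
    have hm0 : 0 ≤ max 0 X := le_max_left _ _
    have h3 := nt_le (a + b) (c + d)
    have h3' : nt (a + b) (c + d) ≤ |a| + |b| + |c| + |d| := by
      have := abs_add_le a b
      have := abs_add_le c d
      linarith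
    have h4 : nt (a + b) (c + d) * max 0 X ≤ (|a| + |b| + |c| + |d|) * max 0 X :=
      mul_le_mul_of_nonneg_right h3' hm0
    have h5 : (|a| + |b| + |c| + |d|) * max 0 X ≤ (|a| + |b| + |c| + |d|) * ε :=
      mul_le_mul_of_nonneg_left hm (by positivity)
    linarith

section

variable {K : Type*} [Field K] [NumberField K]

lemma AL.mono {x y : K} {a b c d : ℝ} {err : AbsoluteValue K ℝ → ℝ} {Et Et' : ℝ}
    (h : AL x y a b c d err Et) (hE : Et ≤ Et') : AL x y a b c d err Et' :=
  ⟨h.i1, h.i2, h.f1, h.f2, fun T => (h.tot T).trans hE⟩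

lemma AL.swap {x y : K} {a b c d : ℝ} {err : AbsoluteValue K ℝ → ℝ} {Et : ℝ}
    (h : AL x y a b c d err Et) : AL x (1 - y) c d a b err Et :=
  ⟨h.i2, fun v => by rw [sub_sub_cancel]; exact h.i1 v, h.f2,
    fun v => by rw [sub_sub_cancel]; exact h.f1 v, h.tot⟩

lemma AL.inv {x y : K} (hy0 : y ≠ 0) (hy1 : 1 - y ≠ 0) {a b c d : ℝ}
    {err : AbsoluteValue K ℝ → ℝ} {Et : ℝ}
    (h : AL x y a b c d err Et) :
    AL x y⁻¹ (-a) (-b) (c - a) (d - b) (fun f => 2 * err f) (2 * Et) := by
  have e : 1 - y⁻¹ = -((1 - y) * y⁻¹) := by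
    field_simp
    ring
  have k1 : ∀ f : AbsoluteValue K ℝ,
      |Real.log (f y) - (a * Real.log (f x) + b * Real.log (f (1 - x)))| ≤ err f →
      |Real.log (f y⁻¹) - (-a * Real.log (f x) + -b * Real.log (f (1 - x)))| ≤ 2 * err f := by
    intro f hf
    have he : 0 ≤ err f := (abs_nonneg _).trans hf
    rw [map_inv₀, Real.log_inv]
    have e1 : -Real.log (f y) - (-a * Real.log (f x) + -b * Real.log (f (1 - x))) =
      -(Real.log (f y) - (a * Real.log (f x) + b * Real.log (f (1 - x)))) := by ring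
    rw [e1, abs_neg]
    linarith
  have k2 : ∀ f : AbsoluteValue K ℝ,
      |Real.log (f y) - (a * Real.log (f x) + b * Real.log (f (1 - x)))| ≤ err f →
      |Real.log (f (1 - y)) - (c * Real.log (f x) + d * Real.log (f (1 - x)))| ≤ err f →
      |Real.log (f (1 - y⁻¹)) - ((c - a) * Real.log (f x) + (d - b) * Real.log (f (1 - x)))| ≤
        2 * err f := by
    intro f hf hf2
    rw [e, AbsoluteValue.map_neg, map_mul, map_inv₀, Real.log_mul (f.pos hy1).ne'
      (inv_pos.2 (f.pos hy0)).ne', Real.log_inv]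
    have e1 : Real.log (f (1 - y)) + -Real.log (f y) -
      ((c - a) * Real.log (f x) + (d - b) * Real.log (f (1 - x))) =
      (Real.log (f (1 - y)) - (c * Real.log (f x) + d * Real.log (f (1 - x)))) -
      (Real.log (f y) - (a * Real.log (f x) + b * Real.log (f (1 - x)))) := by ring
    rw [e1]
    refine (abs_sub _ _).trans ?_
    linarith
  refine ⟨fun v => k1 v.1 (h.i1 v), fun v => k2 v.1 (h.i1 v) (h.i2 v), fun v => k1 v.1 (h.f1 v),
    fun v => k2 v.1 (h.f1 v) (h.f2 v), fun T => ?_⟩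
  rw [PS_smul]
  exact mul_le_mul_of_nonneg_left (h.tot T) zero_le_two

/-- the sizes at all places give the three conditions -/
theorem cls' {x y : K} (hx0 : x ≠ 0) (hx1 : 1 - x ≠ 0) (hy0 : y ≠ 0) (hy1 : 1 - y ≠ 0)
    {a b c d : ℝ} {err : AbsoluteValue K ℝ → ℝ} {Et : ℝ} (h : AL x y a b c d err Et) {τ : ℝ}
    (hτ1 : (1 + 2 * (|a| + |b| + |c| + |d|)) * (Module.finrank ℚ K * Real.log 2) + 2 * Et ≤
      τ * logHeight₁ x)
    (hτ2 : (1 + 2 * (|a| + |b| + |c| + |d|)) * (Module.finrank ℚ K * Real.log 2) + 2 * Et ≤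
      τ * logHeight₁ (1 - x)) (hp : 0 < logHeight₁ x) (hp1 : 0 < logHeight₁ (1 - x)) :
    Cls τ a b c d := by
  classical
  have hl : 0 < Real.log 2 := Real.log_pos (by norm_num)
  obtain ⟨T, hTT⟩ := exists_T (K := K) {x, 1 - x} (by
    intro z hz
    simp only [Finset.mem_insert, Finset.mem_singleton] at hz
    rcases hz with rfl | rfl
    · exact hx0
    · exact hx1)
  have t1 := hTT x (by simp)
  have t2 := hTT (1 - x) (by simp)
  set S := |a| + |b| + |c| + |d| with hS
  have main : ∀ (φ : AbsoluteValue K ℝ → ℝ),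
      (∀ v : InfinitePlace K, φ v.1 ≤ (1 + 2 * S) * Real.log 2 + 2 * err v.1) →
      (∀ v : FinitePlace K, φ v.1 ≤ (1 + 2 * S) * 0 + 2 * err v.1) →
      PS T φ ≤ (1 + 2 * S) * (Module.finrank ℚ K * Real.log 2) + 2 * Et := by
    intro φ h1 h2
    have h3 := PS_le T φ (fun f => 2 * err f) ((1 + 2 * S) * Real.log 2) (fun v => by
      have := h1 v
      linarith) (fun v => by
      have := h2 v
      linarith)
    rw [PS_smul] at h3
    have h4 := h.tot T
    linarith
  have hnaX : ∀ v : FinitePlace K, NT 0 (Real.log (v.1 x)) (Real.log (v.1 (1 - x))) := fun v =>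
    nt_na (fun a b => v.add_le a b) hx0 hx1
  have hnaY : ∀ v : FinitePlace K, NT 0 (Real.log (v.1 y)) (Real.log (v.1 (1 - y))) := fun v =>
    nt_na (fun a b => v.add_le a b) hy0 hy1
  have hS2 : |b| + |a| + |d| + |c| = S := by rw [hS]; ring
  refine ⟨nt_iff.2 ?_, nt_iff.2 ?_, nt_iff.2 ?_⟩
  · have h1 := main (fun f => nt (-a) (-c) * max 0 (-Real.log (f x)))
      (fun v => ray1 hl.le (nt_arch v.1 hx0 hx1) (nt_arch v.1 hy0 hy1) (h.i1 v) (h.i2 v))
      (fun v => ray1 le_rfl (hnaX v) (hnaY v) (h.f1 v) (h.f2 v))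
    rw [PS_smul, PS_neg T t1] at h1
    exact le_of_mul_le_mul_right (h1.trans hτ1) hp
  · have h1 := main (fun f => nt (-b) (-d) * max 0 (-Real.log (f (1 - x))))
      (fun v => by
        have i1 := h.i1 v
        have i2 := h.i2 v
        rw [add_comm (a * _)] at i1
        rw [add_comm (c * _)] at i2
        have := ray1 hl.le (nt_arch v.1 hx0 hx1).swap (nt_arch v.1 hy0 hy1) i1 i2
        rw [hS2] at this
        exact this)
      (fun v => by
        have i1 := h.f1 v
        have i2 := h.f2 v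
        rw [add_comm (a * _)] at i1
        rw [add_comm (c * _)] at i2
        have := ray1 le_rfl (hnaX v).swap (hnaY v) i1 i2
        rw [hS2] at this
        exact this)
    rw [PS_smul, PS_neg T t2] at h1
    exact le_of_mul_le_mul_right (h1.trans hτ2) hp1
  · have h1 := main (fun f => nt (a + b) (c + d) * max 0 (Real.log (f x)))
      (fun v => ray3 hl.le (nt_arch v.1 hx0 hx1) (nt_arch v.1 hy0 hy1) (h.i1 v) (h.i2 v))
      (fun v => ray3 le_rfl (hnaX v) (hnaY v) (h.f1 v) (h.f2 v))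
    rw [PS_smul, PS_pos T t1] at h1
    exact le_of_mul_le_mul_right (h1.trans hτ1) hp

/-- one of the six cases -/
lemma one_case' {x y : K} (hx0 : x ≠ 0) (hx1 : 1 - x ≠ 0) (hy0 : y ≠ 0) (hy1 : 1 - y ≠ 0)
    {a b c d : ℝ} {err : AbsoluteValue K ℝ → ℝ} {Et E : ℝ} (hE0 : 0 ≤ E)
    (h : AL x y a b c d err Et) {τ S : ℝ} (hS0 : 0 ≤ S)
    (hEt : Et ≤ 2 * ((1 + S) * E * Module.finrank ℚ K))
    (hτ : τ = (1 + 2 * S) * (7 / 10) / 10000)
    (hS : S ≤ 2 * (|a| + |b| + |c| + |d|)) (hC : Cls τ a b c d) (hG : Good τ a b c d)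
    (hLy : logHeight₁ x ≤ logHeight₁ y + 2 * (Module.finrank ℚ K * Real.log 2))
    (hL : Module.finrank ℚ K * (100000 * (1 + E)) < logHeight₁ x) : y = x := by
  by_contra hxy
  have hD : (0 : ℝ) < Module.finrank ℚ K := by exact_mod_cast Module.finrank_pos
  have hτ0 : 0 ≤ τ := by rw [hτ]; positivity
  have hdiag := hG.diag hτ0 hC.2.2
  obtain ⟨g1, g2, g3, g4⟩ := hG
  have e1 : |d| ≤ |a| + 3 * τ := by
    have : |d| ≤ |a| + |a - d| := by
      have e : d = a - (a - d) := by ring
      calc |d| = |a - (a - d)| := by rw [← e]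
        _ ≤ |a| + |a - d| := abs_sub _ _
    linarith
  have a0 := abs_nonneg a
  have hSa : S ≤ 401 / 100 * |a| + 1 / 100 := by linarith
  refine core_contra' hx0 hx1 hy0 hy1 hxy (E := 9 * E) (by positivity) (h.mono ?_) hτ0 g1 g2 hdiag
    g3 (by linarith) hLy ?_
  · refine hEt.trans ?_
    have h1 : 2 * (1 + S) ≤ 9 * (1 + |a|) := by linarith
    have h2 : (2 * (1 + S)) * (E * Module.finrank ℚ K) ≤ (9 * (1 + |a|)) * (E * Module.finrank ℚ K) :=
      mul_le_mul_of_nonneg_right h1 (by positivity)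
    linarith
  · have h1 : Module.finrank ℚ K * (10000 * (1 + 9 * E)) ≤ Module.finrank ℚ K * (100000 * (1 + E)) :=
      mul_le_mul_of_nonneg_left (by linarith) hD.le
    linarith

theorem uniform_le' {x y : K} (hx0 : x ≠ 0) (hx1 : 1 - x ≠ 0) (hy0 : y ≠ 0) (hy1 : 1 - y ≠ 0)
    {a b c d : ℝ} {err : AbsoluteValue K ℝ → ℝ} {E : ℝ} (hE0 : 0 ≤ E)
    (h : AL x y a b c d err ((1 + (|a| + |b| + |c| + |d|)) * E * Module.finrank ℚ K))
    (hle : logHeight₁ x ≤ logHeight₁ y)
    (hL : Module.finrank ℚ K * (100000 * (1 + E)) < logHeight₁ x) :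
    y = x ∨ 1 - y = x ∨ y⁻¹ = x ∨ (1 - y)⁻¹ = x ∨ 1 - y⁻¹ = x ∨ 1 - (1 - y)⁻¹ = x := by
  have hD : (0 : ℝ) < Module.finrank ℚ K := by exact_mod_cast Module.finrank_pos
  have hl : 0 < Real.log 2 := Real.log_pos (by norm_num)
  have hl1 : Real.log 2 < 7 / 10 := by linarith [Real.log_two_lt_d9]
  set S := |a| + |b| + |c| + |d| with hS
  have a0 := abs_nonneg a
  have b0 := abs_nonneg b
  have c0 := abs_nonneg c
  have d0 := abs_nonneg d
  have hS0 : 0 ≤ S := by positivity
  set D : ℝ := (Module.finrank ℚ K : ℝ) with hDdef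
  set τ := (1 + 2 * S) * (7 / 10) / 10000 with hτ
  have hτ0 : 0 ≤ τ := by positivity
  have h1 := hgt_le' hx0 hx1 hy0 h.i1 h.f1 h.tot
  have h2 := height_one_sub x
  have h2' := height_one_sub' x
  have hED : 0 ≤ E * D := by positivity
  have hDL : D * (100000 * (1 + E)) = 100000 * D + 100000 * (E * D) := by ring
  have hLpos : 0 < logHeight₁ x := by linarith
  have hDl1 : D * Real.log 2 ≤ D * (7 / 10) := mul_le_mul_of_nonneg_left hl1.le hD.le
  have hDl : D * Real.log 2 ≤ logHeight₁ x / 2000 := by linarith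
  have hDl0 : 0 ≤ D * Real.log 2 := by positivity
  have hL1pos : 0 < logHeight₁ (1 - x) := by linarith
  have hnum : ∀ H : ℝ, 90000 * D + 90000 * (E * D) ≤ H →
      (1 + 2 * S) * (D * Real.log 2) + 2 * ((1 + S) * E * D) ≤ τ * H := by
    intro H hH
    have e1 : (1 + 2 * S) * (D * Real.log 2) ≤ (1 + 2 * S) * (D * (7 / 10)) :=
      mul_le_mul_of_nonneg_left hDl1 (by positivity)
    have e2 : τ * (90000 * D + 90000 * (E * D)) ≤ τ * H := mul_le_mul_of_nonneg_left hH hτ0
    have e3 : τ * (90000 * D + 90000 * (E * D)) =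
        (1 + 2 * S) * (63 / 10 * D) + (1 + 2 * S) * (63 / 10 * (E * D)) := by
      rw [hτ]; ring
    have e4 : 2 * ((1 + S) * E * D) ≤ (1 + 2 * S) * (2 * (E * D)) := by
      have : 0 ≤ S * (E * D) := by positivity
      linarith
    have e5 : 0 ≤ (1 + 2 * S) * (E * D) := by positivity
    have e6 : 0 ≤ (1 + 2 * S) * D := by positivity
    linarith
  have hC : Cls τ a b c d := cls' hx0 hx1 hy0 hy1 h (hnum _ (by linarith)) (hnum _ (by linarith))
    hLpos hL1pos
  have hEt : (1 + S) * E * D ≤ (1 + S) * (logHeight₁ x / 100000) := by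
    rw [mul_assoc]
    exact mul_le_mul_of_nonneg_left (by linarith) (by positivity)
  have hS4 : 4 / 10 ≤ S := by
    by_contra hcon
    push Not at hcon
    have e1 : 2 * |b| * logHeight₁ (1 - x) ≤ 2 * |b| * (logHeight₁ x + logHeight₁ x / 2000) :=
      mul_le_mul_of_nonneg_left (by linarith) (by positivity)
    have e2 : logHeight₁ x * (1 - |a| - 2 * |b| * (1 + 1 / 2000) - (1 + S) / 100000) ≤ 0 := by
      nlinarith
    have e3 : 0 < 1 - |a| - 2 * |b| * (1 + 1 / 2000) - (1 + S) / 100000 := by linarith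
    nlinarith
  have hy1' : 1 - (1 - y) ≠ 0 := by rwa [sub_sub_cancel]
  have hi1 : 1 - y⁻¹ ≠ 0 := one_sub_inv_ne hy0 hy1
  have hi0 : y⁻¹ ≠ 0 := inv_ne_zero hy0
  have hj0 : (1 - y)⁻¹ ≠ 0 := inv_ne_zero hy1
  have hj1 : 1 - (1 - y)⁻¹ ≠ 0 := one_sub_inv_ne hy1 hy1'
  have k1 := height_one_sub' y
  have k2 := height_one_sub' y⁻¹
  have k3 := height_one_sub' (1 - y)⁻¹
  have k4 : logHeight₁ (y⁻¹) = logHeight₁ y := logHeight₁_inv y
  have k5 : logHeight₁ ((1 - y)⁻¹) = logHeight₁ (1 - y) := logHeight₁_inv _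
  have n1 : |-a| = |a| := abs_neg a
  have n2 : |-b| = |b| := abs_neg b
  have n3 : |-c| = |c| := abs_neg c
  have n4 : |-d| = |d| := abs_neg d
  have t1 : |c| ≤ |a| + |c - a| := by
    calc |c| = |a + (c - a)| := by congr 1; ring
      _ ≤ _ := abs_add_le _ _
  have t2 : |d| ≤ |b| + |d - b| := by
    calc |d| = |b + (d - b)| := by congr 1; ring
      _ ≤ _ := abs_add_le _ _
  have t3 : |a| ≤ |c| + |a - c| := by
    calc |a| = |c + (a - c)| := by congr 1; ring
      _ ≤ _ := abs_add_le _ _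
  have t4 : |b| ≤ |d| + |b - d| := by
    calc |b| = |d + (b - d)| := by congr 1; ring
      _ ≤ _ := abs_add_le _ _
  have u1 := abs_nonneg (c - a)
  have u2 := abs_nonneg (d - b)
  have u3 := abs_nonneg (a - c)
  have u4 := abs_nonneg (b - d)
  have z1 : 0 ≤ (1 + S) * E * D := by positivity
  have w1 : (1 + S) * E * D ≤ 2 * ((1 + S) * E * D) := by linarith
  have w2 : 2 * ((1 + S) * E * D) ≤ 2 * ((1 + S) * E * D) := le_rfl
  rcases classify hτ0 hC (by rw [← hS]; linarith) with g | g | g | g | g | g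
  · left
    exact one_case' hx0 hx1 hy0 hy1 hE0 h hS0 w1 hτ (by rw [hS]; linarith) hC g (by linarith) hL
  · right; left
    exact one_case' hx0 hx1 hy1 hy1' hE0 h.swap hS0 w1 hτ (by rw [hS]; linarith) hC.swap g
      (by linarith) hL
  · right; right; left
    exact one_case' hx0 hx1 hi0 hi1 hE0 (h.inv hy0 hy1) hS0 w2 hτ (by rw [hS, n1, n2]; linarith)
      hC.inv g (by linarith) hL
  · right; right; right; left
    exact one_case' hx0 hx1 hj0 hj1 hE0 (h.swap.inv hy1 hy1') hS0 w2 hτ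
      (by rw [hS, n3, n4]; linarith) hC.swap.inv g (by linarith) hL
  · right; right; right; right; left
    exact one_case' hx0 hx1 hi1 (by rwa [sub_sub_cancel]) hE0 (h.inv hy0 hy1).swap hS0 w2 hτ
      (by rw [hS, n1, n2]; linarith) hC.inv.swap g (by linarith) hL
  · right; right; right; right; right
    exact one_case' hx0 hx1 hj1 (by rwa [sub_sub_cancel]) hE0 (h.swap.inv hy1 hy1').swap hS0 w2 hτ
      (by rw [hS, n3, n4]; linarith) hC.swap.inv.swap g (by linarith) hL

end

end Pool.Agent.H883.ZP
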