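import Pool.Agent.H883.ZP.Shift
import Pool.Agent.H883.ZP.TwoLarge2

set_option autoImplicit false
set_option linter.unusedSectionVars false

/-!
# Pairs of coordinates of large height, and the theorem over number fields
-/

namespace Pool.Agent.H883.ZP

open Real NumberField Height Module Finset
open Pool.Agent.H489ZP (height_one_sub height_one_sub' PS PS_le PS_add PS_smul PS_pos PS_neg
  exists_T nt_arch nt_na NT)

variable {ι : Type} [Fintype ι] [DecidableEq ι]

/-- the two logarithms of one coordinate -/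
def pr (i : ι) : (ι × Bool → ℝ) →ₗ[ℝ] ℝ × ℝ where
  toFun x := (x (i, false), x (i, true))
  map_add' _ _ := rfl
  map_smul' _ _ := rfl

/-- the four logarithms of two coordinates -/
def pr2 (i j : ι) : (ι × Bool → ℝ) →ₗ[ℝ] (ℝ × ℝ) × (ℝ × ℝ) := (pr i).prod (pr j)

lemma exists_rel {W : Submodule ℝ (ι × Bool → ℝ)} {i : ι} (h : finrank ℝ (W.map (pr i)) ≤ 1) :
    ∃ α β : ℝ, (α ≠ 0 ∨ β ≠ 0) ∧ ∀ x ∈ W, α * x (i, false) + β * x (i, true) = 0 := by
  have hlt : W.map (pr i) < ⊤ := by
    rw [lt_top_iff_ne_top]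
    intro htop
    rw [htop, finrank_top, Module.finrank_prod, Module.finrank_self] at h
    omega
  obtain ⟨f, hf0, hf⟩ := Submodule.exists_le_ker_of_lt_top _ hlt
  refine ⟨f (1, 0), f (0, 1), ?_, ?_⟩
  · by_contra hcon
    push Not at hcon
    apply hf0
    ext
    · simpa using hcon.1
    · simpa using hcon.2
  · intro x hx
    have h1 := LinearMap.mem_ker.1 (hf (Submodule.mem_map_of_mem hx))
    have h2 : pr i x = x (i, false) • ((1 : ℝ), (0 : ℝ)) + x (i, true) • ((0 : ℝ), (1 : ℝ)) := by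
      show (x (i, false), x (i, true)) = _
      simp
    rw [h2, map_add, map_smul, map_smul, smul_eq_mul, smul_eq_mul] at h1
    linarith

lemma exists_mat {W : Submodule ℝ (ι × Bool → ℝ)} {i j : ι}
    (h2 : finrank ℝ (W.map (pr2 i j)) ≤ 2) (h1 : ¬ finrank ℝ (W.map (pr i)) ≤ 1) :
    ∃ a b c d : ℝ, ∀ x ∈ W, x (j, false) = a * x (i, false) + b * x (i, true) ∧
      x (j, true) = c * x (i, false) + d * x (i, true) := by
  set p := W.map (pr2 i j) with hp
  let f : p →ₗ[ℝ] ℝ × ℝ := (LinearMap.fst ℝ (ℝ × ℝ) (ℝ × ℝ)).comp p.subtype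
  have hrange : LinearMap.range f = W.map (pr i) := by
    ext z
    rw [LinearMap.mem_range, Submodule.mem_map]
    constructor
    · rintro ⟨⟨w, hw⟩, rfl⟩
      obtain ⟨x, hx, rfl⟩ := Submodule.mem_map.1 hw
      exact ⟨x, hx, rfl⟩
    · rintro ⟨x, hx, rfl⟩
      exact ⟨⟨pr2 i j x, Submodule.mem_map_of_mem hx⟩, rfl⟩
  have hr : 2 ≤ finrank ℝ (LinearMap.range f) := by rw [hrange]; omega
  have hrn := LinearMap.finrank_range_add_finrank_ker f
  have hk : finrank ℝ (LinearMap.ker f) = 0 := by omega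
  have hinj : Function.Injective f := by
    rw [← LinearMap.ker_eq_bot]
    exact Submodule.finrank_eq_zero.1 hk
  have hsurj : Function.Surjective f := by
    rw [← LinearMap.range_eq_top]
    apply Submodule.eq_top_of_finrank_eq
    have := Submodule.finrank_le (LinearMap.range f)
    rw [Module.finrank_prod, Module.finrank_self] at this ⊢
    omega
  let e := LinearEquiv.ofBijective f ⟨hinj, hsurj⟩
  let g : ℝ × ℝ →ₗ[ℝ] ℝ × ℝ :=
    ((LinearMap.snd ℝ (ℝ × ℝ) (ℝ × ℝ)).comp p.subtype).comp (e.symm : ℝ × ℝ →ₗ[ℝ] p)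
  refine ⟨(g (1, 0)).1, (g (0, 1)).1, (g (1, 0)).2, (g (0, 1)).2, ?_⟩
  intro x hx
  have h3 : g (pr i x) = pr j x := by
    have h4 : e.symm (pr i x) = ⟨pr2 i j x, Submodule.mem_map_of_mem hx⟩ := by
      rw [LinearEquiv.symm_apply_eq]
      rfl
    show ((LinearMap.snd ℝ (ℝ × ℝ) (ℝ × ℝ)).comp p.subtype) (e.symm (pr i x)) = _
    rw [h4]
    rfl
  have h5 : pr i x = x (i, false) • ((1 : ℝ), (0 : ℝ)) + x (i, true) • ((0 : ℝ), (1 : ℝ)) := by
    show (x (i, false), x (i, true)) = _
    simp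
  rw [h5, map_add, map_smul, map_smul] at h3
  have h6 := congrArg Prod.fst h3
  have h7 := congrArg Prod.snd h3
  simp only [Prod.fst_add, Prod.snd_add, Prod.smul_fst, Prod.smul_snd, smul_eq_mul] at h6 h7
  have h8 : (pr j x).1 = x (j, false) := rfl
  have h9 : (pr j x).2 = x (j, true) := rfl
  rw [h8] at h6
  rw [h9] at h7
  constructor <;> linarith

section

variable {K : Type} [Field K] [NumberField K]

lemma PS_mono_set {T T' : Finset (FinitePlace K)} (h : T ⊆ T') {φ : AbsoluteValue K ℝ → ℝ}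
    (hφ : ∀ v : FinitePlace K, 0 ≤ φ v.1) : PS T φ ≤ PS T' φ := by
  unfold PS
  have := Finset.sum_le_sum_of_subset_of_nonneg (f := fun v : FinitePlace K => φ v.1) h
    (fun v _ _ => hφ v)
  linarith

lemma PS_abs_le {z : K} (hz : z ≠ 0) (T : Finset (FinitePlace K)) :
    PS T (fun f => |log (f z)|) ≤ 2 * logHeight₁ z := by
  classical
  obtain ⟨T0, hT0⟩ := exists_T (K := K) {z} (by
    intro w hw
    rw [Finset.mem_singleton] at hw
    rw [hw]
    exact hz)
  have h1 : ∀ v : FinitePlace K, v ∉ T ∪ T0 → v z = 1 := by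
    intro v hv
    apply hT0 z (by simp) v
    intro h
    exact hv (Finset.mem_union_right _ h)
  refine (PS_mono_set (Finset.subset_union_left (s₂ := T0)) (fun v => abs_nonneg _)).trans ?_
  have h2 : (fun f : AbsoluteValue K ℝ => |log (f z)|) =
      fun f => max 0 (log (f z)) + max 0 (-log (f z)) := by
    funext f
    rcases le_total 0 (log (f z)) with h | h
    · rw [abs_of_nonneg h, max_eq_right h, max_eq_left (by linarith)]; ring
    · rw [abs_of_nonpos h, max_eq_left h, max_eq_right (by linarith)]; ring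
  rw [h2, PS_add, PS_pos _ h1, PS_neg _ h1]
  linarith

/-- the places -/
lemma inf_mem {u : ι → K} {s : ι × Bool → K} {W : Submodule ℝ (ι × Bool → ℝ)}
    (hσ : ∀ σ : K →+* ℂ, lc u σ - ls (fun x => ‖σ x‖) s ∈ W) (v : InfinitePlace K) :
    lv (fun x => v.1 x) u - ls (fun x => v.1 x) s ∈ W := by
  have h := hσ v.embedding
  have e : (fun x : K => ‖v.embedding x‖) = fun x => v.1 x := by
    funext x
    exact InfinitePlace.norm_embedding_eq v x
  unfold lc at h
  rw [e] at h
  exact h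

/-- a relation between the two logarithms of a coordinate bounds its height -/
lemma dep_height' {x : K} (hx0 : x ≠ 0) (hx1 : 1 - x ≠ 0) {s0 s1 : K} (hs0 : s0 ≠ 0)
    (hs1 : s1 ≠ 0) {Bs : ℝ} (hB0 : logHeight₁ s0 ≤ finrank ℚ K * Bs)
    (hB1 : logHeight₁ s1 ≤ finrank ℚ K * Bs) {α β : ℝ} (hne : α ≠ 0 ∨ β ≠ 0)
    (h1 : ∀ v : InfinitePlace K, α * (log (v.1 x) - log (v.1 s0)) +
      β * (log (v.1 (1 - x)) - log (v.1 s1)) = 0)
    (h2 : ∀ v : FinitePlace K, α * (log (v.1 x) - log (v.1 s0)) +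
      β * (log (v.1 (1 - x)) - log (v.1 s1)) = 0) :
    logHeight₁ x ≤ finrank ℚ K * (4 * Bs + 3) := by
  classical
  have hl : 0 < Real.log 2 := Real.log_pos (by norm_num)
  have hl1 : Real.log 2 < 1 := by linarith [Real.log_two_lt_d9]
  have hD : (0 : ℝ) < finrank ℚ K := by exact_mod_cast finrank_pos
  -- one direction
  have key : ∀ {x s0 s1 : K}, x ≠ 0 → 1 - x ≠ 0 → s0 ≠ 0 → s1 ≠ 0 →
      logHeight₁ s0 ≤ finrank ℚ K * Bs → logHeight₁ s1 ≤ finrank ℚ K * Bs →
      ∀ {α β : ℝ}, 0 < |α| → |β| ≤ |α| →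
      (∀ v : InfinitePlace K, α * (log (v.1 x) - log (v.1 s0)) +
        β * (log (v.1 (1 - x)) - log (v.1 s1)) = 0) →
      (∀ v : FinitePlace K, α * (log (v.1 x) - log (v.1 s0)) +
        β * (log (v.1 (1 - x)) - log (v.1 s1)) = 0) →
      logHeight₁ x ≤ finrank ℚ K * (4 * Bs + 1) := by
    intro x s0 s1 hx0 hx1 hs0 hs1 hB0 hB1 α β hα hβ h1 h2
    obtain ⟨T, hTT⟩ := exists_T (K := K) {x} (by
      intro z hz
      rw [Finset.mem_singleton] at hz
      rw [hz]
      exact hx0)
    have t1 := hTT x (by simp)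
    -- the local inequality
    have loc : ∀ {X X1 p0 p1 ε : ℝ}, 0 ≤ ε → NT ε X X1 → α * (X - p0) + β * (X1 - p1) = 0 →
        max 0 (-X) ≤ |p0| + |p1| + ε := by
      intro X X1 p0 p1 ε hε hX h
      have a0 := abs_nonneg p0
      have a1 := abs_nonneg p1
      rcases lt_or_ge X (-ε) with hc | hc
      · have hXn : X ≤ 0 := by linarith
        have hX1 : |X1| ≤ ε := by
          obtain ⟨n1, n2, n3⟩ := hX
          rw [max_eq_right hXn] at n1
          rw [abs_le]
          refine ⟨?_, by linarith⟩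
          by_contra hcon
          push Not at hcon
          have := max_lt hc hcon
          linarith
        rw [max_eq_right (by linarith : 0 ≤ -X)]
        have e1 : |α| * |X - p0| = |β| * |X1 - p1| := by
          rw [← abs_mul, ← abs_mul, show α * (X - p0) = -(β * (X1 - p1)) by linarith, abs_neg]
        have e2 : |α| * |X - p0| ≤ |α| * |X1 - p1| := by
          rw [e1]
          exact mul_le_mul_of_nonneg_right hβ (abs_nonneg _)
        have e3 := le_of_mul_le_mul_left e2 hα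
        have e4 : |X1 - p1| ≤ |X1| + |p1| := abs_sub _ _
        have e5 := neg_abs_le (X - p0)
        have e6 := neg_abs_le p0
        linarith
      · exact max_le (by positivity) (by linarith)
    have h3 := PS_le T (fun f => max 0 (-log (f x))) (fun f => |log (f s0)| + |log (f s1)|)
      (log 2) (fun v => loc hl.le (nt_arch v.1 hx0 hx1) (h1 v)) (fun v => by
        have := loc (le_refl (0 : ℝ)) (nt_na (fun a b => v.add_le a b) hx0 hx1) (h2 v)
        rw [add_zero] at this
        exact this)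
    rw [PS_neg T t1, PS_add] at h3
    have h4 := PS_abs_le hs0 T
    have h5 := PS_abs_le hs1 T
    have h6 : (finrank ℚ K : ℝ) * log 2 ≤ finrank ℚ K * 1 :=
      mul_le_mul_of_nonneg_left hl1.le hD.le
    linarith
  rcases le_total |β| |α| with h | h
  · have hα : 0 < |α| := by
      rcases hne with h0 | h0
      · exact abs_pos.2 h0
      · exact lt_of_lt_of_le (abs_pos.2 h0) h
    have := key hx0 hx1 hs0 hs1 hB0 hB1 hα h h1 h2
    linarith
  · have hβ : 0 < |β| := by
      rcases hne with h0 | h0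
      · exact lt_of_lt_of_le (abs_pos.2 h0) h
      · exact abs_pos.2 h0
    have := key (x := 1 - x) (α := β) (β := α) hx1 (by rwa [sub_sub_cancel]) hs1 hs0 hB1 hB0 hβ h
      (fun v => by rw [sub_sub_cancel]; linarith [h1 v])
      (fun v => by rw [sub_sub_cancel]; linarith [h2 v])
    have h3 := height_one_sub' x
    have h6 : (finrank ℚ K : ℝ) * log 2 ≤ finrank ℚ K * 1 :=
      mul_le_mul_of_nonneg_left hl1.le hD.le
    linarith

/-- the six relations between two coordinates -/
noncomputable def sixP (i j : ι) : MvPolynomial ι ℤ :=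
  (MvPolynomial.X j - MvPolynomial.X i) * (1 - MvPolynomial.X j - MvPolynomial.X i) *
  (MvPolynomial.X i * MvPolynomial.X j - 1) *
  (MvPolynomial.X i * (1 - MvPolynomial.X j) - 1) *
  (MvPolynomial.X j - 1 - MvPolynomial.X i * MvPolynomial.X j) *
  ((1 - MvPolynomial.X j) - 1 - MvPolynomial.X i * (1 - MvPolynomial.X j))

lemma sixP_ne {i j : ι} (h : i ≠ j) : sixP i j ≠ 0 := by
  intro h0
  have h1 := congrArg (MvPolynomial.aeval (fun l => if l = i then (2 : ℤ) else 5)) h0
  unfold sixP at h1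
  simp only [map_mul, map_sub, map_one, MvPolynomial.aeval_X, map_zero, if_neg h.symm] at h1
  norm_num at h1

lemma sixP_eval {F : Type*} [Field F] (u : ι → F) {i j : ι} (hj0 : u j ≠ 0)
    (hj1 : 1 - u j ≠ 0)
    (h : u j = u i ∨ 1 - u j = u i ∨ (u j)⁻¹ = u i ∨ (1 - u j)⁻¹ = u i ∨ 1 - (u j)⁻¹ = u i ∨
      1 - (1 - u j)⁻¹ = u i) : MvPolynomial.aeval u (sixP i j) = 0 := by
  unfold sixP
  simp only [map_mul, map_sub, map_one, MvPolynomial.aeval_X]
  rcases h with h | h | h | h | h | h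
  · rw [h]; ring
  · rw [h]; ring
  · rw [← h]; field_simp; ring
  · rw [← h]; field_simp; ring
  · rw [← h]; field_simp; ring
  · rw [← h]; field_simp; ring

/-- a pair of coordinates of large height -/
lemma pair_large {u : ι → K} (hu0 : ∀ j, u j ≠ 0) (hu1 : ∀ j, 1 - u j ≠ 0)
    {s : ι × Bool → K} (hs : ∀ r, s r ≠ 0) {Bs : ℝ} (hBs0 : 0 ≤ Bs)
    (hsB : ∀ r, logHeight₁ (s r) ≤ finrank ℚ K * Bs)
    {W : Submodule ℝ (ι × Bool → ℝ)}
    (hσ : ∀ σ : K →+* ℂ, lc u σ - ls (fun x => ‖σ x‖) s ∈ W)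
    (hv : ∀ v : FinitePlace K, lv (fun x => v x) u - ls (fun x => v x) s ∈ W)
    {i j : ι} (hle : logHeight₁ (u i) ≤ logHeight₁ (u j))
    (hi : finrank ℚ K * (100000 * (1 + 8 * Bs)) < logHeight₁ (u i))
    (hpair : finrank ℝ (W.map (pr2 i j)) ≤ 2 ∨ finrank ℝ (W.map (pr i)) ≤ 1 ∨
      finrank ℝ (W.map (pr j)) ≤ 1) : MvPolynomial.aeval u (sixP i j) = 0 := by
  have hD : (0 : ℝ) < finrank ℚ K := by exact_mod_cast finrank_pos
  have hσ' : ∀ v : InfinitePlace K, lv (fun x => v.1 x) u - ls (fun x => v.1 x) s ∈ W :=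
    inf_mem hσ
  have hdep : ∀ l, logHeight₁ (u i) ≤ logHeight₁ (u l) → ¬ finrank ℝ (W.map (pr l)) ≤ 1 := by
    intro l hl h
    obtain ⟨α, β, hne, hrel⟩ := exists_rel h
    have := dep_height' (hu0 l) (hu1 l) (hs (l, false)) (hs (l, true)) (hsB _) (hsB _) hne
      (fun v => hrel _ (hσ' v)) (fun v => hrel _ (hv v))
    have h2 : (finrank ℚ K : ℝ) * (4 * Bs + 3) ≤ finrank ℚ K * (100000 * (1 + 8 * Bs)) :=
      mul_le_mul_of_nonneg_left (by linarith) hD.le
    linarith
  have h1 := hdep i le_rfl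
  have h2 := hdep j hle
  have h3 : finrank ℝ (W.map (pr2 i j)) ≤ 2 := by
    rcases hpair with h | h | h
    · exact h
    · exact absurd h h1
    · exact absurd h h2
  obtain ⟨a, b, c, d, hmat⟩ := exists_mat h3 h1
  apply sixP_eval u (hu0 j) (hu1 j)
  set S := |a| + |b| + |c| + |d| with hS
  have a0 := abs_nonneg a
  have b0 := abs_nonneg b
  have c0 := abs_nonneg c
  have d0 := abs_nonneg d
  let err : AbsoluteValue K ℝ → ℝ := fun f => (1 + S) * (|log (f (s (i, false)))| +
    |log (f (s (i, true)))| + |log (f (s (j, false)))| + |log (f (s (j, true)))|)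
  have bnd : ∀ {t α β p0 p1 q : ℝ}, |α| + |β| ≤ S → 0 ≤ |p0| → ∀ {y X X1 : ℝ},
      y - q = α * (X - p0) + β * (X1 - p1) → |q| ≤ t → |p0| + |p1| ≤ t →
      |y - (α * X + β * X1)| ≤ (1 + S) * t := by
    intro t α β p0 p1 q hαβ _ y X X1 h hq hp
    have e : y - (α * X + β * X1) = q - (α * p0 + β * p1) := by linarith
    rw [e]
    have f1 : |α * p0 + β * p1| ≤ S * t := by
      refine (abs_add_le _ _).trans ?_
      rw [abs_mul, abs_mul]
      have g1 : |α| * |p0| ≤ |α| * t :=
        mul_le_mul_of_nonneg_left (by linarith [abs_nonneg p1]) (abs_nonneg _)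
      have g2 : |β| * |p1| ≤ |β| * t :=
        mul_le_mul_of_nonneg_left (by linarith [abs_nonneg p0]) (abs_nonneg _)
      have g3 : (|α| + |β|) * t ≤ S * t :=
        mul_le_mul_of_nonneg_right hαβ ((abs_nonneg q).trans hq)
      linarith
    have f2 := abs_sub q (α * p0 + β * p1)
    linarith
  have hAL : AL (u i) (u j) a b c d err ((1 + S) * (8 * Bs) * finrank ℚ K) := by
    refine ⟨fun v => ?_, fun v => ?_, fun v => ?_, fun v => ?_, fun T => ?_⟩
    · have hm := (hmat _ (hσ' v)).1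
      have p1 := abs_nonneg (log (v.1 (s (i, false))))
      have p2 := abs_nonneg (log (v.1 (s (i, true))))
      have p3 := abs_nonneg (log (v.1 (s (j, false))))
      have p4 := abs_nonneg (log (v.1 (s (j, true))))
      exact bnd (by linarith) (abs_nonneg _) hm
        (by show |log (v.1 (s (j, false)))| ≤ _; linarith)
        (by show |log (v.1 (s (i, false)))| + |log (v.1 (s (i, true)))| ≤ _; linarith)
    · have hm := (hmat _ (hσ' v)).2
      have p1 := abs_nonneg (log (v.1 (s (i, false))))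
      have p2 := abs_nonneg (log (v.1 (s (i, true))))
      have p3 := abs_nonneg (log (v.1 (s (j, false))))
      have p4 := abs_nonneg (log (v.1 (s (j, true))))
      exact bnd (by linarith) (abs_nonneg _) hm
        (by show |log (v.1 (s (j, true)))| ≤ _; linarith)
        (by show |log (v.1 (s (i, false)))| + |log (v.1 (s (i, true)))| ≤ _; linarith)
    · have hm := (hmat _ (hv v)).1
      have p1 := abs_nonneg (log (v.1 (s (i, false))))
      have p2 := abs_nonneg (log (v.1 (s (i, true))))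
      have p3 := abs_nonneg (log (v.1 (s (j, false))))
      have p4 := abs_nonneg (log (v.1 (s (j, true))))
      exact bnd (by linarith) (abs_nonneg _) hm
        (by show |log (v.1 (s (j, false)))| ≤ _; linarith)
        (by show |log (v.1 (s (i, false)))| + |log (v.1 (s (i, true)))| ≤ _; linarith)
    · have hm := (hmat _ (hv v)).2
      have p1 := abs_nonneg (log (v.1 (s (i, false))))
      have p2 := abs_nonneg (log (v.1 (s (i, true))))
      have p3 := abs_nonneg (log (v.1 (s (j, false))))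
      have p4 := abs_nonneg (log (v.1 (s (j, true))))
      exact bnd (by linarith) (abs_nonneg _) hm
        (by show |log (v.1 (s (j, true)))| ≤ _; linarith)
        (by show |log (v.1 (s (i, false)))| + |log (v.1 (s (i, true)))| ≤ _; linarith)
    · show PS T (fun f => (1 + S) * (|log (f (s (i, false)))| +
        |log (f (s (i, true)))| + |log (f (s (j, false)))| + |log (f (s (j, true)))|)) ≤ _
      rw [PS_smul, PS_add, PS_add, PS_add]
      have q1 := PS_abs_le (hs (i, false)) T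
      have q2 := PS_abs_le (hs (i, true)) T
      have q3 := PS_abs_le (hs (j, false)) T
      have q4 := PS_abs_le (hs (j, true)) T
      have r1 := hsB (i, false)
      have r2 := hsB (i, true)
      have r3 := hsB (j, false)
      have r4 := hsB (j, true)
      rw [mul_assoc (1 + S)]
      apply mul_le_mul_of_nonneg_left _ (by positivity)
      linarith
  exact uniform_le' (hu0 i) (hu1 i) (hu0 j) (hu1 j) (by positivity) hAL hle hi

end

/-- **The theorem over number fields.** -/
theorem nfMain (ι : Type) [Fintype ι] [DecidableEq ι] (Bs Cp : ℝ) (k : ℕ) :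
    ∃ G : MvPolynomial ι ℤ, G ≠ 0 ∧
      ∀ (K : Type) [Field K] [NumberField K] (u : ι → K),
      (∀ j, u j ≠ 0) → (∀ j, 1 - u j ≠ 0) →
      ∀ (s : ι × Bool → K), (∀ r, s r ≠ 0) → (∀ r, logHeight₁ (s r) ≤ finrank ℚ K * Bs) →
      ∀ (P : Fin k → ι × Bool → ℝ), (∀ i r, |P i r| ≤ Cp) →
      (∀ σ : K →+* ℂ, ∃ i, ls (fun x => ‖σ x‖) s = P i) →
      ∀ (W : Submodule ℝ (ι × Bool → ℝ)), finrank ℝ W < Fintype.card ι →
        (∀ σ : K →+* ℂ, lc u σ - ls (fun x => ‖σ x‖) s ∈ W) →
        (∀ v : FinitePlace K, lv (fun x => v x) u - ls (fun x => v x) s ∈ W) →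
        (∀ i j, i ≠ j → finrank ℝ (W.map (pr2 i j)) ≤ 2 ∨ finrank ℝ (W.map (pr i)) ≤ 1 ∨
          finrank ℝ (W.map (pr j)) ≤ 1) →
          MvPolynomial.aeval u G = 0 := by
  set Bs' : ℝ := max Bs 0 with hBs'
  have hBs'0 : 0 ≤ Bs' := le_max_right _ _
  have hBsBs' : Bs ≤ Bs' := le_max_left _ _
  choose G hG0 hG using fun j0 : ι => oneUnbS ι j0 (100000 * (1 + 8 * Bs')) Bs' Cp k
  refine ⟨(∏ j0, G j0) * ∏ i, ∏ j ∈ Finset.univ.erase i, sixP i j, mul_ne_zero
    (Finset.prod_ne_zero_iff.2 fun j0 _ => hG0 j0) (Finset.prod_ne_zero_iff.2 fun i _ =>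
      Finset.prod_ne_zero_iff.2 fun j hj => sixP_ne (Finset.ne_of_mem_erase hj).symm), ?_⟩
  intro K _ _ u hu0 hu1 s hs0 hsB P hP hPσ W hW hσ hv hpair
  have hDpos : (0 : ℝ) < finrank ℚ K := by exact_mod_cast finrank_pos
  have hsBB : ∀ r, logHeight₁ (s r) ≤ finrank ℚ K * Bs' := fun r =>
    (hsB r).trans (mul_le_mul_of_nonneg_left hBsBs' hDpos.le)
  rw [map_mul, map_prod, map_prod]
  by_cases h : ∃ i j, i ≠ j ∧ finrank ℚ K * (100000 * (1 + 8 * Bs')) < logHeight₁ (u i) ∧
    logHeight₁ (u i) ≤ logHeight₁ (u j)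
  · obtain ⟨i, j, hij, hi, hle⟩ := h
    have h1 := pair_large hu0 hu1 hs0 hBs'0 hsBB hσ hv hle hi (hpair i j hij)
    have h2 : ∏ i, MvPolynomial.aeval u (∏ j ∈ Finset.univ.erase i, sixP i j) = 0 := by
      apply Finset.prod_eq_zero (Finset.mem_univ i)
      rw [map_prod]
      exact Finset.prod_eq_zero (Finset.mem_erase.2 ⟨hij.symm, Finset.mem_univ _⟩) h1
    rw [h2, mul_zero]
  · push Not at h
    have hne : Nonempty ι := Fintype.card_pos_iff.1 (by omega)
    obtain ⟨j0, hj0⟩ := Finite.exists_max (fun j => logHeight₁ (u j))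
    have h1 := hG j0 K u hu0 hu1 (fun j hj => by
      by_contra hcon
      push Not at hcon
      exact absurd (hj0 j) (not_le.2 (h j j0 hj hcon))) s hs0 hsBB P hP hPσ W hW hσ hv
    rw [Finset.prod_eq_zero (Finset.mem_univ j0) h1, zero_mul]

end Pool.Agent.H883.ZP
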