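import Pool.Agent.H883.ZP.OneUnb

set_option autoImplicit false
set_option linter.unusedSectionVars false

/-!
# From coefficient vectors to polynomials
-/

namespace Pool.Agent.H883.ZP

open Real NumberField Height Module Finset
open Pool.Agent.H489ZP (height_one_sub)

variable {ι : Type} [Fintype ι] [DecidableEq ι]

/-- the polynomial with a given vector of coefficients -/
noncomputable def toPoly {N : ℕ} (c : (ι → Fin N) → ℤ) : MvPolynomial ι ℤ :=
  ∑ m, MvPolynomial.monomial (Finsupp.equivFunOnFinite.symm fun j => (m j : ℕ)) (c m)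

lemma aeval_toPoly {N : ℕ} {F : Type*} [CommRing F] (c : (ι → Fin N) → ℤ) (u : ι → F) :
    MvPolynomial.aeval u (toPoly c) = val c u := by
  rw [toPoly, val, map_sum]
  refine Finset.sum_congr rfl fun m _ => ?_
  rw [MvPolynomial.aeval_monomial]
  congr 1
  rw [Finsupp.prod_fintype _ _ (fun _ => pow_zero _)]
  rfl

lemma toPoly_ne {N : ℕ} {c : (ι → Fin N) → ℤ} (hc : c ≠ 0) : toPoly c ≠ 0 := by
  obtain ⟨m, hm⟩ : ∃ m, c m ≠ 0 := by
    by_contra h
    push Not at h
    exact hc (funext h)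
  intro h0
  have h1 := congrArg (MvPolynomial.coeff (Finsupp.equivFunOnFinite.symm fun j => (m j : ℕ))) h0
  rw [toPoly, MvPolynomial.coeff_sum, MvPolynomial.coeff_zero, Finset.sum_eq_single m] at h1
  · rw [MvPolynomial.coeff_monomial, if_pos rfl] at h1
    exact hm h1
  · intro m' _ hne
    rw [MvPolynomial.coeff_monomial, if_neg]
    intro h
    apply hne
    funext j
    have := DFunLike.congr_fun h j
    exact Fin.ext this
  · intro h
    exact absurd (Finset.mem_univ _) h

/-- one polynomial for all vectors of bounded size -/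
theorem exists_G (ι : Type) [Fintype ι] [DecidableEq ι] (N X : ℕ) :
    ∃ G : MvPolynomial ι ℤ, G ≠ 0 ∧ ∀ (F : Type) [Field F] (u : ι → F) (c : (ι → Fin N) → ℤ),
      c ≠ 0 → (∀ m, |(c m : ℝ)| ≤ X) → val c u = 0 → MvPolynomial.aeval u G = 0 := by
  classical
  let S : Finset ((ι → Fin N) → ℤ) :=
    (Fintype.piFinset fun _ => Finset.Icc (-(X : ℤ)) X).filter fun c => c ≠ 0
  refine ⟨∏ c ∈ S, toPoly c, Finset.prod_ne_zero_iff.2 fun c hc =>
    toPoly_ne (Finset.mem_filter.1 hc).2, ?_⟩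
  intro F _ u c hc0 hcX hv
  rw [map_prod]
  apply Finset.prod_eq_zero (i := c)
  · rw [Finset.mem_filter, Fintype.mem_piFinset]
    refine ⟨fun m => ?_, hc0⟩
    rw [Finset.mem_Icc]
    have := hcX m
    have h2 : |c m| ≤ (X : ℤ) := by exact_mod_cast this
    exact abs_le.1 h2
  · rw [aeval_toPoly, hv]

/-- **Bounded height.** -/
theorem boundedG (ι : Type) [Fintype ι] [DecidableEq ι] (k : ℕ) (B : ℝ) :
    ∃ (G : MvPolynomial ι ℤ) (δ : ℝ), G ≠ 0 ∧ 0 < δ ∧
      ∀ (K : Type) [Field K] [NumberField K] (u : ι → K),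
      (∀ j, u j ≠ 0) → (∀ j, 1 - u j ≠ 0) → (∀ j, logHeight₁ (u j) ≤ finrank ℚ K * B) →
      ∀ (V : Fin k → Submodule ℝ (ι × Bool → ℝ)) (p : Fin k → ι × Bool → ℝ),
        (∀ i, finrank ℝ (V i) < Fintype.card ι) →
        ∀ Ex : Finset (K →+* ℂ), 8 * Ex.card ≤ finrank ℚ K →
          (∀ σ, σ ∉ Ex → ∃ i, ∃ v ∈ V i, ∀ r, |lc u σ r - (p i r + v r)| ≤ δ) →
          MvPolynomial.aeval u G = 0 := by
  obtain ⟨N, X, δ, hδ, h⟩ := propP ι k B
  obtain ⟨G, hG, hG2⟩ := exists_G ι N X
  refine ⟨G, δ, hG, hδ, ?_⟩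
  intro K _ _ u hu0 hu1 hB V p hV Ex hEx hnear
  obtain ⟨c, hc0, hcX, hcv⟩ := h K u hu0 hu1 hB V p hV Ex hEx hnear
  exact hG2 K u c hc0 hcX hcv

/-- **One unbounded coordinate.** -/
theorem oneUnbG (ι : Type) [Fintype ι] [DecidableEq ι] (j0 : ι) (B : ℝ) :
    ∃ G : MvPolynomial ι ℤ, G ≠ 0 ∧
      ∀ (K : Type) [Field K] [NumberField K] (u : ι → K),
      (∀ j, u j ≠ 0) → (∀ j, 1 - u j ≠ 0) →
      (∀ j, j ≠ j0 → logHeight₁ (u j) ≤ finrank ℚ K * B) →
      ∀ (W : Submodule ℝ (ι × Bool → ℝ)), finrank ℝ W < Fintype.card ι →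
        (∀ σ : K →+* ℂ, lc u σ ∈ W) → (∀ v : FinitePlace K, lv (fun x => v x) u ∈ W) →
          MvPolynomial.aeval u G = 0 := by
  obtain ⟨G1, δ, hG1, hδ, h1⟩ := boundedG {j : ι // j ≠ j0} 3 B
  have hl0 : 0 < log 2 := Real.log_pos (by norm_num)
  have hl1 : Real.log 2 < 1 := by linarith [Real.log_two_lt_d9]
  set A : ℝ := log 2 / δ with hA
  have hA0 : 0 < A := by positivity
  have hAδ : log 2 ≤ A * δ := by rw [hA, div_mul_cancel₀ _ hδ.ne']
  set B' : ℝ := max B 0 with hB'
  have hB'0 : 0 ≤ B' := le_max_right _ _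
  have hBB' : B ≤ B' := le_max_left _ _
  set B2 : ℝ := A * (Fintype.card {j : ι // j ≠ j0} * (2 * B' + 1)) + 2 + B' with hB2
  obtain ⟨G2, δ2, hG2, hδ2, h2⟩ := boundedG ι 1 B2
  refine ⟨MvPolynomial.rename Subtype.val G1 * G2, mul_ne_zero ?_ hG2, ?_⟩
  · intro h
    exact hG1 (MvPolynomial.rename_injective _ Subtype.val_injective (by rw [h, map_zero]))
  intro K _ _ u hu0 hu1 hB W hW hσ hv
  have hDpos : (0 : ℝ) < finrank ℚ K := by exact_mod_cast finrank_pos
  have hBB : ∀ j, j ≠ j0 → logHeight₁ (u j) ≤ finrank ℚ K * B' := fun j hj =>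
    (hB j hj).trans (mul_le_mul_of_nonneg_left hBB' hDpos.le)
  rw [map_mul, MvPolynomial.aeval_rename]
  -- the three functionals
  let g0 : (ι × Bool → ℝ) →ₗ[ℝ] ℝ := LinearMap.proj (j0, false)
  let g1 : (ι × Bool → ℝ) →ₗ[ℝ] ℝ := LinearMap.proj (j0, true)
  let γ : Fin 3 → (ι × Bool → ℝ) →ₗ[ℝ] ℝ := ![g0, g1, g0 - g1]
  by_cases hbig : ∀ i, Big j0 W A (γ i)
  · -- the conjugates of the other coordinates are near three small subspaces
    have hnear : ∀ i, ∃ V : Submodule ℝ ({j : ι // j ≠ j0} × Bool → ℝ), finrank ℝ V < finrank ℝ W ∧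
      ∀ x ∈ W, |γ i x| ≤ log 2 → ∃ v ∈ V, ∀ r, |res j0 x r - (0 + v r)| ≤ δ :=
      fun i => big_near hA0 hAδ (hbig i)
    choose V hV1 hV2 using hnear
    have hcard : Fintype.card {j : ι // j ≠ j0} + 1 = Fintype.card ι := by
      rw [Fintype.card_subtype_compl, Fintype.card_subtype_eq]
      have : 0 < Fintype.card ι := Fintype.card_pos_iff.2 ⟨j0⟩
      omega
    have := h1 K (fun j => u j.1) (fun j => hu0 _) (fun j => hu1 _) (fun j => hB _ j.2) V
      (fun _ _ => 0) (fun i => by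
        have := hV1 i
        omega) ∅ (by simp) (fun σ _ => by
        have hz0 : σ (u j0) ≠ 0 := (map_ne_zero σ).2 (hu0 j0)
        have hz1 : 1 - σ (u j0) ≠ 0 := by
          rw [← map_one σ, ← map_sub]
          exact (map_ne_zero σ).2 (hu1 j0)
        have hres : res j0 (lc u σ) = lc (fun j : {j : ι // j ≠ j0} => u j.1) σ := rfl
        have e0 : γ 0 (lc u σ) = log ‖σ (u j0)‖ := rfl
        have e1 : γ 1 (lc u σ) = log ‖1 - σ (u j0)‖ := lc_true u σ j0
        have e2 : γ 2 (lc u σ) = log ‖σ (u j0)‖ - log ‖1 - σ (u j0)‖ := by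
          rw [← e0, ← e1]
          rfl
        rcases three_cases (σ (u j0)) hz0 hz1 with h | h | h
        · obtain ⟨v, hv1, hv2⟩ := hV2 0 _ (hσ σ) (by rw [e0]; exact h)
          exact ⟨0, v, hv1, hv2⟩
        · obtain ⟨v, hv1, hv2⟩ := hV2 1 _ (hσ σ) (by rw [e1]; exact h)
          exact ⟨1, v, hv1, hv2⟩
        · obtain ⟨v, hv1, hv2⟩ := hV2 2 _ (hσ σ) (by rw [e2]; exact h)
          exact ⟨2, v, hv1, hv2⟩)
    have e : MvPolynomial.aeval (u ∘ Subtype.val) G1 =
        MvPolynomial.aeval (fun j : {j : ι // j ≠ j0} => u j.1) G1 := rfl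
    rw [e, this, zero_mul]
  · -- all heights are bounded
    push Not at hbig
    obtain ⟨i, hi⟩ := hbig
    have hg : ∀ r : {j : ι // j ≠ j0} × Bool, (if r.2 then 1 - u r.1.1 else u r.1.1) ≠ 0 := by
      rintro ⟨j, b⟩
      cases b
      · simpa using hu0 j.1
      · simpa using hu1 j.1
    have hloc : ∀ x ∈ W, |γ i x| ≤ A * ∑ r, |res j0 x r| := fun x hx => not_big hA0 hi hx
    have hresσ : ∀ (σ : K →+* ℂ) r, res j0 (lc u σ) r =
        log ‖σ (if r.2 then 1 - u r.1.1 else u r.1.1)‖ := by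
      rintro σ ⟨j, b⟩
      cases b <;> rfl
    have hresv : ∀ (v : FinitePlace K) r, res j0 (lv (fun x => v x) u) r =
        log (v (if r.2 then 1 - u r.1.1 else u r.1.1)) := by
      rintro v ⟨j, b⟩
      cases b <;> rfl
    have hsumh : ∑ r : {j : ι // j ≠ j0} × Bool, logHeight₁ (if r.2 then 1 - u r.1.1 else u r.1.1) ≤
        finrank ℚ K * (Fintype.card {j : ι // j ≠ j0} * (2 * B' + 1)) := by
      rw [sum_prod_bool]
      calc _ ≤ ∑ _j : {j : ι // j ≠ j0}, finrank ℚ K * (2 * B' + 1) := by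
            apply Finset.sum_le_sum
            rintro ⟨j, hj⟩ _
            have e1 := height_one_sub (u j)
            have e2 := hBB j hj
            have e3 : (finrank ℚ K : ℝ) * log 2 ≤ finrank ℚ K * 1 :=
              mul_le_mul_of_nonneg_left hl1.le hDpos.le
            simp only [Bool.false_eq_true, if_false, if_true]
            linarith
        _ = _ := by
            rw [Finset.sum_const, nsmul_eq_mul, Finset.card_univ]
            ring
    have key : ∀ z : K, z ≠ 0 → (∀ σ : K →+* ℂ, γ i (lc u σ) = log ‖σ z‖) →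
        (∀ v : FinitePlace K, γ i (lv (fun x => v x) u) = log (v z)) →
        logHeight₁ z ≤ finrank ℚ K * (B2 - 2) := by
      intro z hz hz1 hz2
      have h3 := height_le_of_local hz (fun r : {j : ι // j ≠ j0} × Bool =>
        if r.2 then 1 - u r.1.1 else u r.1.1) hg (A := A) (fun σ => by
          have := hloc _ (hσ σ)
          rw [hz1 σ] at this
          refine this.trans (le_of_eq ?_)
          congr 1
          exact Finset.sum_congr rfl fun r _ => by rw [hresσ]) (fun v => by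
          have := hloc _ (hv v)
          rw [hz2 v] at this
          refine this.trans (le_of_eq ?_)
          congr 1
          exact Finset.sum_congr rfl fun r _ => by rw [hresv])
      calc logHeight₁ z ≤ A * (finrank ℚ K * (Fintype.card {j : ι // j ≠ j0} * (2 * B' + 1))) :=
            h3.trans (mul_le_mul_of_nonneg_left hsumh hA0.le)
        _ ≤ _ := by
            rw [hB2]
            have : 0 ≤ (finrank ℚ K : ℝ) * B' := by positivity
            linarith
    have hj0 : logHeight₁ (u j0) ≤ finrank ℚ K * B2 := by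
      have a1 := height_one_sub (1 - u j0)
      rw [sub_sub_cancel] at a1
      have a2 : (finrank ℚ K : ℝ) * log 2 ≤ finrank ℚ K * 1 :=
        mul_le_mul_of_nonneg_left hl1.le hDpos.le
      have hγ : i = 0 ∨ i = 1 ∨ i = 2 := by omega
      rcases hγ with rfl | rfl | rfl
      · have := key (u j0) (hu0 j0) (fun σ => rfl) (fun v => rfl)
        linarith
      · have := key (1 - u j0) (hu1 j0) (fun σ => rfl) (fun v => rfl)
        linarith
      · have hw0 : u j0 / (1 - u j0) ≠ 0 := div_ne_zero (hu0 j0) (hu1 j0)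
        have h3 := key (u j0 / (1 - u j0)) hw0 (fun σ => by
          show log ‖σ (u j0)‖ - log ‖σ (1 - u j0)‖ = _
          rw [map_div₀, norm_div, Real.log_div (norm_ne_zero_iff.2 ((map_ne_zero σ).2 (hu0 j0)))
            (norm_ne_zero_iff.2 ((map_ne_zero σ).2 (hu1 j0)))]) (fun v => by
          show log (v (u j0)) - log (v (1 - u j0)) = _
          rw [map_div₀, Real.log_div (FinitePlace.pos_iff.2 (hu0 j0)).ne'
            (FinitePlace.pos_iff.2 (hu1 j0)).ne'])
        have h4 : 1 - -(u j0 / (1 - u j0)) = (1 - u j0)⁻¹ := by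
          have := hu1 j0
          field_simp
          ring
        have h5 := height_one_sub (-(u j0 / (1 - u j0)))
        rw [h4, logHeight₁_inv, logHeight₁_neg] at h5
        linarith
    have h6 := h2 K u hu0 hu1 (fun j => by
      by_cases hj : j = j0
      · rw [hj]; exact hj0
      · refine (hBB j hj).trans (mul_le_mul_of_nonneg_left ?_ hDpos.le)
        rw [hB2]
        have : 0 ≤ A * (Fintype.card {j : ι // j ≠ j0} * (2 * B' + 1)) := by positivity
        linarith) (fun _ => W) (fun _ _ => 0) (fun _ => hW) ∅ (by simp) (fun σ _ =>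
        ⟨0, lc u σ, hσ σ, fun r => by rw [zero_add, sub_self, abs_zero]; exact hδ2.le⟩)
    rw [h6, mul_zero]

end Pool.Agent.H883.ZP
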