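import Pool.Agent.H883.ZP.Forms
import Pool.Graph.R_pool_sql_team_seeded_620a6dc7.H489ZP.Cls

set_option autoImplicit false
set_option linter.unusedSectionVars false

/-!
# Points of bounded height whose conjugates are near few small subspaces
-/

namespace Pool.Agent.H883.ZP

open Real NumberField Height Module Finset
open Pool.Agent.Y740 (Fp product_formula_log pow_le_exp_posLog fin_int_le fin_sum_le supp_posLog
  supp_finite logHeight₁_emb Fp_nonneg abs_log_emb_le)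
open Pool.Agent.H489ZP (height_one_sub)

variable {ι : Type} [Fintype ι] [DecidableEq ι]

section

variable {K : Type} [Field K] [NumberField K]

/-- the logarithms of the conjugates of `u j` and `1 - u j` -/
noncomputable def lc (u : ι → K) (σ : K →+* ℂ) : ι × Bool → ℝ := lv (fun x => ‖σ x‖) u

lemma lc_false (u : ι → K) (σ : K →+* ℂ) (j : ι) : lc u σ (j, false) = log ‖σ (u j)‖ := rfl

lemma lc_true (u : ι → K) (σ : K →+* ℂ) (j : ι) : lc u σ (j, true) = log ‖1 - σ (u j)‖ := by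
  show log ‖σ (1 - u j)‖ = _
  rw [map_sub, map_one]

lemma sum_prod_bool (f : ι × Bool → ℝ) : ∑ r, f r = ∑ j, (f (j, false) + f (j, true)) := by
  rw [Fintype.sum_prod_type]
  exact Finset.sum_congr rfl fun j _ => by rw [Fintype.sum_bool, add_comm]

lemma sum_lc_le {u : ι → K} (hu0 : ∀ j, u j ≠ 0) (hu1 : ∀ j, 1 - u j ≠ 0) {B : ℝ}
    (hB : ∀ j, logHeight₁ (u j) ≤ finrank ℚ K * B) :
    ∑ σ : K →+* ℂ, ∑ r, |lc u σ r| ≤ finrank ℚ K * (Fintype.card ι * (4 * B + 2)) := by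
  have h1 : ∑ σ : K →+* ℂ, ∑ r, |lc u σ r| =
      ∑ j, (∑ σ : K →+* ℂ, |log ‖σ (u j)‖| + ∑ σ : K →+* ℂ, |log ‖σ (1 - u j)‖|) := by
    simp_rw [sum_prod_bool, ← Finset.sum_add_distrib]
    rw [Finset.sum_comm]
    rfl
  rw [h1]
  have hl1 : Real.log 2 < 1 := by linarith [Real.log_two_lt_d9]
  have hD : (0 : ℝ) < finrank ℚ K := by exact_mod_cast finrank_pos
  calc _ ≤ ∑ _j : ι, finrank ℚ K * (4 * B + 2) := by
        apply Finset.sum_le_sum
        intro j _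
        have e1 := abs_log_emb_le (hu0 j)
        have e2 := abs_log_emb_le (hu1 j)
        have e3 := height_one_sub (u j)
        have e4 := hB j
        nlinarith
    _ = _ := by
        rw [Finset.sum_const, nsmul_eq_mul, Finset.card_univ]
        ring

lemma log_val_bad {N : ℕ} (c : (ι → Fin N) → ℤ) {X : ℝ} (hc : ∀ m, |(c m : ℝ)| ≤ X) (hX : 0 < X)
    (hN : 0 < N) (z : ι → ℂ) (hv : val c z ≠ 0) :
    log ‖val c z‖ ≤ N * Fintype.card ι + log X + N * ∑ j, log⁺ ‖z j‖ := by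
  have h1 := arch_le c hc hX.le z
  have h2 : (Fintype.card (ι → Fin N) : ℝ) ≤ Real.exp (N * Fintype.card ι) := by
    rw [Fintype.card_fun, Fintype.card_fin]
    have e1 : (N : ℝ) ≤ Real.exp N := by
      have := Real.add_one_le_exp (N : ℝ)
      linarith
    push_cast
    calc (N : ℝ) ^ Fintype.card ι ≤ (Real.exp N) ^ Fintype.card ι :=
          pow_le_pow_left₀ (by positivity) e1 _
      _ = _ := by rw [← Real.exp_nat_mul, mul_comm]
  have h3 : ‖val c z‖ ≤ Real.exp (N * Fintype.card ι + log X + N * ∑ j, log⁺ ‖z j‖) := by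
    rw [Real.exp_add, Real.exp_add, Real.exp_log hX]
    refine h1.trans ?_
    gcongr
  exact (Real.log_le_iff_le_exp (norm_pos_iff.2 hv)).2 h3

end

/-- the numerical part of the estimate at a good embedding -/
lemma good_num {M d N T κ c1 : ℕ} {cI A Aexp Lδ tail R0 E : ℝ} (hM : M = d + 1) (hN : 0 < N)
    (hcI : cI ≤ 2 ^ (M * N)) (hcI0 : 0 ≤ cI) (hTd : (T : ℝ) ^ d ≤ cI) (hκ : c1 + M ≤ 3 * κ)
    (hA0 : 0 ≤ A) (hA1 : 0 ≤ Aexp) (hA : A * Aexp ≤ 2 ^ (c1 * N))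
    (hδ0 : 0 ≤ Lδ) (hδ : 2 * Lδ ≤ 1 / 2 ^ (3 * κ * N)) (ht0 : 0 ≤ tail)
    (ht : tail ≤ 1 / 2 ^ (3 * κ * N))
    (hE : E = Real.exp R0) :
    (2 : ℝ) ^ M * ((T ^ d * (2 * cI * ((2 ^ (κ * N) : ℕ) : ℝ) /
      ((2 ^ ((3 * κ - (c1 + M)) * N) : ℕ) : ℝ)) +
      cI * (((2 ^ (κ * N) : ℕ) : ℝ) * (A * (Aexp * (2 * Lδ + d * tail))))) * E) ≤
      Real.exp (N * (5 * M + 2 + c1 - 2 * κ * log 2) + R0) := by
  have hl0 : 0 < log 2 := Real.log_pos (by norm_num)
  have hl1 : Real.log 2 < 1 := by linarith [Real.log_two_lt_d9]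
  have hN1 : (1 : ℝ) ≤ N := by exact_mod_cast hN
  set Q : ℝ := 2 ^ ((3 * M + c1) * N) * 2 ^ (κ * N) / 2 ^ (3 * κ * N) with hQ
  have hQ0 : 0 ≤ Q := by positivity
  have hpow : (2 : ℝ) ^ (3 * κ * N) =
      2 ^ ((3 * κ - (c1 + M)) * N) * 2 ^ ((c1 + M) * N) := by
    rw [← pow_add, ← add_mul]
    congr 2
    omega
  have f1 : (T : ℝ) ^ d * (2 * cI * ((2 ^ (κ * N) : ℕ) : ℝ) /
      ((2 ^ ((3 * κ - (c1 + M)) * N) : ℕ) : ℝ)) ≤ 2 * Q := by
    push_cast
    have e1 : (T : ℝ) ^ d ≤ 2 ^ (M * N) := hTd.trans hcI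
    calc _ ≤ 2 ^ (M * N) * (2 * 2 ^ (M * N) * (2 : ℝ) ^ (κ * N) /
          (2 : ℝ) ^ ((3 * κ - (c1 + M)) * N)) := by gcongr
      _ = 2 * Q := by
          rw [hQ, hpow, show (3 * M + c1) * N = M * N + M * N + (c1 + M) * N by ring,
            pow_add, pow_add]
          field_simp
  have f2 : cI * (((2 ^ (κ * N) : ℕ) : ℝ) * (A * (Aexp * (2 * Lδ + d * tail)))) ≤ M * Q := by
    push_cast
    have e1 : 2 * Lδ + d * tail ≤ M * (1 / 2 ^ (3 * κ * N)) := by
      rw [hM]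
      push_cast
      have : (d : ℝ) * tail ≤ d * (1 / 2 ^ (3 * κ * N)) := by gcongr
      linarith
    have e2 : A * (Aexp * (2 * Lδ + d * tail)) ≤ 2 ^ (c1 * N) * (M * (1 / 2 ^ (3 * κ * N))) := by
      rw [← mul_assoc]
      gcongr
    calc _ ≤ 2 ^ (M * N) * ((2 : ℝ) ^ (κ * N) * (2 ^ (c1 * N) * (M * (1 / 2 ^ (3 * κ * N))))) := by
          gcongr
      _ = M * (2 ^ (M * N + c1 * N) * 2 ^ (κ * N) / 2 ^ (3 * κ * N)) := by
          rw [pow_add]
          ring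
      _ ≤ _ := by
          rw [hQ]
          gcongr
          · norm_num
          · nlinarith
  have f3 : (2 : ℝ) ^ M ≤ Real.exp (N * M) := by
    have : (2 : ℝ) ≤ Real.exp 1 := by linarith [Real.add_one_le_exp (1 : ℝ)]
    calc (2 : ℝ) ^ M ≤ (Real.exp 1) ^ M := by gcongr
      _ = Real.exp M := by rw [← Real.exp_nat_mul, mul_one]
      _ ≤ _ := by
          apply Real.exp_le_exp.2
          have : (0 : ℝ) ≤ M := by positivity
          nlinarith
  have f4 : (2 + M : ℝ) ≤ Real.exp (N * (M + 2)) := by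
    have := Real.add_one_le_exp ((N : ℝ) * (M + 2))
    have : (0 : ℝ) ≤ M := by positivity
    nlinarith
  have f5 : Q ≤ Real.exp (N * (3 * M + c1 - 2 * κ * log 2)) := by
    have e : ∀ a : ℕ, (2 : ℝ) ^ a = Real.exp (a * log 2) := fun a => by
      rw [Real.exp_nat_mul, Real.exp_log (by norm_num)]
    rw [hQ, e, e, e, ← Real.exp_add, ← Real.exp_sub]
    apply Real.exp_le_exp.2
    push_cast
    have e2 : (3 * (M : ℝ) + c1) * N * log 2 ≤ (3 * (M : ℝ) + c1) * N := by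
      have : (0 : ℝ) ≤ (3 * (M : ℝ) + c1) * N := by positivity
      nlinarith
    nlinarith
  rw [hE]
  calc _ ≤ Real.exp (N * M) * ((2 * Q + M * Q) * Real.exp R0) := by gcongr
    _ = Real.exp (N * M) * ((2 + M) * Q * Real.exp R0) := by ring
    _ ≤ Real.exp (N * M) * (Real.exp (N * (M + 2)) *
        Real.exp (N * (3 * M + c1 - 2 * κ * log 2)) * Real.exp R0) := by gcongr
    _ = _ := by
        rw [← Real.exp_add, ← Real.exp_add, ← Real.exp_add]
        congr 1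
        ring

end Pool.Agent.H883.ZP
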