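import Pool.Agent.H883.ZP.Exp

set_option autoImplicit false

/-!
# Powers of a complex number, from its absolute value and that of `1 - z`
-/

namespace Pool.Agent.H883.ZP

open Finset

/-- `z ^ k = (PQ A B k).1 * z + (PQ A B k).2` when `A = |z| ^ 2`, `B = |1 - z| ^ 2` -/
def PQ (A B : ℝ) : ℕ → ℝ × ℝ
  | 0 => (0, 1)
  | k + 1 => ((1 + A + -B) * (PQ A B k).1 + (PQ A B k).2, -(A * (PQ A B k).1))

lemma pow_eq_PQ (z : ℂ) (k : ℕ) :
    z ^ k = ((PQ (‖z‖ ^ 2) (‖1 - z‖ ^ 2) k).1 : ℂ) * z + ((PQ (‖z‖ ^ 2) (‖1 - z‖ ^ 2) k).2 : ℂ) := by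
  have hq : z ^ 2 = ((1 + ‖z‖ ^ 2 + -‖1 - z‖ ^ 2 : ℝ) : ℂ) * z - ((‖z‖ ^ 2 : ℝ) : ℂ) := by
    have h1 : ((‖z‖ ^ 2 : ℝ) : ℂ) = z * (starRingEnd ℂ) z := by
      rw [Complex.mul_conj, Complex.normSq_eq_norm_sq]
    have h2 : ((‖1 - z‖ ^ 2 : ℝ) : ℂ) = (1 - z) * (starRingEnd ℂ) (1 - z) := by
      rw [Complex.mul_conj, Complex.normSq_eq_norm_sq]
    have h3 : ((1 + ‖z‖ ^ 2 + -‖1 - z‖ ^ 2 : ℝ) : ℂ) = z + (starRingEnd ℂ) z := by
      push_cast at h1 h2 ⊢
      rw [h1, h2, map_sub, map_one]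
      ring
    rw [h3, h1]
    ring
  induction k with
  | zero => simp [PQ]
  | succ k ih =>
    rw [pow_succ, ih]
    simp only [PQ]
    push_cast at hq ⊢
    linear_combination ((PQ (‖z‖ ^ 2) (‖1 - z‖ ^ 2) k).1 : ℂ) * hq

section

variable {ι : Type} [Fintype ι] [DecidableEq ι]

lemma PQ_EP (j : ι) (k : ℕ) :
    EP (ρ := ι × Bool) (2 * k) (4 ^ k)
      (fun x => (PQ (Real.exp (2 * x (j, false))) (Real.exp (2 * x (j, true))) k).1) ∧
    EP (ρ := ι × Bool) (2 * k) (4 ^ k)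
      (fun x => (PQ (Real.exp (2 * x (j, false))) (Real.exp (2 * x (j, true))) k).2) := by
  induction k with
  | zero =>
    simp only [PQ, Nat.cast_zero, mul_zero, pow_zero]
    exact ⟨EP.zero zero_le_one, EP.one le_rfl⟩
  | succ k ih =>
    simp only [PQ]
    have hA : EP (ρ := ι × Bool) 2 1 (fun x => Real.exp (2 * x (j, false))) := EP.coord _
    have hB : EP (ρ := ι × Bool) 2 1 (fun x => -Real.exp (2 * x (j, true))) := (EP.coord _).neg
    have h1 : EP (ρ := ι × Bool) 2 1 (fun _ => 1) := EP.one zero_le_two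
    have hS := (h1.add hA).add hB
    have e : (2 * ((k + 1 : ℕ) : ℝ)) = 2 + 2 * k := by push_cast; ring
    constructor
    · refine EP.mono (((hS.mul ih.1 (by norm_num)).add (ih.2.mono (by linarith) le_rfl))) ?_ ?_
      · rw [e]
      · rw [pow_succ]; ring_nf; exact le_rfl
    · refine EP.mono ((hA.mul ih.1 (by norm_num)).neg) ?_ ?_
      · rw [e]
      · rw [pow_succ]
        have : (0 : ℝ) ≤ 4 ^ k := by positivity
        linarith

/-- the coefficient functions of the monomials -/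
noncomputable def ph {N : ℕ} (m : ι → Fin N) (s : Finset ι) (x : ι × Bool → ℝ) : ℝ :=
  (∏ j ∈ s, (PQ (Real.exp (2 * x (j, false))) (Real.exp (2 * x (j, true))) (m j)).1) *
    ∏ j ∈ univ \ s, (PQ (Real.exp (2 * x (j, false))) (Real.exp (2 * x (j, true))) (m j)).2

lemma ph_EP {N : ℕ} (m : ι → Fin N) (s : Finset ι) :
    EP (Fintype.card ι * (2 * N)) (4 ^ (Fintype.card ι * N)) (ph m s) := by
  have h1 := EP.prod (ρ := ι × Bool) s (L := fun j => 2 * (m j : ℕ)) (W := fun j => 4 ^ (m j : ℕ))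
    (fun j => by positivity) (fun j _ => (PQ_EP j (m j)).1)
  have h2 := EP.prod (ρ := ι × Bool) (univ \ s) (L := fun j => 2 * (m j : ℕ))
    (W := fun j => 4 ^ (m j : ℕ)) (fun j => by positivity) (fun j _ => (PQ_EP j (m j)).2)
  refine EP.mono (h1.mul h2 (Finset.prod_nonneg fun _ _ => by positivity)) ?_ ?_
  · rw [add_comm, Finset.sum_sdiff (Finset.subset_univ s)]
    calc ∑ j, 2 * (((m j : ℕ) : ℝ)) ≤ ∑ _j : ι, 2 * (N : ℝ) := by
          apply Finset.sum_le_sum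
          intro j _
          have : ((m j : ℕ) : ℝ) ≤ N := by exact_mod_cast (m j).2.le
          linarith
      _ = _ := by rw [Finset.sum_const, nsmul_eq_mul, Finset.card_univ]
  · rw [mul_comm, Finset.prod_sdiff (Finset.subset_univ s)]
    calc ∏ j, (4 : ℝ) ^ (m j : ℕ) ≤ ∏ _j : ι, (4 : ℝ) ^ N := by
          apply Finset.prod_le_prod (fun _ _ => by positivity)
          intro j _
          exact pow_le_pow_right₀ (by norm_num) (m j).2.le
      _ = _ := by rw [Finset.prod_const, Finset.card_univ, ← pow_mul, mul_comm]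

/-- a monomial in terms of the absolute values -/
lemma monomial_eq {N : ℕ} (m : ι → Fin N) (z : ι → ℂ) (x : ι × Bool → ℝ)
    (h0 : ∀ j, ‖z j‖ = Real.exp (x (j, false))) (h1 : ∀ j, ‖1 - z j‖ = Real.exp (x (j, true))) :
    ∏ j, z j ^ (m j : ℕ) = ∑ s : Finset ι, (ph m s x : ℂ) * ∏ j ∈ s, z j := by
  have e0 : ∀ j, ‖z j‖ ^ 2 = Real.exp (2 * x (j, false)) := fun j => by
    rw [h0, ← Real.exp_nat_mul]
    push_cast
    rfl
  have e1 : ∀ j, ‖1 - z j‖ ^ 2 = Real.exp (2 * x (j, true)) := fun j => by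
    rw [h1, ← Real.exp_nat_mul]
    push_cast
    rfl
  have h : ∀ j, z j ^ (m j : ℕ) =
      ((PQ (Real.exp (2 * x (j, false))) (Real.exp (2 * x (j, true))) (m j)).1 : ℂ) * z j +
      ((PQ (Real.exp (2 * x (j, false))) (Real.exp (2 * x (j, true))) (m j)).2 : ℂ) := by
    intro j
    have := pow_eq_PQ (z j) (m j)
    rw [e0, e1] at this
    exact this
  rw [Finset.prod_congr rfl fun j _ => h j, Finset.prod_add, Finset.powerset_univ]
  refine Finset.sum_congr rfl fun s _ => ?_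
  unfold ph
  rw [Finset.prod_mul_distrib]
  push_cast
  ring

end

end Pool.Agent.H883.ZP
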