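import Pool.Agent.H883.ZP.Poly

set_option autoImplicit false
set_option linter.unusedSectionVars false

/-!
# Points of translates, all of whose coordinates but one have bounded height
-/

namespace Pool.Agent.H883.ZP

open Real NumberField Height Module Finset
open Pool.Agent.H489ZP (height_one_sub)

variable {ι : Type} [Fintype ι] [DecidableEq ι]

lemma big_near' {j0 : ι} {W : Submodule ℝ (ι × Bool → ℝ)} {A δ C : ℝ} (hA : 0 < A) (hC : 0 < C)
    (hδ : C ≤ A * δ)
    {γ : (ι × Bool → ℝ) →ₗ[ℝ] ℝ} (h : Big j0 W A γ) :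
    ∃ V : Submodule ℝ ({j : ι // j ≠ j0} × Bool → ℝ), finrank ℝ V < finrank ℝ W ∧
      ∀ x ∈ W, |γ x| ≤ C → ∃ v ∈ V, ∀ r, |res j0 x r - v r| ≤ δ := by
  obtain ⟨w, hw, hwr, hwA⟩ := h
  have hγw : γ w ≠ 0 := by
    intro h0
    rw [h0, abs_zero] at hwA
    linarith
  refine ⟨(W ⊓ LinearMap.ker γ).map (res j0), ?_, ?_⟩
  · refine lt_of_le_of_lt (Submodule.finrank_map_le _ _) ?_
    apply Submodule.finrank_lt_finrank_of_lt
    refine lt_of_le_of_ne inf_le_left ?_
    intro heq
    have : w ∈ W ⊓ LinearMap.ker γ := by rw [heq]; exact hw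
    exact hγw (LinearMap.mem_ker.1 (Submodule.mem_inf.1 this).2)
  · intro x hx hxγ
    refine ⟨res j0 (x - (γ x / γ w) • w), Submodule.mem_map_of_mem (Submodule.mem_inf.2
      ⟨W.sub_mem hx (W.smul_mem _ hw), ?_⟩), ?_⟩
    · rw [LinearMap.mem_ker, map_sub, map_smul, smul_eq_mul, div_mul_cancel₀ _ hγw, sub_self]
    · intro r
      rw [map_sub, map_smul, Pi.sub_apply, Pi.smul_apply, smul_eq_mul]
      have e : res j0 x r - (res j0 x r - γ x / γ w * res j0 w r) =
          γ x / γ w * res j0 w r := by ring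
      rw [e, abs_mul, abs_div]
      have hlt : 0 < |γ w| := abs_pos.2 hγw
      have hδ0 : 0 ≤ δ := by
        by_contra hc
        push Not at hc
        nlinarith
      calc |γ x| / |γ w| * |res j0 w r| ≤ |γ x| / |γ w| * 1 :=
            mul_le_mul_of_nonneg_left (hwr r) (by positivity)
        _ = |γ x| / |γ w| := mul_one _
        _ ≤ δ := by
            rw [div_le_iff₀ hlt]
            nlinarith

/-- the logarithms of the sizes of the numbers `s r` -/
noncomputable def ls {F : Type*} [Field F] (v : F → ℝ) (s : ι × Bool → F) : ι × Bool → ℝ :=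
  fun r => log (v (s r))

/-- **One unbounded coordinate, for translates.** -/
theorem oneUnbS (ι : Type) [Fintype ι] [DecidableEq ι] (j0 : ι) (B Bs Cp : ℝ) (k : ℕ) :
    ∃ G : MvPolynomial ι ℤ, G ≠ 0 ∧
      ∀ (K : Type) [Field K] [NumberField K] (u : ι → K),
      (∀ j, u j ≠ 0) → (∀ j, 1 - u j ≠ 0) →
      (∀ j, j ≠ j0 → logHeight₁ (u j) ≤ finrank ℚ K * B) →
      ∀ (s : ι × Bool → K), (∀ r, s r ≠ 0) → (∀ r, logHeight₁ (s r) ≤ finrank ℚ K * Bs) →
      ∀ (P : Fin k → ι × Bool → ℝ), (∀ i r, |P i r| ≤ Cp) →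
      (∀ σ : K →+* ℂ, ∃ i, ls (fun x => ‖σ x‖) s = P i) →
      ∀ (W : Submodule ℝ (ι × Bool → ℝ)), finrank ℝ W < Fintype.card ι →
        (∀ σ : K →+* ℂ, lc u σ - ls (fun x => ‖σ x‖) s ∈ W) →
        (∀ v : FinitePlace K, lv (fun x => v x) u - ls (fun x => v x) s ∈ W) →
          MvPolynomial.aeval u G = 0 := by
  obtain ⟨G1, δ, hG1, hδ, h1⟩ := boundedG {j : ι // j ≠ j0} (3 * k) B
  have hl0 : 0 < log 2 := Real.log_pos (by norm_num)
  have hl1 : Real.log 2 < 1 := by linarith [Real.log_two_lt_d9]
  set C : ℝ := log 2 + 2 * |Cp| with hC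
  have hC0 : 0 < C := by positivity
  set A : ℝ := C / δ with hA
  have hA0 : 0 < A := by positivity
  have hAδ : C ≤ A * δ := by rw [hA, div_mul_cancel₀ _ hδ.ne']
  set B' : ℝ := max B 0 with hB'
  have hB'0 : 0 ≤ B' := le_max_right _ _
  have hBB' : B ≤ B' := le_max_left _ _
  set Bs' : ℝ := max Bs 0 with hBs'
  have hBs'0 : 0 ≤ Bs' := le_max_right _ _
  have hBsBs' : Bs ≤ Bs' := le_max_left _ _
  set B2 : ℝ := (A + 2) * (Fintype.card {j : ι // j ≠ j0} * (2 * B' + 1) +
    Fintype.card (ι × Bool) * Bs') + 2 + B' with hB2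
  obtain ⟨G2, δ2, hG2, hδ2, h2⟩ := boundedG ι k B2
  refine ⟨MvPolynomial.rename Subtype.val G1 * G2, mul_ne_zero ?_ hG2, ?_⟩
  · intro h
    exact hG1 (MvPolynomial.rename_injective _ Subtype.val_injective (by rw [h, map_zero]))
  intro K _ _ u hu0 hu1 hB s hs0 hsB P hP hPσ W hW hσ hv
  have hDpos : (0 : ℝ) < finrank ℚ K := by exact_mod_cast finrank_pos
  have hBB : ∀ j, j ≠ j0 → logHeight₁ (u j) ≤ finrank ℚ K * B' := fun j hj =>
    (hB j hj).trans (mul_le_mul_of_nonneg_left hBB' hDpos.le)
  have hsBB : ∀ r, logHeight₁ (s r) ≤ finrank ℚ K * Bs' := fun r =>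
    (hsB r).trans (mul_le_mul_of_nonneg_left hBsBs' hDpos.le)
  rw [map_mul, MvPolynomial.aeval_rename]
  -- the three functionals
  let g0 : (ι × Bool → ℝ) →ₗ[ℝ] ℝ := LinearMap.proj (j0, false)
  let g1 : (ι × Bool → ℝ) →ₗ[ℝ] ℝ := LinearMap.proj (j0, true)
  let γ : Fin 3 → (ι × Bool → ℝ) →ₗ[ℝ] ℝ := ![g0, g1, g0 - g1]
  have hγb : ∀ (i : Fin 3) (x : ι × Bool → ℝ), |γ i x| ≤ |x (j0, false)| + |x (j0, true)| := by
    intro i x
    have hγ : i = 0 ∨ i = 1 ∨ i = 2 := by omega
    have p0 := abs_nonneg (x (j0, false))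
    have p1 := abs_nonneg (x (j0, true))
    rcases hγ with rfl | rfl | rfl
    · show |x (j0, false)| ≤ _
      linarith
    · show |x (j0, true)| ≤ _
      linarith
    · show |x (j0, false) - x (j0, true)| ≤ _
      exact abs_sub _ _
  by_cases hbig : ∀ i, Big j0 W A (γ i)
  · -- the conjugates of the other coordinates are near `3 k` small affine subspaces
    have hnear : ∀ i, ∃ V : Submodule ℝ ({j : ι // j ≠ j0} × Bool → ℝ), finrank ℝ V < finrank ℝ W ∧
      ∀ x ∈ W, |γ i x| ≤ C → ∃ v ∈ V, ∀ r, |res j0 x r - v r| ≤ δ :=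
      fun i => big_near' hA0 hC0 hAδ (hbig i)
    choose V hV1 hV2 using hnear
    have hcard : Fintype.card {j : ι // j ≠ j0} + 1 = Fintype.card ι := by
      rw [Fintype.card_subtype_compl, Fintype.card_subtype_eq]
      have : 0 < Fintype.card ι := Fintype.card_pos_iff.2 ⟨j0⟩
      omega
    have := h1 K (fun j => u j.1) (fun j => hu0 _) (fun j => hu1 _) (fun j => hB _ j.2)
      (fun i => V (finProdFinEquiv.symm i).1)
      (fun i => res j0 (P (finProdFinEquiv.symm i).2)) (fun i => by
        have := hV1 (finProdFinEquiv.symm i).1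
        omega) ∅ (by simp) (fun σ _ => by
        have hz0 : σ (u j0) ≠ 0 := (map_ne_zero σ).2 (hu0 j0)
        have hz1 : 1 - σ (u j0) ≠ 0 := by
          rw [← map_one σ, ← map_sub]
          exact (map_ne_zero σ).2 (hu1 j0)
        have hres : res j0 (lc u σ) = lc (fun j : {j : ι // j ≠ j0} => u j.1) σ := rfl
        obtain ⟨i', hi'⟩ := hPσ σ
        have e0 : γ 0 (lc u σ) = log ‖σ (u j0)‖ := rfl
        have e1 : γ 1 (lc u σ) = log ‖1 - σ (u j0)‖ := lc_true u σ j0
        have e2 : γ 2 (lc u σ) = log ‖σ (u j0)‖ - log ‖1 - σ (u j0)‖ := by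
          rw [← e0, ← e1]
          rfl
        have main : ∀ i : Fin 3, |γ i (lc u σ)| ≤ log 2 → ∃ v ∈ V i, ∀ r,
            |lc (fun j : {j : ι // j ≠ j0} => u j.1) σ r - (res j0 (P i') r + v r)| ≤ δ := by
          intro i hi
          have hx := hσ σ
          rw [hi'] at hx
          have hb : |γ i (lc u σ - P i')| ≤ C := by
            rw [map_sub]
            refine (abs_sub _ _).trans ?_
            have b1 := hγb i (P i')
            have b2 := hP i' (j0, false)
            have b3 := hP i' (j0, true)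
            have b4 := le_abs_self Cp
            rw [hC]
            linarith
          obtain ⟨v, hv1, hv2⟩ := hV2 i _ hx hb
          refine ⟨v, hv1, fun r => ?_⟩
          have := hv2 r
          rw [map_sub, Pi.sub_apply, hres] at this
          rw [← sub_sub]
          exact this
        rcases three_cases (σ (u j0)) hz0 hz1 with h | h | h
        · obtain ⟨v, hv1, hv2⟩ := main 0 (by rw [e0]; exact h)
          exact ⟨finProdFinEquiv (0, i'), v, by simpa using hv1, by simpa using hv2⟩
        · obtain ⟨v, hv1, hv2⟩ := main 1 (by rw [e1]; exact h)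
          exact ⟨finProdFinEquiv (1, i'), v, by simpa using hv1, by simpa using hv2⟩
        · obtain ⟨v, hv1, hv2⟩ := main 2 (by rw [e2]; exact h)
          exact ⟨finProdFinEquiv (2, i'), v, by simpa using hv1, by simpa using hv2⟩)
    have e : MvPolynomial.aeval (u ∘ Subtype.val) G1 =
        MvPolynomial.aeval (fun j : {j : ι // j ≠ j0} => u j.1) G1 := rfl
    rw [e, this, zero_mul]
  · -- all heights are bounded
    push Not at hbig
    obtain ⟨i, hi⟩ := hbig
    let g : ({j : ι // j ≠ j0} × Bool) ⊕ (ι × Bool) → K :=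
      Sum.elim (fun r => if r.2 then 1 - u r.1.1 else u r.1.1) s
    have hg : ∀ r, g r ≠ 0 := by
      rintro (⟨j, b⟩ | r)
      · cases b
        · exact hu0 j.1
        · exact hu1 j.1
      · exact hs0 r
    have hloc : ∀ x ∈ W, |γ i x| ≤ A * ∑ r, |res j0 x r| := fun x hx => not_big hA0 hi hx
    -- the local bound
    have hlocal : ∀ x p : ι × Bool → ℝ, x - p ∈ W →
        |γ i x| ≤ (A + 2) * (∑ r, |res j0 x r| + ∑ r, |p r|) := by
      intro x p hxp
      have q1 := hloc _ hxp
      have q2 : γ i x = γ i (x - p) + γ i p := by rw [map_sub]; ring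
      have q3 := hγb i p
      have hr : ∀ r, |p r| ≤ ∑ r, |p r| := fun r =>
        Finset.single_le_sum (f := fun r => |p r|) (fun _ _ => abs_nonneg _) (Finset.mem_univ r)
      have q4 := hr (j0, false)
      have q5 := hr (j0, true)
      have q6 : ∑ r, |res j0 (x - p) r| ≤ ∑ r, |res j0 x r| + ∑ r, |p r| := by
        have q7 : ∑ r, |res j0 (x - p) r| ≤ ∑ r, |res j0 x r| + ∑ r, |res j0 p r| := by
          rw [← Finset.sum_add_distrib]
          apply Finset.sum_le_sum
          intro r _
          rw [map_sub, Pi.sub_apply]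
          exact abs_sub _ _
        have q8 : ∑ r, |res j0 p r| ≤ ∑ r, |p r| := by
          have hinj : Function.Injective
              (fun r : {j : ι // j ≠ j0} × Bool => ((r.1.1, r.2) : ι × Bool)) := by
            rintro ⟨⟨j, hj⟩, b⟩ ⟨⟨j', hj'⟩, b'⟩ h
            simp only [Prod.mk.injEq] at h
            obtain ⟨rfl, rfl⟩ := h
            rfl
          calc ∑ r, |res j0 p r| = ∑ r ∈ Finset.univ.image
                (fun r : {j : ι // j ≠ j0} × Bool => ((r.1.1, r.2) : ι × Bool)), |p r| := by
                rw [Finset.sum_image (fun a _ b _ h => hinj h)]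
                rfl
            _ ≤ _ := Finset.sum_le_sum_of_subset_of_nonneg (Finset.subset_univ _)
                fun _ _ _ => abs_nonneg _
        linarith
      have q9 : 0 ≤ ∑ r, |res j0 x r| := Finset.sum_nonneg fun _ _ => abs_nonneg _
      have q10 : A * ∑ r, |res j0 (x - p) r| ≤ A * (∑ r, |res j0 x r| + ∑ r, |p r|) :=
        mul_le_mul_of_nonneg_left q6 hA0.le
      rw [q2]
      refine (abs_add_le _ _).trans ?_
      linarith
    have hsumh : ∑ r, logHeight₁ (g r) ≤
        finrank ℚ K * (Fintype.card {j : ι // j ≠ j0} * (2 * B' + 1) +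
          Fintype.card (ι × Bool) * Bs') := by
      rw [Fintype.sum_sum_type, mul_add]
      apply add_le_add
      · rw [sum_prod_bool]
        calc _ ≤ ∑ _j : {j : ι // j ≠ j0}, finrank ℚ K * (2 * B' + 1) := by
              apply Finset.sum_le_sum
              rintro ⟨j, hj⟩ _
              have e1 := height_one_sub (u j)
              have e2 := hBB j hj
              have e3 : (finrank ℚ K : ℝ) * log 2 ≤ finrank ℚ K * 1 :=
                mul_le_mul_of_nonneg_left hl1.le hDpos.le
              show logHeight₁ (u j) + logHeight₁ (1 - u j) ≤ _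
              linarith
          _ = _ := by
              rw [Finset.sum_const, nsmul_eq_mul, Finset.card_univ]
              ring
      · calc _ ≤ ∑ _r : ι × Bool, finrank ℚ K * Bs' := Finset.sum_le_sum fun r _ => hsBB r
          _ = _ := by
              rw [Finset.sum_const, nsmul_eq_mul, Finset.card_univ]
              ring
    have key : ∀ z : K, z ≠ 0 → (∀ σ : K →+* ℂ, γ i (lc u σ) = log ‖σ z‖) →
        (∀ v : FinitePlace K, γ i (lv (fun x => v x) u) = log (v z)) →
        logHeight₁ z ≤ finrank ℚ K * (B2 - 2) := by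
      intro z hz hz1 hz2
      have h3 := height_le_of_local hz g hg (A := A + 2) (fun σ => by
          have := hlocal _ _ (hσ σ)
          rw [hz1 σ] at this
          refine this.trans (le_of_eq ?_)
          congr 1
          rw [Fintype.sum_sum_type]
          congr 1
          refine Finset.sum_congr rfl fun r _ => ?_
          obtain ⟨j, b⟩ := r
          cases b <;> rfl) (fun v => by
          have := hlocal _ _ (hv v)
          rw [hz2 v] at this
          refine this.trans (le_of_eq ?_)
          congr 1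
          rw [Fintype.sum_sum_type]
          congr 1
          refine Finset.sum_congr rfl fun r _ => ?_
          obtain ⟨j, b⟩ := r
          cases b <;> rfl)
      calc logHeight₁ z ≤ (A + 2) * (finrank ℚ K * (Fintype.card {j : ι // j ≠ j0} * (2 * B' + 1) +
          Fintype.card (ι × Bool) * Bs')) :=
            h3.trans (mul_le_mul_of_nonneg_left hsumh (by positivity))
        _ ≤ _ := by
            rw [hB2]
            have : 0 ≤ (finrank ℚ K : ℝ) * B' := by positivity
            linarith
    have hj0 : logHeight₁ (u j0) ≤ finrank ℚ K * B2 := by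
      have a1 := height_one_sub (1 - u j0)
      rw [sub_sub_cancel] at a1
      have a2 : (finrank ℚ K : ℝ) * log 2 ≤ finrank ℚ K * 1 :=
        mul_le_mul_of_nonneg_left hl1.le hDpos.le
      have hγ : i = 0 ∨ i = 1 ∨ i = 2 := by omega
      rcases hγ with rfl | rfl | rfl
      · have := key (u j0) (hu0 j0) (fun σ => rfl) (fun v => rfl)
        linarith
      · have := key (1 - u j0) (hu1 j0) (fun σ => rfl) (fun v => rfl)
        linarith
      · have hw0 : u j0 / (1 - u j0) ≠ 0 := div_ne_zero (hu0 j0) (hu1 j0)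
        have h3 := key (u j0 / (1 - u j0)) hw0 (fun σ => by
          show log ‖σ (u j0)‖ - log ‖σ (1 - u j0)‖ = _
          rw [map_div₀, norm_div, Real.log_div (norm_ne_zero_iff.2 ((map_ne_zero σ).2 (hu0 j0)))
            (norm_ne_zero_iff.2 ((map_ne_zero σ).2 (hu1 j0)))]) (fun v => by
          show log (v (u j0)) - log (v (1 - u j0)) = _
          rw [map_div₀, Real.log_div (FinitePlace.pos_iff.2 (hu0 j0)).ne'
            (FinitePlace.pos_iff.2 (hu1 j0)).ne'])
        have h4 : 1 - -(u j0 / (1 - u j0)) = (1 - u j0)⁻¹ := by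
          have := hu1 j0
          field_simp
          ring
        have h5 := height_one_sub (-(u j0 / (1 - u j0)))
        rw [h4, logHeight₁_inv, logHeight₁_neg] at h5
        linarith
    have h6 := h2 K u hu0 hu1 (fun j => by
      by_cases hj : j = j0
      · rw [hj]; exact hj0
      · refine (hBB j hj).trans (mul_le_mul_of_nonneg_left ?_ hDpos.le)
        rw [hB2]
        have : 0 ≤ (A + 2) * (Fintype.card {j : ι // j ≠ j0} * (2 * B' + 1) +
          Fintype.card (ι × Bool) * Bs') := by positivity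
        linarith) (fun _ => W) P (fun _ => hW) ∅ (by simp) (fun σ _ => by
        obtain ⟨i', hi'⟩ := hPσ σ
        refine ⟨i', lc u σ - ls (fun x => ‖σ x‖) s, hσ σ, fun r => ?_⟩
        rw [hi', Pi.sub_apply, add_sub_cancel, sub_self, abs_zero]
        exact hδ2.le)
    rw [h6, mul_zero]

end Pool.Agent.H883.ZP
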