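import Pool.Agent.H883.ZP.Ext

set_option autoImplicit false
set_option linter.unusedSectionVars false

/-!
# Specialization to number fields
-/

namespace Pool.Agent.H883.ZP

open Real NumberField Height Module

/-- a finitely generated algebra over a number field maps to a number field -/
theorem exists_spec (K0 : Type) [Field K0] [NumberField K0] (A : Type) [CommRing A] [Nontrivial A]
    [Algebra K0 A] [Algebra.FiniteType K0 A] :
    ∃ (K : Type) (_ : Field K) (_ : NumberField K) (_ : Algebra K0 K), Nonempty (A →ₐ[K0] K) := by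
  obtain ⟨m, hm⟩ := Ideal.exists_maximal A
  let _ := Ideal.Quotient.field m
  have : Algebra.FiniteType K0 (A ⧸ m) :=
    Algebra.FiniteType.of_surjective (Ideal.Quotient.mkₐ K0 m) Ideal.Quotient.mk_surjective
  have h1 : Module.Finite K0 (A ⧸ m) := finite_of_finite_type_of_isJacobsonRing K0 (A ⧸ m)
  have h2 : CharZero (A ⧸ m) := charZero_of_injective_algebraMap (algebraMap K0 (A ⧸ m)).injective
  have h3 : Module.Finite ℚ (A ⧸ m) := Module.Finite.trans K0 (A ⧸ m)
  exact ⟨A ⧸ m, inferInstance, @NumberField.mk _ _ h2 h3, inferInstance,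
    ⟨Ideal.Quotient.mkₐ K0 m⟩⟩

lemma map_aevalZ {A M ι : Type} [CommRing A] [CommRing M] (φ : A →+* M) (x : ι → A)
    (G : MvPolynomial ι ℤ) :
    φ (MvPolynomial.aeval x G) = MvPolynomial.aeval (fun i => φ (x i)) G :=
  MvPolynomial.comp_aeval_apply (f := x) φ.toIntAlgHom G

section

variable {A L : Type} [CommRing A] [Field L]

/-- monomials in units -/
def monU {κ : Type} [Fintype κ] (Z : κ → Aˣ) (e : κ → ℤ) : Aˣ := ∏ l, Z l ^ e l

lemma map_monU {κ : Type} [Fintype κ] (φ : A →+* L) (Z : κ → Aˣ) (e : κ → ℤ) :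
    φ (monU Z e : A) = mon (fun l => φ (Z l : A)) e := by
  unfold monU mon
  rw [Units.coe_prod, map_prod]
  refine Finset.prod_congr rfl fun l _ => ?_
  have h : ∀ (Y : Aˣ), φ (Y : A) = ((Units.map (φ : A →* L) Y : Lˣ) : L) := fun _ => rfl
  rw [h, map_zpow, Units.val_zpow_eq_zpow_val]
  rfl

lemma map_codim {κ : Type} [Fintype κ] {L' : Type} [Field L'] {φ : A →+* L}
    (hφ : Function.Injective φ) (φ' : A →+* L') (Z : κ → Aˣ) {m : ℕ}
    (h : Codim (fun l => φ (Z l : A)) m) : Codim (fun l => φ' (Z l : A)) m := by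
  obtain ⟨R, hR, hrel⟩ := h
  refine ⟨R, hR, fun k => ?_⟩
  have h1 := hrel k
  rw [← map_monU, ← map_one φ] at h1
  rw [← map_monU, hφ h1, map_one]

lemma map_pair {L' : Type} [Field L'] {φ : A →+* L}
    (hφ : Function.Injective φ) (φ' : A →+* L') {n c : ℕ} (Z : Fin n → Aˣ)
    {α β : Fin c → Fin n → ℤ} {i j : Fin c}
    (h : PairCond α β (fun l => φ (Z l : A)) i j) :
    PairCond α β (fun l => φ' (Z l : A)) i j := by
  have e2 : ∀ (M : Type) [Field M] (ψ : A →+* M) (i : Fin c),
      (![mon (fun l => ψ (Z l : A)) (α i), mon (fun l => ψ (Z l : A)) (β i)] : Fin 2 → M) =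
      fun t => ψ ((![monU Z (α i), monU Z (β i)] t : Aˣ) : A) := by
    intro M _ ψ i
    funext t
    fin_cases t
    · exact (map_monU ψ Z (α i)).symm
    · exact (map_monU ψ Z (β i)).symm
  have e4 : ∀ (M : Type) [Field M] (ψ : A →+* M),
      (![mon (fun l => ψ (Z l : A)) (α i), mon (fun l => ψ (Z l : A)) (β i),
        mon (fun l => ψ (Z l : A)) (α j), mon (fun l => ψ (Z l : A)) (β j)] : Fin 4 → M) =
      fun t => ψ ((![monU Z (α i), monU Z (β i), monU Z (α j), monU Z (β j)] t : Aˣ) : A) := by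
    intro M _ ψ
    funext t
    fin_cases t
    · exact (map_monU ψ Z (α i)).symm
    · exact (map_monU ψ Z (β i)).symm
    · exact (map_monU ψ Z (α j)).symm
    · exact (map_monU ψ Z (β j)).symm
  rcases h with h | h | h
  · left
    rw [e4] at h ⊢
    exact map_codim hφ φ' _ h
  · right; left
    rw [e2] at h ⊢
    exact map_codim hφ φ' _ h
  · right; right
    rw [e2] at h ⊢
    exact map_codim hφ φ' _ h

end

/-- **The theorem over any field.** -/
theorem anyField (K0 : Type) [Field K0] [NumberField K0] (c : ℕ) (a b : Fin c → K0)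
    (ha : ∀ i, a i ≠ 0) (hb : ∀ i, b i ≠ 0) :
    ∃ G : MvPolynomial (Fin c) ℤ, G ≠ 0 ∧
      ∀ (L : Type) [Field L] [Algebra K0 L] (n m : ℕ) (α β : Fin c → Fin n → ℤ)
        (z : Fin n → L), (∀ l, z l ≠ 0) →
        (∀ i, algebraMap K0 L (a i) * mon z (α i) + algebraMap K0 L (b i) * mon z (β i) = 1) →
        Codim z m → n < m + c → (3 < c → ∀ i j, i ≠ j → PairCond α β z i j) →
        MvPolynomial.aeval (fun i => algebraMap K0 L (a i) * mon z (α i)) G = 0 := by
  classical
  obtain ⟨G, hG0, hG⟩ := nfRel c a b ha hb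
  refine ⟨G, hG0, ?_⟩
  intro L _ _ n m α β z hz heq hcod hm hpair
  by_contra hne
  set g : L := MvPolynomial.aeval (fun i => algebraMap K0 L (a i) * mon z (α i)) G with hg
  let T : Finset L := Finset.univ.image z ∪ Finset.univ.image (fun l => (z l)⁻¹) ∪ {g⁻¹}
  let A : Subalgebra K0 L := Algebra.adjoin K0 (T : Set L)
  have hFT : Algebra.FiniteType K0 A :=
    (Subalgebra.fg_iff_finiteType A).1 ⟨T, rfl⟩
  have hzA : ∀ l, z l ∈ A := fun l => Algebra.subset_adjoin (by
    simp only [T, Finset.coe_union, Set.mem_union]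
    left; left
    exact Finset.mem_coe.2 (Finset.mem_image_of_mem _ (Finset.mem_univ l)))
  have hziA : ∀ l, (z l)⁻¹ ∈ A := fun l => Algebra.subset_adjoin (by
    simp only [T, Finset.coe_union, Set.mem_union]
    left; right
    exact Finset.mem_coe.2 (Finset.mem_image_of_mem (fun l => (z l)⁻¹) (Finset.mem_univ l)))
  have hgA : g⁻¹ ∈ A := Algebra.subset_adjoin (by
    simp only [T, Finset.coe_union, Set.mem_union]
    right
    simp)
  let Z : Fin n → Aˣ := fun l => ⟨⟨z l, hzA l⟩, ⟨(z l)⁻¹, hziA l⟩,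
    Subtype.ext (mul_inv_cancel₀ (hz l)), Subtype.ext (inv_mul_cancel₀ (hz l))⟩
  let φ : A →+* L := (A.val : A →+* L)
  have hφ : Function.Injective φ := Subtype.val_injective
  have hφZ : (fun l => φ (Z l : A)) = z := rfl
  obtain ⟨K, _, _, _, ⟨ψ⟩⟩ := exists_spec K0 A
  -- the equations
  have heqA : ∀ i, algebraMap K0 A (a i) * (monU Z (α i) : A) +
      algebraMap K0 A (b i) * (monU Z (β i) : A) = 1 := by
    intro i
    apply hφ
    rw [map_add, map_mul, map_mul, map_monU, map_monU, map_one]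
    exact heq i
  have hψ : ∀ e : Fin n → ℤ, ψ (monU Z e : A) = mon (fun l => ψ (Z l : A)) e := fun e =>
    map_monU (ψ : A →+* K) Z e
  have h1 := hG K n m α β (fun l => ψ (Z l : A)) (fun l => by
      have : IsUnit (ψ (Z l : A)) := (Z l).isUnit.map ψ
      exact this.ne_zero) (fun i => by
      have := congrArg ψ (heqA i)
      rw [map_add, map_mul, map_mul, hψ, hψ, map_one, AlgHom.commutes, AlgHom.commutes] at this
      exact this)
    (map_codim hφ (ψ : A →+* K) Z hcod) hm (fun h3 i j hij =>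
      map_pair hφ (ψ : A →+* K) Z (hpair h3 i j hij))
  -- the value of `G`
  let gA : A := MvPolynomial.aeval (fun i => algebraMap K0 A (a i) * (monU Z (α i) : A)) G
  have hgA1 : φ gA = g := by
    rw [map_aevalZ, hg]
    congr 2
    funext i
    rw [map_mul, map_monU]
    rfl
  have hgA2 : ψ gA = 0 := by
    rw [← h1]
    have h2 := map_aevalZ (ψ : A →+* K) (fun i => algebraMap K0 A (a i) * (monU Z (α i) : A)) G
    refine h2.trans ?_
    congr 2
    funext i
    show ψ (algebraMap K0 A (a i) * (monU Z (α i) : A)) = _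
    rw [map_mul, hψ, AlgHom.commutes]
  have hunit : gA * ⟨g⁻¹, hgA⟩ = 1 := by
    apply hφ
    rw [map_mul, hgA1, map_one]
    exact mul_inv_cancel₀ hne
  have h2 := congrArg ψ hunit
  rw [map_mul, hgA2, zero_mul, map_one] at h2
  exact zero_ne_one h2

end Pool.Agent.H883.ZP
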