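import Pool.Graph.R_pool_sql_team_seeded_620a6dc7.H489ZP.CoreH

set_option autoImplicit false
set_option linter.unusedSectionVars false

/-!
# Two numbers of large height whose local sizes are nearly related by a matrix
-/

namespace Pool.Agent.H883.ZP

open NumberField Height IsDedekindDomain Pool.Agent.H489ZP

/-- the local inequality, in terms of real numbers -/
lemma loc_real {N k : ℕ} {X X1 Y Y1 t ε e a b c d : ℝ} (hε : 0 ≤ ε) (he : 0 ≤ e) (ha : 0 ≤ a)
    (hd : 0 ≤ d) (hX : NT ε X X1) (h1 : Y ≤ a * X + b * X1 + e) (h2 : Y1 ≤ c * X + d * X1 + e)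
    (hA : t ≤ (1 + 6 * (k + N)) * ε + N * max 0 X + max Y (k * X))
    (hB : t ≤ (1 + 6 * (k + N)) * ε + N * max 0 X + max Y1 ((2 * N + 1) * X1)) :
    t ≤ (max (a + b) k + N) * max 0 X + -min a k * max 0 (-X) + 0 * max 0 X1 +
      -min d (2 * N + 1) * max 0 (-X1) +
      ((a + 2 * |b| + |c| + 8 * k + 8 * N + 5) * ε + e) := by
  obtain ⟨n1, n2, n3⟩ := hX
  have hN0 : (0 : ℝ) ≤ N := Nat.cast_nonneg _
  have hk0 : (0 : ℝ) ≤ k := Nat.cast_nonneg _
  have hmin1 : min a (k : ℝ) ≤ k := min_le_right _ _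
  have hmin10 : 0 ≤ min a (k : ℝ) := le_min ha hk0
  have hmin2 : min d (2 * N + 1 : ℝ) ≤ 2 * N + 1 := min_le_right _ _
  have hmin20 : 0 ≤ min d (2 * N + 1 : ℝ) := le_min hd (by positivity)
  have hmax : (k : ℝ) ≤ max (a + b) k := le_max_right _ _
  have hb0 := abs_nonneg b
  have hc0 := abs_nonneg c
  have p1 : 0 ≤ a * ε := by positivity
  have p2 : 0 ≤ |b| * ε := by positivity
  have p3 : 0 ≤ |c| * ε := by positivity
  have p4 : 0 ≤ k * ε := by positivity
  have p5 : 0 ≤ N * ε := by positivity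
  have habs : ∀ r z : ℝ, |z| ≤ ε → r * z ≤ |r| * ε := fun r z hz => by
    calc r * z ≤ |r * z| := le_abs_self _
      _ = |r| * |z| := abs_mul _ _
      _ ≤ |r| * ε := mul_le_mul_of_nonneg_left hz (abs_nonneg _)
  rcases le_or_gt X (-ε) with hc1 | hc1
  · have hXn : X ≤ 0 := by linarith
    rw [max_eq_right hXn] at n1
    have hX1 : |X1| ≤ ε ∨ X = -ε := by
      rcases hc1.eq_or_lt with h | h
      · exact Or.inr h
      · left
        rw [abs_le]
        refine ⟨?_, by linarith⟩
        by_contra hcon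
        push Not at hcon
        have := max_lt h hcon
        linarith
    rcases hX1 with hX1 | hX1
    · have e1 := abs_le.1 hX1
      have hbX := habs b X1 hX1
      have h3 := max_le_min (κ := (k : ℝ)) (e := |b| * ε + e) hXn (by positivity)
        (by linarith : Y ≤ a * X + (|b| * ε + e))
      rw [max_eq_left hXn] at hA ⊢
      rw [max_eq_right (by linarith : 0 ≤ -X)]
      have h4 : max 0 (-X1) ≤ ε := max_le hε (by linarith)
      have h5 : min d (2 * N + 1 : ℝ) * max 0 (-X1) ≤ (2 * N + 1) * ε :=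
        mul_le_mul hmin2 h4 (le_max_left _ _) (by positivity)
      linarith
    · -- `X = -ε`
      subst hX1
      have hcX : c * -ε ≤ |c| * ε := habs c (-ε) (by rw [abs_neg, abs_of_nonneg hε])
      rw [max_eq_left hXn] at hB ⊢
      rw [neg_neg, max_eq_right hε]
      rcases le_or_gt X1 0 with hX1 | hX1
      · have h3 := max_le_min (κ := (2 * N + 1 : ℝ)) (e := |c| * ε + e) hX1 (by positivity)
          (by linarith : Y1 ≤ d * X1 + (|c| * ε + e))
        rw [max_eq_right (by linarith : 0 ≤ -X1)]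
        have hr2 : min a (k : ℝ) * ε ≤ k * ε := mul_le_mul_of_nonneg_right hmin1 hε
        linarith
      · have hbX : b * X1 ≤ |b| * ε := habs b X1 (by rw [abs_of_pos hX1]; linarith)
        rw [max_eq_left (by linarith : -X1 ≤ 0)]
        rw [max_eq_left hXn] at hA
        have h3 := max_le_min (κ := (k : ℝ)) (e := |b| * ε + e) hXn (by positivity)
          (by linarith : Y ≤ a * -ε + (|b| * ε + e))
        have hr2 : 0 ≤ min a (k : ℝ) * ε := by positivity
        linarith
  rcases lt_or_ge ε X with hc2 | hc2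
  · have hXp : 0 ≤ X := by linarith
    rw [max_eq_left hXp] at n1
    have hX1p : 0 < X1 := by
      by_contra hcon
      push Not at hcon
      rw [max_eq_right hcon] at n2
      linarith
    rw [max_eq_left hX1p.le] at n2
    have e1 : |X1 - X| ≤ ε := abs_le.2 ⟨by linarith, by linarith⟩
    have hbX := habs b (X1 - X) e1
    have h3 := max_le_max' (κ := (k : ℝ)) (e := |b| * ε + e) hXp (by positivity)
      (by linarith : Y ≤ (a + b) * X + (|b| * ε + e))
    rw [max_eq_right hXp] at hA ⊢
    rw [max_eq_left (by linarith : -X ≤ 0), max_eq_left (by linarith : -X1 ≤ 0)]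
    linarith
  have hX0 : max 0 X ≤ ε := max_le hε hc2
  have hNX : N * max 0 X ≤ N * ε := mul_le_mul_of_nonneg_left hX0 hN0
  have hr1 : 0 ≤ (max (a + b) (k : ℝ) + N) * max 0 X :=
    mul_nonneg (by linarith) (le_max_left _ _)
  have hr2 : min a (k : ℝ) * max 0 (-X) ≤ k * ε :=
    mul_le_mul hmin1 (max_le hε (by linarith)) (le_max_left _ _) hk0
  have hXabs : |X| ≤ ε := abs_le.2 ⟨hc1.le, hc2⟩
  rcases le_or_gt X1 0 with hc3 | hc3
  · have hcX := habs c X hXabs
    have h3 := max_le_min (κ := (2 * N + 1 : ℝ)) (e := |c| * ε + e) hc3 (by positivity)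
      (by linarith : Y1 ≤ d * X1 + (|c| * ε + e))
    rw [max_eq_right (by linarith : 0 ≤ -X1)]
    linarith
  · have hX1u : X1 ≤ 2 * ε := by
      have : max X 0 ≤ ε := max_le hc2 hε
      linarith
    rw [max_eq_left (by linarith : -X1 ≤ 0)]
    have haX : a * X ≤ a * ε := mul_le_mul_of_nonneg_left hc2 ha
    have hbX : b * X1 ≤ |b| * (2 * ε) := by
      calc b * X1 ≤ |b * X1| := le_abs_self _
        _ = |b| * |X1| := abs_mul _ _
        _ ≤ |b| * (2 * ε) := mul_le_mul_of_nonneg_left (by rw [abs_of_pos hc3]; exact hX1u) hb0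
    have hkX : k * X ≤ k * ε := mul_le_mul_of_nonneg_left hc2 hk0
    have h3 : max Y (k * X) ≤ a * ε + |b| * (2 * ε) + k * ε + e := by
      apply max_le <;> linarith
    linarith

section

variable {K : Type*} [Field K] [NumberField K]

/-- the sizes of `y`, `1 - y` are nearly given by those of `x`, `1 - x` and a real matrix -/
structure AL (x y : K) (a b c d : ℝ) (err : AbsoluteValue K ℝ → ℝ) (Et : ℝ) : Prop where
  i1 : ∀ v : InfinitePlace K,
    |Real.log (v.1 y) - (a * Real.log (v.1 x) + b * Real.log (v.1 (1 - x)))| ≤ err v.1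
  i2 : ∀ v : InfinitePlace K,
    |Real.log (v.1 (1 - y)) - (c * Real.log (v.1 x) + d * Real.log (v.1 (1 - x)))| ≤ err v.1
  f1 : ∀ v : FinitePlace K,
    |Real.log (v.1 y) - (a * Real.log (v.1 x) + b * Real.log (v.1 (1 - x)))| ≤ err v.1
  f2 : ∀ v : FinitePlace K,
    |Real.log (v.1 (1 - y)) - (c * Real.log (v.1 x) + d * Real.log (v.1 (1 - x)))| ≤ err v.1
  tot : ∀ T : Finset (FinitePlace K), PS T err ≤ Et

/-- comparison of sums over the places -/
lemma PS_compare' {x : K} (T : Finset (FinitePlace K))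
    (hT : ∀ v : FinitePlace K, v ∉ T → v x = 1) (hT1 : ∀ v : FinitePlace K, v ∉ T → v (1 - x) = 1)
    (φ err : AbsoluteValue K ℝ → ℝ) (α₁ α₂ β₁ β₂ E : ℝ)
    (h1 : ∀ v : InfinitePlace K, φ v.1 ≤ α₁ * max 0 (Real.log (v.1 x)) +
      α₂ * max 0 (-Real.log (v.1 x)) + β₁ * max 0 (Real.log (v.1 (1 - x))) +
      β₂ * max 0 (-Real.log (v.1 (1 - x))) + (E + err v.1))
    (h2 : ∀ v : FinitePlace K, φ v.1 ≤ α₁ * max 0 (Real.log (v.1 x)) +
      α₂ * max 0 (-Real.log (v.1 x)) + β₁ * max 0 (Real.log (v.1 (1 - x))) +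
      β₂ * max 0 (-Real.log (v.1 (1 - x))) + err v.1) :
    PS T φ ≤ (α₁ + α₂) * logHeight₁ x + (β₁ + β₂) * logHeight₁ (1 - x) +
      Module.finrank ℚ K * E + PS T err := by
  have h := PS_le T φ (fun f => α₁ * max 0 (Real.log (f x)) +
      α₂ * max 0 (-Real.log (f x)) + β₁ * max 0 (Real.log (f (1 - x))) +
      β₂ * max 0 (-Real.log (f (1 - x))) + err f) E (fun v => by
        have := h1 v
        linarith) h2
  rw [PS_add, PS_add, PS_add, PS_add, PS_smul, PS_smul, PS_smul, PS_smul, PS_pos T hT, PS_neg T hT,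
    PS_pos T hT1, PS_neg T hT1] at h
  linarith

/-- the global inequality -/
theorem star' {x y : K} (hx0 : x ≠ 0) (hx1 : 1 - x ≠ 0) (hy0 : y ≠ 0)
    (hy1 : 1 - y ≠ 0) {a b c d : ℝ} {err : AbsoluteValue K ℝ → ℝ} {Et : ℝ}
    (h : AL x y a b c d err Et) {N k : ℕ} (hk : N + 1 ≤ k)
    (hk2 : k ≤ 2 * N + 1) (hT : Th N k x y ≠ 0) (ha : 0 ≤ a) (hd : 0 ≤ d) :
    min a k * logHeight₁ x + min d (2 * N + 1) * logHeight₁ (1 - x) ≤
      (max (a + b) k + N) * logHeight₁ x + Module.finrank ℚ K *
        ((a + 2 * |b| + |c| + 8 * k + 8 * N + 5) * Real.log 2) + Et := by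
  classical
  obtain ⟨T, hTT⟩ := exists_T (K := K) {x, 1 - x, Th N k x y} (by
    intro z hz
    simp only [Finset.mem_insert, Finset.mem_singleton] at hz
    rcases hz with rfl | rfl | rfl
    · exact hx0
    · exact hx1
    · exact hT)
  have t1 := hTT x (by simp)
  have t2 := hTT (1 - x) (by simp)
  have t3 := hTT (Th N k x y) (by simp)
  have h1 := PS_log hT T t3
  have hl : 0 < Real.log 2 := Real.log_pos (by norm_num)
  have h2 := PS_compare' T t1 t2 (fun f => Real.log (f (Th N k x y))) err (max (a + b) k + N)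
    (-min a k) 0 (-min d (2 * N + 1))
    ((a + 2 * |b| + |c| + 8 * k + 8 * N + 5) * Real.log 2)
    (fun v => by
      have a1 := abs_le.1 (h.i1 v)
      have a2 := abs_le.1 (h.i2 v)
      have he : 0 ≤ err v.1 := (abs_nonneg _).trans (h.i1 v)
      have b1 := Th_A v.1 hk hx0 hy0 hT
      have b2 := Th_B v.1 hk hk2 hx0 hx1 hy1 hT
      exact loc_real hl.le he ha hd (nt_arch v.1 hx0 hx1) (by linarith) (by linarith) b1 b2)
    (fun v => by
      have a1 := abs_le.1 (h.f1 v)
      have a2 := abs_le.1 (h.f2 v)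
      have he : 0 ≤ err v.1 := (abs_nonneg _).trans (h.f1 v)
      have hna : ∀ a b, v.1 (a + b) ≤ max (v.1 a) (v.1 b) := fun a b => v.add_le a b
      have b1 := Th_A_na v.1 hna (N := N) (k := k) hx0 hy0 hT
      have b2 := Th_B_na v.1 hna hk hk2 hx0 hx1 hy1 hT
      have := loc_real (N := N) (k := k) (t := Real.log (v.1 (Th N k x y))) (Y := Real.log (v.1 y))
        (Y1 := Real.log (v.1 (1 - y))) (a := a) (b := b) (c := c) (d := d) (e := err v.1)
        (le_refl (0 : ℝ)) he ha hd (nt_na hna hx0 hx1) (by linarith) (by linarith) (by linarith) (by linarith)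
      rw [mul_zero, zero_add] at this
      exact this)
  rw [h1] at h2
  have h3 := h.tot T
  linarith

/-- height of a near-monomial -/
lemma hgt_le' {x z : K} (hx0 : x ≠ 0) (hx1 : 1 - x ≠ 0) (hz : z ≠ 0) {α β : ℝ}
    {err : AbsoluteValue K ℝ → ℝ} {Et : ℝ}
    (h1 : ∀ v : InfinitePlace K,
      |Real.log (v.1 z) - (α * Real.log (v.1 x) + β * Real.log (v.1 (1 - x)))| ≤ err v.1)
    (h2 : ∀ v : FinitePlace K,
      |Real.log (v.1 z) - (α * Real.log (v.1 x) + β * Real.log (v.1 (1 - x)))| ≤ err v.1)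
    (hE : ∀ T : Finset (FinitePlace K), PS T err ≤ Et) :
    logHeight₁ z ≤ |α| * logHeight₁ x + 2 * |β| * logHeight₁ (1 - x) + Et := by
  classical
  obtain ⟨T, hTT⟩ := exists_T (K := K) {x, 1 - x, z} (by
    intro z' hz'
    simp only [Finset.mem_insert, Finset.mem_singleton] at hz'
    rcases hz' with rfl | rfl | rfl
    · exact hx0
    · exact hx1
    · exact hz)
  have t1 := hTT x (by simp)
  have t2 := hTT (1 - x) (by simp)
  have t3 := hTT z (by simp)
  have key : ∀ (f : AbsoluteValue K ℝ),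
      |Real.log (f z) - (α * Real.log (f x) + β * Real.log (f (1 - x)))| ≤ err f →
      max 0 (Real.log (f z)) ≤ max α 0 * max 0 (Real.log (f x)) +
      max (-α) 0 * max 0 (-Real.log (f x)) + |β| * max 0 (Real.log (f (1 - x))) +
      |β| * max 0 (-Real.log (f (1 - x))) + err f := by
    intro f hf
    have he : 0 ≤ err f := (abs_nonneg _).trans hf
    have hf' := (abs_le.1 hf).2
    set X := Real.log (f x)
    set X1 := Real.log (f (1 - x))
    have p1 : 0 ≤ max α 0 * max 0 X := mul_nonneg (le_max_right _ _) (le_max_left _ _)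
    have p2 : 0 ≤ max (-α) 0 * max 0 (-X) := mul_nonneg (le_max_right _ _) (le_max_left _ _)
    have p3 : 0 ≤ |β| * max 0 X1 := mul_nonneg (abs_nonneg _) (le_max_left _ _)
    have p4 : 0 ≤ |β| * max 0 (-X1) := mul_nonneg (abs_nonneg _) (le_max_left _ _)
    apply max_le (by linarith)
    have q1 : α * X ≤ max α 0 * max 0 X + max (-α) 0 * max 0 (-X) := by
      rcases le_total 0 X with hX | hX
      · rw [max_eq_right hX, max_eq_left (by linarith : -X ≤ 0), mul_zero, add_zero]
        exact mul_le_mul_of_nonneg_right (le_max_left _ _) hX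
      · rw [max_eq_left hX, max_eq_right (by linarith : 0 ≤ -X), mul_zero, zero_add]
        have : -α * -X ≤ max (-α) 0 * -X :=
          mul_le_mul_of_nonneg_right (le_max_left _ _) (by linarith)
        linarith
    have q2 : β * X1 ≤ |β| * max 0 X1 + |β| * max 0 (-X1) := by
      have e : |X1| = max 0 X1 + max 0 (-X1) := by
        rcases le_total 0 X1 with hX | hX
        · rw [max_eq_right hX, max_eq_left (by linarith : -X1 ≤ 0), abs_of_nonneg hX, add_zero]
        · rw [max_eq_left hX, max_eq_right (by linarith : 0 ≤ -X1), abs_of_nonpos hX, zero_add]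
      rw [← mul_add, ← e, ← abs_mul]
      exact le_abs_self _
    linarith
  have h2 := PS_compare' T t1 t2 (fun f => max 0 (Real.log (f z))) err (max α 0)
    (max (-α) 0) |β| |β| 0 (fun v => by
      have := key v.1 (h1 v)
      linarith) (fun v => key v.1 (h2 v))
  rw [PS_pos T t3] at h2
  have e : max α 0 + max (-α) 0 = |α| := by
    rcases le_total 0 α with hX | hX
    · rw [max_eq_left hX, max_eq_right (by linarith : -α ≤ 0), abs_of_nonneg hX, add_zero]
    · rw [max_eq_right hX, max_eq_left (by linarith : 0 ≤ -α), abs_of_nonpos hX, zero_add]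
  rw [e] at h2
  have h3 := hE T
  linarith

/-- one use of the global inequality -/
lemma step' {x y : K} (hx0 : x ≠ 0) (hx1 : 1 - x ≠ 0) (hy0 : y ≠ 0)
    (hy1 : 1 - y ≠ 0) {a b c d : ℝ} {err : AbsoluteValue K ℝ → ℝ} {E : ℝ} (hE0 : 0 ≤ E)
    (h : AL x y a b c d err ((1 + a) * E * Module.finrank ℚ K)) {N k : ℕ} (hk : N + 1 ≤ k)
    (hk2 : k ≤ 2 * N + 1) (hT : Th N k x y ≠ 0) (ha : 0 ≤ a) (hd : 0 ≤ d)
    (hL : Module.finrank ℚ K * (10000 * (1 + E)) < logHeight₁ x) (m : ℝ) (hm : 0 < m)
    (hm1 : m ≤ min a k + min d (2 * N + 1) - (max (a + b) k + N))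
    (hE : (a + 2 * |b| + |c| + 8 * k + 8 * N + 5) + (2 * N + 1) ≤ 10000 * m)
    (hE2 : 1 + a ≤ 10000 * m) : False := by
  have h1 := star' hx0 hx1 hy0 hy1 h hk hk2 hT ha hd
  have h2 := height_one_sub' x
  have hD : (0 : ℝ) < Module.finrank ℚ K := by exact_mod_cast Module.finrank_pos
  have hl : 0 < Real.log 2 := Real.log_pos (by norm_num)
  have hl1 : Real.log 2 < 1 := by linarith [Real.log_two_lt_d9]
  set D : ℝ := (Module.finrank ℚ K : ℝ) with hDdef
  set L := logHeight₁ x with hLdef
  set L1 := logHeight₁ (1 - x) with hL1def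
  set C : ℝ := a + 2 * |b| + |c| + 8 * k + 8 * N + 5 with hCdef
  have hDE : 0 ≤ D * (10000 * (1 + E)) := by positivity
  have hL0 : 0 < L := by linarith
  have hmin0 : 0 ≤ min d (2 * N + 1 : ℝ) := le_min hd (by positivity)
  have hmin1 : min d (2 * N + 1 : ℝ) ≤ 2 * N + 1 := min_le_right _ _
  have h3 : min d (2 * (N : ℝ) + 1) * (L - D * Real.log 2) ≤ min d (2 * N + 1) * L1 :=
    mul_le_mul_of_nonneg_left (by linarith) hmin0
  have h4 : min d (2 * (N : ℝ) + 1) * (D * Real.log 2) ≤ (2 * N + 1) * (D * Real.log 2) :=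
    mul_le_mul_of_nonneg_right hmin1 (by positivity)
  have h5 : m * L ≤ (min a k + min d (2 * N + 1) - (max (a + b) k + N)) * L :=
    mul_le_mul_of_nonneg_right hm1 hL0.le
  have hC0 : 0 ≤ C + (2 * N + 1) := by positivity
  have h6 : (C + (2 * N + 1)) * (D * Real.log 2) ≤ (C + (2 * N + 1)) * (D * 1) :=
    mul_le_mul_of_nonneg_left (mul_le_mul_of_nonneg_left hl1.le hD.le) hC0
  have h7 : (C + (2 * N + 1)) * (D * 1) ≤ (10000 * m) * (D * 1) :=
    mul_le_mul_of_nonneg_right hE (by linarith)
  have h8 : m * (D * (10000 * (1 + E))) < m * L := mul_lt_mul_of_pos_left hL hm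
  have h9 : (1 + a) * (E * D) ≤ (10000 * m) * (E * D) :=
    mul_le_mul_of_nonneg_right hE2 (by positivity)
  have h10 : m * (D * (10000 * (1 + E))) = (10000 * m) * (D * 1) + (10000 * m) * (E * D) := by ring
  have h11 : (min a k + min d (2 * (N : ℝ) + 1) - (max (a + b) k + N)) * L =
      min a k * L + min d (2 * N + 1) * L - (max (a + b) k + N) * L := by ring
  have h12 : min d (2 * (N : ℝ) + 1) * (L - D * Real.log 2) = min d (2 * N + 1) * L -
      min d (2 * N + 1) * (D * Real.log 2) := by ring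
  have h13 : D * (C * Real.log 2) = C * (D * Real.log 2) := by ring
  have h14 : (C + (2 * N + 1)) * (D * Real.log 2) = C * (D * Real.log 2) +
      (2 * N + 1) * (D * Real.log 2) := by ring
  have h15 : (1 + a) * E * D = (1 + a) * (E * D) := by ring
  rw [h13, h15] at h1
  linarith

/-- the degenerate value of the parameters -/
lemma degen' {x y : K} (hx0 : x ≠ 0) (hx1 : 1 - x ≠ 0) (hy0 : y ≠ 0)
    {a b c d : ℝ} {err : AbsoluteValue K ℝ → ℝ} {Et : ℝ} (h : AL x y a b c d err Et)
    (hT : Th 1 2 x y = 0) :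
    logHeight₁ x ≤ |a - 2| * logHeight₁ x + 2 * |b| * logHeight₁ (1 - x) + Et +
      Module.finrank ℚ K * 20 := by
  rw [Th_one_two] at hT
  have hl : 0 < Real.log 2 := Real.log_pos (by norm_num)
  have hl1 : Real.log 2 < 1 := by linarith [Real.log_two_lt_d9]
  have hD : (0 : ℝ) < Module.finrank ℚ K := by exact_mod_cast Module.finrank_pos
  set z : K := y / x ^ 2 with hz
  have hz0 : z ≠ 0 := div_ne_zero hy0 (pow_ne_zero _ hx0)
  have hyz : y = z * x ^ 2 := by rw [hz]; field_simp
  have hlogz : ∀ f : AbsoluteValue K ℝ, Real.log (f z) =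
      Real.log (f y) - 2 * Real.log (f x) := by
    intro f
    rw [hz, map_div₀, map_pow, Real.log_div (f.pos hy0).ne' (pow_pos (f.pos hx0) 2).ne',
      Real.log_pow]
    push_cast
    ring
  have hLz : logHeight₁ z ≤ |a - 2| * logHeight₁ x + 2 * |b| * logHeight₁ (1 - x) + Et := by
    apply hgt_le' hx0 hx1 hz0 _ _ h.tot
    · intro v
      rw [hlogz]
      refine le_trans (le_of_eq ?_) (h.i1 v)
      congr 1
      ring
    · intro v
      rw [hlogz]
      refine le_trans (le_of_eq ?_) (h.f1 v)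
      congr 1
      ring
  have hrel : z * (1 - 3 * x) = x - 3 := by
    rw [hyz] at hT
    have h2 : x ^ 2 * (z * (1 - 3 * x) - (x - 3)) = 0 := by linear_combination hT
    rcases mul_eq_zero.1 h2 with h3 | h3
    · exact absurd h3 (pow_ne_zero _ hx0)
    · linear_combination h3
  have hden : 3 * z + 1 ≠ 0 := by
    intro h0
    have h1 : z + 3 = 0 := by linear_combination x * h0 + hrel
    have h2 : (8 : K) = 0 := by linear_combination 3 * h1 - h0
    norm_num at h2
  have hx : x = 3⁻¹ + 8 * (3 * (3 * z + 1))⁻¹ := by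
    have h3 : (3 : K) ≠ 0 := by norm_num
    field_simp
    linear_combination -3 * hrel
  have add1 := fun u v : K => logHeight₁_add_le u v
  simp only [totalWeight_eq_finrank] at add1
  have mul1 := fun u v : K => logHeight₁_mul_le u v
  have l1 : logHeight₁ (1 : K) = 0 := logHeight₁_one
  set D : ℝ := (Module.finrank ℚ K : ℝ) with hDdef
  have l2 : logHeight₁ (2 : K) ≤ D * Real.log 2 := by
    have := add1 1 1
    rw [one_add_one_eq_two, l1] at this
    linarith
  have l3 : logHeight₁ (3 : K) ≤ 2 * (D * Real.log 2) := by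
    have := add1 2 1
    have e : (2 : K) + 1 = 3 := by norm_num
    rw [e, l1] at this
    linarith
  have l8 : logHeight₁ (8 : K) ≤ 3 * (D * Real.log 2) := by
    have h1 := mul1 2 2
    have h2 := mul1 (2 * 2) 2
    have e : (2 : K) * 2 * 2 = 8 := by norm_num
    rw [e] at h2
    linarith
  have m1 := mul1 3 z
  have m2 := add1 (3 * z) 1
  have m3 := mul1 3 (3 * z + 1)
  have m4 := mul1 8 (3 * (3 * z + 1))⁻¹
  rw [logHeight₁_inv] at m4
  have m5 := add1 3⁻¹ (8 * (3 * (3 * z + 1))⁻¹)
  rw [← hx, logHeight₁_inv] at m5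
  have hDl : D * Real.log 2 ≤ D := by nlinarith
  linarith

/-- the near-diagonal case -/
theorem core_contra' {x y : K} (hx0 : x ≠ 0) (hx1 : 1 - x ≠ 0) (hy0 : y ≠ 0)
    (hy1 : 1 - y ≠ 0) (hxy : y ≠ x) {a b c d : ℝ} {err : AbsoluteValue K ℝ → ℝ} {E : ℝ}
    (hE0 : 0 ≤ E) (h : AL x y a b c d err ((1 + |a|) * E * Module.finrank ℚ K))
    {e : ℝ} (he0 : 0 ≤ e)
    (hb : |b| ≤ e) (hc : |c| ≤ e) (had : |a - d| ≤ 3 * e) (hae : -e ≤ a)
    (hee : e ≤ (1 + |a|) / 1000)
    (hLy : logHeight₁ x ≤ logHeight₁ y + 2 * (Module.finrank ℚ K * Real.log 2))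
    (hL : Module.finrank ℚ K * (10000 * (1 + E)) < logHeight₁ x) : False := by
  have hD : (0 : ℝ) < Module.finrank ℚ K := by exact_mod_cast Module.finrank_pos
  have hl : 0 < Real.log 2 := Real.log_pos (by norm_num)
  have hl1 : Real.log 2 < 1 := by linarith [Real.log_two_lt_d9]
  have h1 := hgt_le' hx0 hx1 hy0 h.i1 h.f1 h.tot
  have h2 := height_one_sub x
  have hDE : 0 ≤ (Module.finrank ℚ K : ℝ) * (10000 * (1 + E)) := by positivity
  have hDE1 : (Module.finrank ℚ K : ℝ) * (10000 * (1 + E)) =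
    10000 * Module.finrank ℚ K + 10000 * (E * Module.finrank ℚ K) := by ring
  have hED : 0 ≤ E * (Module.finrank ℚ K : ℝ) := by positivity
  -- the size of `a`
  have hLpos : 0 < logHeight₁ x := by linarith
  have hDl' : Module.finrank ℚ K * Real.log 2 ≤ Module.finrank ℚ K := by nlinarith
  have hDl : Module.finrank ℚ K * Real.log 2 ≤ logHeight₁ x / 2000 := by linarith
  have hED2 : E * Module.finrank ℚ K ≤ logHeight₁ x / 10000 := by linarith
  have hEt : (1 + |a|) * E * Module.finrank ℚ K ≤ (1 + |a|) * (logHeight₁ x / 10000) := by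
    rw [mul_assoc]
    exact mul_le_mul_of_nonneg_left hED2 (by positivity)
  have hbh : 2 * |b| * logHeight₁ (1 - x) ≤ 2 * e * (logHeight₁ x + logHeight₁ x / 2000) := by
    apply mul_le_mul (by linarith) (by linarith) _ (by linarith)
    exact zero_le_logHeight₁ _
  have hA : 99 / 100 ≤ |a| := by
    by_contra hcon
    push Not at hcon
    have e2 : logHeight₁ x * (1 - 1 / 1000 - |a| - 2 * e * (1 + 1 / 2000) -
        (1 + |a|) / 10000) ≤ 0 := by nlinarith
    have e3 : 0 < 1 - 1 / 1000 - |a| - 2 * e * (1 + 1 / 2000) - (1 + |a|) / 10000 := by nlinarith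
    nlinarith
  have ha0 : 0 ≤ a := by
    by_contra hcon
    push Not at hcon
    rw [abs_of_neg hcon] at hA hee
    linarith
  rw [abs_of_nonneg ha0] at hA hee h hEt
  have hb' : |b| ≤ 21 / 10000 * a := by linarith
  have hc' : |c| ≤ 21 / 10000 * a := by linarith
  have hd' : 9937 / 10000 * a ≤ d := by
    have := abs_le.1 had
    linarith
  have hbb : a + b ≤ 10021 / 10000 * a := by
    have := abs_le.1 hb'
    linarith
  have hd0 : 0 ≤ d := by linarith
  have st := fun (N k : ℕ) (hk : N + 1 ≤ k) (hk2 : k ≤ 2 * N + 1) (hT : Th N k x y ≠ 0) =>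
    step' hx0 hx1 hy0 hy1 hE0 h hk hk2 hT ha0 hd0 hL
  rcases le_or_gt a (18 / 10) with r1 | r1
  · -- `N = 0`
    refine st 0 1 (by norm_num) (by norm_num) ?_ (15 / 100) (by norm_num) ?_ ?_ ?_
    · rw [Th_zero_one]
      exact sub_ne_zero.2 hxy
    · have q1 : (99 / 100 : ℝ) ≤ min a ((1 : ℕ) : ℝ) := le_min hA (by norm_num)
      have q2 : (98 / 100 : ℝ) ≤ min d (2 * ((0 : ℕ) : ℝ) + 1) := le_min (by linarith) (by norm_num)
      have q3 : max (a + b) ((1 : ℕ) : ℝ) ≤ 181 / 100 := max_le (by linarith) (by norm_num)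
      push_cast at q1 q2 q3 ⊢
      linarith
    · push_cast
      linarith
    · linarith
  rcases le_or_gt a (22 / 10) with r2 | r2
  · -- `N = 1`, `k = 2`
    by_cases hT : Th 1 2 x y = 0
    · have h3 := degen' hx0 hx1 hy0 h hT
      have e0 : |a - 2| ≤ 2 / 10 := abs_le.2 ⟨by linarith, by linarith⟩
      have e1 : |a - 2| * logHeight₁ x ≤ 2 / 10 * logHeight₁ x :=
        mul_le_mul_of_nonneg_right e0 hLpos.le
      have e2 : 2 * |b| * logHeight₁ (1 - x) ≤ 2 / 100 * (logHeight₁ x + logHeight₁ x / 2000) := by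
        apply mul_le_mul (by linarith) (by linarith) _ (by norm_num)
        exact zero_le_logHeight₁ _
      have e3 : (1 + a) * (logHeight₁ x / 10000) ≤ 4 * (logHeight₁ x / 10000) :=
        mul_le_mul_of_nonneg_right (by linarith) (by positivity)
      linarith
    · refine st 1 2 (by norm_num) (by norm_num) hT (3 / 10) (by norm_num) ?_ ?_ ?_
      · have q1 : (18 / 10 : ℝ) ≤ min a ((2 : ℕ) : ℝ) := le_min r1.le (by norm_num)
        have q2 : (178 / 100 : ℝ) ≤ min d (2 * ((1 : ℕ) : ℝ) + 1) :=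
          le_min (by linarith) (by norm_num)
        have q3 : max (a + b) ((2 : ℕ) : ℝ) ≤ 221 / 100 := max_le (by linarith) (by norm_num)
        push_cast at q1 q2 q3 ⊢
        linarith
      · push_cast
        linarith
      · linarith
  rcases lt_or_ge a (37 / 10) with r3 | r3
  · -- `N = 1`
    rcases nonvan (y := y) hx0 hx1 (le_refl 1) with hT | hT
    · refine st 1 3 (by norm_num) (by norm_num) hT (3 / 10) (by norm_num) ?_ ?_ ?_
      · rcases le_total a 3 with r4 | r4
        · have q1 : a ≤ min a ((3 : ℕ) : ℝ) := le_min le_rfl (by exact_mod_cast r4)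
          have q2 : 9937 / 10000 * a ≤ min d (2 * ((1 : ℕ) : ℝ) + 1) :=
            le_min (by linarith) (by push_cast; linarith)
          have q3 : max (a + b) ((3 : ℕ) : ℝ) ≤ 301 / 100 := max_le (by linarith) (by norm_num)
          push_cast at q1 q2 q3 ⊢
          linarith
        · have q1 : (3 : ℝ) ≤ min a ((3 : ℕ) : ℝ) := le_min r4 (by norm_num)
          have q2 : (298 / 100 : ℝ) ≤ min d (2 * ((1 : ℕ) : ℝ) + 1) :=
            le_min (by linarith) (by norm_num)
          have q3 : max (a + b) ((3 : ℕ) : ℝ) ≤ 371 / 100 := max_le (by linarith) (by norm_num)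
          push_cast at q1 q2 q3 ⊢
          linarith
      · push_cast
        linarith
      · linarith
    · refine st 1 2 (by norm_num) (by norm_num) hT (25 / 100) (by norm_num) ?_ ?_ ?_
      · have q1 : (2 : ℝ) ≤ min a ((2 : ℕ) : ℝ) := le_min (by linarith) (by norm_num)
        have q3 : max (a + b) ((2 : ℕ) : ℝ) ≤ 10021 / 10000 * a :=
          max_le hbb (by push_cast; linarith)
        rcases le_total a 3 with r4 | r4
        · have q2 : 9937 / 10000 * a ≤ min d (2 * ((1 : ℕ) : ℝ) + 1) :=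
            le_min (by linarith) (by push_cast; linarith)
          push_cast at q1 q2 q3 ⊢
          linarith
        · have q2 : (298 / 100 : ℝ) ≤ min d (2 * ((1 : ℕ) : ℝ) + 1) :=
            le_min (by linarith) (by norm_num)
          push_cast at q1 q2 q3 ⊢
          linarith
      · push_cast
        linarith
      · linarith
  rcases lt_or_ge a 4 with r4 | r4
  · -- `N = 2`
    have q2 : 9937 / 10000 * a ≤ min d (2 * ((2 : ℕ) : ℝ) + 1) :=
      le_min (by linarith) (by push_cast; linarith)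
    rcases nonvan (y := y) hx0 hx1 (show 1 ≤ 2 by norm_num) with hT | hT
    · refine st 2 5 (by norm_num) (by norm_num) hT (3 / 10) (by norm_num) ?_ ?_ ?_
      · have q1 : a ≤ min a ((5 : ℕ) : ℝ) := le_min le_rfl (by push_cast; linarith)
        have q3 : max (a + b) ((5 : ℕ) : ℝ) ≤ 5 := max_le (by linarith) (by norm_num)
        push_cast at q1 q2 q3 ⊢
        linarith
      · push_cast
        linarith
      · linarith
    · refine st 2 4 (by norm_num) (by norm_num) hT (3 / 10) (by norm_num) ?_ ?_ ?_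
      · have q1 : a ≤ min a ((4 : ℕ) : ℝ) := le_min le_rfl (by push_cast; linarith)
        have q3 : max (a + b) ((4 : ℕ) : ℝ) ≤ 401 / 100 := max_le (by linarith) (by norm_num)
        push_cast at q1 q2 q3 ⊢
        linarith
      · push_cast
        linarith
      · linarith
  · -- the general case
    obtain ⟨N, hN1, hN2⟩ : ∃ N : ℕ, 2 * (N : ℝ) ≤ a ∧ a < 2 * N + 2 := by
      refine ⟨⌊a / 2⌋₊, ?_, ?_⟩
      · have := Nat.floor_le (a := a / 2) (by linarith)
        linarith
      · have := Nat.lt_floor_add_one (a / 2)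
        linarith
    have hN : 2 ≤ N := by
      by_contra hcon
      push Not at hcon
      have : (N : ℝ) ≤ 1 := by exact_mod_cast (by omega : N ≤ 1)
      linarith
    have hNr : (2 : ℝ) ≤ N := by exact_mod_cast hN
    rcases nonvan (y := y) hx0 hx1 (show 1 ≤ N by omega) with hT | hT
    · refine st N (2 * N + 1) (by omega) (by omega) hT (4 / 10 * N) (by positivity) ?_ ?_ ?_
      · rcases le_total a (2 * N + 1) with r5 | r5
        · have q1 : a ≤ min a ((2 * N + 1 : ℕ) : ℝ) := le_min le_rfl (by push_cast; linarith)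
          have q2 : 9937 / 10000 * a ≤ min d (2 * (N : ℝ) + 1) := le_min hd' (by linarith)
          have q3 : max (a + b) ((2 * N + 1 : ℕ) : ℝ) ≤ 10021 / 10000 * (2 * N + 1) :=
            max_le (by linarith) (by push_cast; linarith)
          linarith
        · have q1 : (2 * N + 1 : ℝ) ≤ min a ((2 * N + 1 : ℕ) : ℝ) :=
            le_min r5 (by push_cast; linarith)
          have q2 : 9937 / 10000 * (2 * N + 1) ≤ min d (2 * (N : ℝ) + 1) :=
            le_min (by linarith) (by linarith)
          have q3 : max (a + b) ((2 * N + 1 : ℕ) : ℝ) ≤ 10021 / 10000 * (2 * N + 2) :=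
            max_le (by linarith) (by push_cast; linarith)
          linarith
      · push_cast
        linarith
      · linarith
    · refine st N (2 * N) (by omega) (by omega) hT (4 / 10 * N) (by positivity) ?_ ?_ ?_
      · have q1 : (2 * N : ℝ) ≤ min a ((2 * N : ℕ) : ℝ) := le_min hN1 (by push_cast; linarith)
        rcases le_total (9937 / 10000 * a) (2 * N + 1) with r5 | r5
        · have q2 : 9937 / 10000 * a ≤ min d (2 * (N : ℝ) + 1) := le_min hd' r5
          have q3 : max (a + b) ((2 * N : ℕ) : ℝ) ≤ 10021 / 10000 * a :=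
            max_le hbb (by push_cast; linarith)
          linarith
        · have q2 : (2 * N + 1 : ℝ) ≤ min d (2 * (N : ℝ) + 1) := le_min (by linarith) le_rfl
          have q3 : max (a + b) ((2 * N : ℕ) : ℝ) ≤ 10021 / 10000 * (2 * N + 2) :=
            max_le (by linarith) (by push_cast; linarith)
          linarith
      · push_cast
        linarith
      · linarith

end

end Pool.Agent.H883.ZP
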